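import Pool.Agent.Lib.MP_b664fd_ag.Res

/-! Recursive cutting, sortable configurations, and the passage to toric rings. -/

open Finsupp

namespace Pool.Agent.Lib.MP_b664fd_ag

variable {K : Type} [Field K] {M : Type} [AddCommMonoid M] {deg : M →+ ℤ} {A : Set M}

/-- Pairs on opposite sides of the hyperplane can be moved closer to it. -/
def PairEx (A : Set M) (h : M →+ ℤ) : Prop :=
  ∀ u ∈ A, ∀ v ∈ A, 0 < h u → h v < 0 → ∃ u' ∈ A, ∃ v' ∈ A, u' + v' = u + v ∧
    (h u').natAbs + (h v').natAbs < (h u).natAbs + (h v).natAbs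

lemma PairEx.neg {h : M →+ ℤ} (H : PairEx A h) : PairEx A (-h) := fun u hu v hv h1 h2 => by
  obtain ⟨v', h3, u', h4, h5, h6⟩ := H v hv u hu (by simpa using h2) (by simpa using h1)
  exact ⟨u', h4, v', h3, by rw [add_comm, h5, add_comm], by simpa [add_comm] using h6⟩

lemma tot_cons (a : A) (s : Multiset A) : tot A (a ::ₘ s) = a + tot A s := by simp [tot_apply]

lemma PairEx.closure {h : M →+ ℤ} (H : PairEx A h) (m : M) :
    m ∈ AddSubmonoid.closure (A ∩ {a | 0 ≤ h a}) ↔ m ∈ AddSubmonoid.closure A ∧ 0 ≤ h m := by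
  refine ⟨fun hm => ⟨AddSubmonoid.closure_mono Set.inter_subset_left hm,
    nonneg_closure (fun a ha => ha.2) hm⟩, fun h0 => ?_⟩
  obtain ⟨h1, h2⟩ := h0
  obtain ⟨s, rfl⟩ := mem_closure_iff.1 h1
  clear h1
  induction hk : (s.map fun a : A => (h a.1).natAbs).sum using Nat.strong_induction_on generalizing s with
  | _ k ih =>
  by_cases h3 : ∀ a ∈ s, 0 ≤ h a.1
  · refine AddSubmonoid.multiset_sum_mem _ _ fun a ha => ?_
    obtain ⟨x, hx, rfl⟩ := Multiset.mem_map.1 ha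
    exact AddSubmonoid.subset_closure ⟨x.2, h3 x hx⟩
  push Not at h3
  obtain ⟨v, h3, h4⟩ := h3
  obtain ⟨t, rfl⟩ := Multiset.exists_cons_of_mem h3
  by_cases h5 : ∀ a ∈ t, h a.1 ≤ 0
  · have h6 : 0 ≤ (-h) (tot A t) := by
      rw [tot_apply, map_multiset_sum]
      refine Multiset.sum_nonneg fun b hb => ?_
      simp only [Multiset.map_map, Multiset.mem_map, Function.comp_apply] at hb
      obtain ⟨x, hx, rfl⟩ := hb
      simpa using h5 x hx
    rw [tot_cons, map_add] at h2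
    rw [AddMonoidHom.neg_apply] at h6
    omega
  push Not at h5
  obtain ⟨u, h5, h6⟩ := h5
  obtain ⟨r, rfl⟩ := Multiset.exists_cons_of_mem h5
  obtain ⟨u', h7, v', h8, h9, h10⟩ := H u u.2 v v.2 h6 h4
  have e : tot A (⟨u', h7⟩ ::ₘ ⟨v', h8⟩ ::ₘ r) = tot A (v ::ₘ u ::ₘ r) := by
    simp only [tot_cons, ← add_assoc, h9, add_comm]
  rw [← e] at h2 ⊢
  refine ih _ ?_ _ h2 rfl
  simp only [← hk, Multiset.map_cons, Multiset.sum_cons]
  omega

theorem Good.rec_cut (C : Set M → Prop)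
    (hC : ∀ A, C A → Good K deg A ∨ ∃ h : M →+ ℤ, PairEx A h ∧ (∃ u ∈ A, 0 < h u) ∧
      (∃ u ∈ A, h u < 0) ∧ C (A ∩ {a | 0 ≤ h a}) ∧ C (A ∩ {a | 0 ≤ (-h) a}))
    (hfin : A.Finite) (hA : C A) : Good K deg A := by
  induction hk : A.ncard using Nat.strong_induction_on generalizing A with
  | _ k ih =>
  rcases hC A hA with h1 | ⟨h, h1, ⟨u, h2, h3⟩, ⟨v, h4, h5⟩, h6, h7⟩
  · exact h1
  refine Good.cut h h1.closure h1.neg.closure
    (ih _ ?_ (hfin.subset Set.inter_subset_left) h6 rfl)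
    (ih _ ?_ (hfin.subset Set.inter_subset_left) h7 rfl) <;>
    refine hk ▸ Set.ncard_lt_ncard ⟨Set.inter_subset_left, fun h8 => ?_⟩ hfin
  · exact absurd (h8 h4).2 (not_le.2 h5)
  · exact absurd (h8 h2).2 (by simpa using h3)

lemma tot_injective [IsCancelAdd M] {J : Type} [Fintype J] (z : J → M →+ ℤ) (hA : ∀ a ∈ A, deg a = 1)
    (hz : ∀ u ∈ A, ∀ v ∈ A, (∀ j, z j u = z j v) → u = v)
    (hc : ∀ u ∈ A, ∀ v ∈ A, (∀ j, z j u ≤ z j v ∧ z j v ≤ z j u + 1) ∨
      ∀ j, z j v ≤ z j u ∧ z j u ≤ z j v + 1) : Function.Injective (tot A) := by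
  classical
  have h1 : ∀ a b : A, ∑ j, z j b ≤ ∑ j, z j a → ∀ j, z j b ≤ z j a := fun a b h => by
    rcases hc a a.2 b b.2 with h1 | h1
    · exact fun j => ((Finset.sum_eq_sum_iff_of_le fun j _ => (h1 j).1).1
        (le_antisymm (Finset.sum_le_sum fun j _ => (h1 j).1) h) j (Finset.mem_univ j)).ge
    · exact fun j => (h1 j).1
  have h2 : ∀ s : Multiset A, s ≠ 0 → ∃ a ∈ s, ∀ b ∈ s, ∀ j, z j b ≤ z j a := fun s hs => by
    obtain ⟨a, h2, h3⟩ := s.toFinset.exists_max_image (fun a => ∑ j, z j a)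
      (Multiset.toFinset_nonempty.2 hs)
    exact ⟨a, Multiset.mem_toFinset.1 h2, fun b hb => h1 a b (h3 b (Multiset.mem_toFinset.2 hb))⟩
  have h3 : ∀ (j : J) (c : ℤ) (s : Multiset A), ((∀ b ∈ s, z j b ≤ c) →
      z j (tot A s) ≤ c * deg (tot A s)) ∧ ((∀ b ∈ s, c ≤ z j b) →
      c * deg (tot A s) ≤ z j (tot A s)) := fun j c s => by
    induction s using Multiset.induction_on with
    | empty => simp
    | cons a s ih =>
      simp only [Multiset.forall_mem_cons, tot_cons, map_add, hA a a.2, mul_add, mul_one]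
      exact ⟨fun h => add_le_add h.1 (ih.1 h.2), fun h => add_le_add h.1 (ih.2 h.2)⟩
  have h4 : ∀ (a a' : A) (s s' : Multiset A), tot A (a ::ₘ s) = tot A s' →
      (∀ b ∈ s', ∀ j, z j b ≤ z j a') → ∀ j, z j a ≤ z j a' := fun a a' s s' e h j => by
    by_contra h4
    have h5 := (h3 j (z j a') s').1 fun b hb => h b hb j
    have h6 := (h3 j (z j a') s).2 fun b _ => by
      rcases hc a a.2 b b.2 with h6 | h6 <;> have := h6 j <;> omega
    rw [← e, tot_cons, map_add, map_add, hA a a.2, mul_add] at h5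
    omega
  have h5 : ∀ s : Multiset A, tot A s = tot A 0 → s = 0 := fun s e => by
    have := congrArg deg e
    rw [deg_tot hA, deg_tot hA, cardZ_apply, cardZ_apply] at this
    exact Multiset.card_eq_zero.1 (by simpa using this)
  intro s s' e
  induction hk : Multiset.card s generalizing s s' with
  | zero =>
    obtain rfl := Multiset.card_eq_zero.1 hk
    exact (h5 s' e.symm).symm
  | succ k ih =>
    have h6 : s ≠ 0 := by rintro rfl; simp at hk
    have h7 : s' ≠ 0 := by rintro rfl; exact h6 (h5 s e)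
    obtain ⟨a, h8, h9⟩ := h2 s h6
    obtain ⟨a', h10, h11⟩ := h2 s' h7
    obtain ⟨t, rfl⟩ := Multiset.exists_cons_of_mem h8
    obtain ⟨t', rfl⟩ := Multiset.exists_cons_of_mem h10
    obtain rfl : a = a' := Subtype.ext (hz a a.2 a' a'.2 fun j =>
      le_antisymm (h4 a a' t _ e h11 j) (h4 a' a t' _ e.symm h9 j))
    rw [tot_cons, tot_cons] at e
    rw [ih (add_left_cancel e) (by simpa using hk)]

/-- Any two points can be replaced by a sorted pair with the same sum. -/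
def Sorts {J : Type} (z : J → M →+ ℤ) (A : Set M) : Prop :=
  ∀ u ∈ A, ∀ v ∈ A, ∃ u' ∈ A, ∃ v' ∈ A, u' + v' = u + v ∧
    ∀ j, z j v' ≤ z j u' ∧ z j u' ≤ z j v' + 1

/-- The hyperplane `g = t * deg`. -/
def shf (deg g : M →+ ℤ) (t : ℤ) : M →+ ℤ := g - t • deg

lemma shf_apply (hA : ∀ a ∈ A, deg a = 1) (g : M →+ ℤ) (t : ℤ) {a : M} (ha : a ∈ A) :
    shf deg g t a = g a - t := by simp [shf, hA a ha]

theorem Good.sorts [IsCancelAdd M] {J : Type} [Fintype J] (z : J → M →+ ℤ)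
    (hA : ∀ a ∈ A, deg a = 1) (hz : ∀ u ∈ A, ∀ v ∈ A, (∀ j, z j u = z j v) → u = v)
    (hfin : A.Finite) (hs : Sorts z A) : Good K deg A := by
  refine Good.rec_cut (fun B => B ⊆ A ∧ Sorts z B) (fun B ⟨h1, h2⟩ => ?_) hfin ⟨subset_rfl, hs⟩
  let Z : Option J → M →+ ℤ := fun j => j.elim 0 z
  have hB : ∀ a ∈ B, deg a = 1 := fun a ha => hA a (h1 ha)
  have h3 : ∀ j l u v, (∀ j, z j v ≤ z j u ∧ z j u ≤ z j v + 1) →
      (Z j - Z l) u ≤ (Z j - Z l) v + 1 ∧ (Z j - Z l) v ≤ (Z j - Z l) u + 1 := fun j l u v h => by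
    have h3 : ∀ j, Z j v ≤ Z j u ∧ Z j u ≤ Z j v + 1 := fun j => by
      cases j with
      | none => simp [Z]
      | some j => exact h j
    have := h3 j
    have := h3 l
    simp only [AddMonoidHom.sub_apply]
    omega
  have h4 : ∀ g : M →+ ℤ, (∀ u ∈ B, ∀ v ∈ B, (∀ j, z j v ≤ z j u ∧ z j u ≤ z j v + 1) →
      g u ≤ g v + 1 ∧ g v ≤ g u + 1) → B ∩ {a | 0 ≤ g a} ⊆ A ∧ Sorts z (B ∩ {a | 0 ≤ g a}) :=
    fun g hg => ⟨Set.inter_subset_left.trans h1, fun u hu v hv => by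
      obtain ⟨u', h4, v', h5, h6, h7⟩ := h2 u hu.1 v hv.1
      have h8 := hg u' h4 v' h5 h7
      have h9 := congrArg g h6
      have h10 : 0 ≤ g u := hu.2
      have h11 : 0 ≤ g v := hv.2
      rw [map_add, map_add] at h9
      exact ⟨u', ⟨h4, show 0 ≤ g u' by omega⟩, v', ⟨h5, show 0 ≤ g v' by omega⟩, h6, h7⟩⟩
  by_cases h5 : ∃ j l, ∃ u ∈ B, ∃ v ∈ B, (Z j - Z l) v + 1 < (Z j - Z l) u
  · obtain ⟨j, l, u, h5, v, h6, h7⟩ := h5
    have h8 : ∀ u' ∈ B, ∀ v' ∈ B, (∀ j, z j v' ≤ z j u' ∧ z j u' ≤ z j v' + 1) →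
        shf deg (Z j - Z l) ((Z j - Z l) v + 1) u' ≤ shf deg (Z j - Z l) ((Z j - Z l) v + 1) v' + 1
        ∧ shf deg (Z j - Z l) ((Z j - Z l) v + 1) v' ≤
          shf deg (Z j - Z l) ((Z j - Z l) v + 1) u' + 1 := fun u' h8 v' h9 h => by
      have := h3 j l u' v' h
      rw [shf_apply hB _ _ h8, shf_apply hB _ _ h9]
      omega
    refine Or.inr ⟨shf deg (Z j - Z l) ((Z j - Z l) v + 1), fun a ha b hb h9 h10 => ?_,
      ⟨u, h5, by rw [shf_apply hB _ _ h5]; omega⟩, ⟨v, h6, by rw [shf_apply hB _ _ h6]; omega⟩,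
      h4 _ h8, h4 _ fun u' h9 v' h10 h => ?_⟩
    · obtain ⟨a', h11, b', h12, h13, h14⟩ := h2 a ha b hb
      have h15 := h8 a' h11 b' h12 h14
      have h16 := congrArg (shf deg (Z j - Z l) ((Z j - Z l) v + 1)) h13
      rw [map_add, map_add] at h16
      exact ⟨a', h11, b', h12, h13, by omega⟩
    · have := h8 u' h9 v' h10 h
      simp only [AddMonoidHom.neg_apply]
      omega
  · push Not at h5
    refine Or.inl (Good.free hB (tot_injective z hB (fun u hu v hv => hz u (h1 hu) v (h1 hv))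
      fun u hu v hv => ?_))
    have h6 : ∀ j, z j u ≤ z j v + 1 ∧ z j v ≤ z j u + 1 := fun j =>
      ⟨by simpa [Z] using h5 (some j) none u hu v hv, by simpa [Z] using h5 (some j) none v hv u hu⟩
    by_contra h7
    simp only [not_or, not_forall] at h7
    obtain ⟨⟨j, h7⟩, l, h8⟩ := h7
    have h9 := h5 (some j) (some l) u hu v hv
    have := h6 j
    have := h6 l
    simp only [Z, Option.elim, AddMonoidHom.sub_apply] at h9
    omega

/-- Lattice points placed at height one. -/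
def lift {n : ℕ} (A : Set (Fin n → ℤ)) : Set ((Fin n → ℤ) × ℤ) := {p | p.1 ∈ A ∧ p.2 = 1}

lemma lift_finite {n : ℕ} {A : Set (Fin n → ℤ)} (hfin : A.Finite) : (lift A).Finite :=
  (hfin.prod (Set.finite_singleton 1)).subset fun _ hp => hp

lemma coeff_single_mul {G : Type} [AddCommMonoid G] (a : G) (f : AddMonoidAlgebra K G) :
    (AddMonoidAlgebra.single a 1 * f).coeff = lmapDomain K K (· + a) f.coeff := by
  induction f using AddMonoidAlgebra.induction_linear with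
  | zero => simp
  | add x y h1 h2 => simp only [mul_add, AddMonoidAlgebra.coeff_add, map_add, h1, h2]
  | single m r => simp [AddMonoidAlgebra.single_mul_single, add_comm]

theorem Good.toric {n : ℕ} {A : Set (Fin n → ℤ)} (hfin : A.Finite)
    (hG : Good K (AddMonoidHom.snd _ _) (lift A)) : ToricKoszul K A := by
  let φ := Ideal.kerLiftAlg (toricMap K A)
  let ψ := (AddMonoidAlgebra.coeffLinearEquiv K).toLinearMap ∘ₗ φ.toLinearMap
  let x : lift A → MvPolynomial A K ⧸ RingHom.ker (toricMap K A) := fun a =>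
    Ideal.Quotient.mk _ (MvPolynomial.X ⟨a.1.1, a.2.1⟩)
  have h0 : ∀ r, ψ r = (φ r).coeff := fun r => rfl
  have h1 : ∀ a, φ (x a) = AddMonoidAlgebra.single a.1 1 := fun a => by
    rw [Ideal.kerLiftAlg_mk, toricMap, MvPolynomial.aeval_X]
    exact congrArg (AddMonoidAlgebra.single · 1) (Prod.ext rfl a.2.2.symm)
  have h2 : ∀ a r, ψ (x a * r) = lmapDomain K K (· + a.1) (ψ r) := fun a r => by
    rw [h0, h0, map_mul, h1, coeff_single_mul]
  have h3 : Set.range x = Set.range fun u : A =>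
      Ideal.Quotient.mk (RingHom.ker (toricMap K A)) (MvPolynomial.X u) := by
    ext r
    exact ⟨fun ⟨a, ha⟩ => ⟨_, ha⟩, fun ⟨u, hu⟩ => ⟨⟨(u.1, 1), u.2, rfl⟩, hu⟩⟩
  rw [ToricKoszul, QuotKoszul, ← h3]
  refine hG.resolution (fun a ha => ha.2) (lift_finite hfin) ψ
    ((AddMonoidAlgebra.coeffLinearEquiv K).injective.comp (Ideal.kerLiftAlg_injective _)) x h2
    fun f => ⟨fun hf => ?_, ?_⟩
  · refine map_mem_of_single LinearMap.id (LinearMap.range ψ) (fun m hm => ?_) hf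
    induction hm using AddSubmonoid.closure_induction_left with
    | zero => exact ⟨1, by rw [h0, map_one]; rfl⟩
    | add_left a ha m _ ih =>
      obtain ⟨r, hr⟩ := ih
      exact ⟨x ⟨a, ha⟩ * r, by rw [h2, hr]; simp [add_comm]⟩
  · rintro ⟨r, rfl⟩
    obtain ⟨p, rfl⟩ := Ideal.Quotient.mk_surjective r
    induction p using MvPolynomial.induction_on with
    | C c =>
      have : ψ (Ideal.Quotient.mk _ (MvPolynomial.C c)) = single 0 c := by
        rw [h0, Ideal.kerLiftAlg_mk, MvPolynomial.algHom_C]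
        rfl
      exact this ▸ sp_single (zero_mem _) c
    | add p q h4 h5 =>
      rw [map_add, map_add]
      exact add_mem h4 h5
    | mul_X p u h4 =>
      rw [map_mul, mul_comm]
      refine (h2 ⟨(u.1, 1), u.2, rfl⟩ _).symm ▸ map_mem_of_single _ _ (fun m hm => ?_) h4
      rw [lmapDomain_apply, mapDomain_single]
      exact sp_single (add_mem hm (AddSubmonoid.subset_closure ⟨u.2, rfl⟩)) 1

end Pool.Agent.Lib.MP_b664fd_ag
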