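import Pool.Agent.Lib.MP_b664fd_ag.Prod

/-! The bar differential on words in a commutative monoid, with a weight on the products. -/

open Finsupp

namespace Pool.Agent.Lib.MP_b664fd_ag

variable {K : Type} [Field K] {M N : Type} [AddCommMonoid M] [AddCommMonoid N]

/-- Put a letter in front. -/
noncomputable abbrev cons (a : M) : (List M →₀ K) →ₗ[K] (List M →₀ K) :=
  lmapDomain K K (List.cons a)

/-- Boundary of a word. -/
noncomputable def bd (μ : M → M → K) : List M → (List M →₀ K)
  | a :: b :: w => μ a b • single ((a + b) :: w) 1 - cons a (bd μ (b :: w))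
  | _ => 0

/-- The bar differential. -/
noncomputable def Dd (μ : M → M → K) : (List M →₀ K) →ₗ[K] (List M →₀ K) :=
  linearCombination K (bd μ)

/-- Merge a letter with the first letter of a word. -/
noncomputable def mrg (μ : M → M → K) (a : M) : (List M →₀ K) →ₗ[K] (List M →₀ K) :=
  linearCombination K fun w => match w with
    | [] => 0
    | b :: w => μ a b • single ((a + b) :: w) 1

/-- The sign operator. -/
noncomputable def sg : (List M →₀ K) →ₗ[K] (List M →₀ K) :=
  linearCombination K fun w => (-1 : K) ^ w.length • single w 1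

/-- One word arises from another by merging two adjacent letters. -/
def Mrg (μ : M → M → K) (w v : List M) : Prop :=
  ∃ l a b r, w = l ++ a :: b :: r ∧ v = l ++ (a + b) :: r ∧ μ a b ≠ 0

variable (μ ν : M → M → K)

@[simp] lemma bd_nil : bd μ [] = 0 := by simp [bd]

@[simp] lemma bd_one (a : M) : bd μ [a] = 0 := by simp [bd]

lemma bd_two (a b : M) (w : List M) :
    bd μ (a :: b :: w) = μ a b • single ((a + b) :: w) 1 - cons a (bd μ (b :: w)) := by rw [bd]

@[simp] lemma Dd_single (w : List M) : Dd μ (single w 1) = bd μ w := by simp [Dd]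

lemma lin_ext {ι V : Type} [AddCommGroup V] [Module K V] (f g : (ι →₀ K) →ₗ[K] V)
    (h : ∀ w, f (single w 1) = g (single w 1)) (z : ι →₀ K) : f z = g z :=
  map_eq_of_single (X := Set.univ) f g (fun w _ => h w) (sp_iff.2 fun _ _ => trivial)

lemma Dd_cons (a : M) (z : List M →₀ K) : Dd μ (cons a z) = mrg μ a z - cons a (Dd μ z) :=
  lin_ext (Dd μ ∘ₗ cons a) (mrg μ a - cons a ∘ₗ Dd μ) (fun w => by
    cases w <;> simp [mrg, bd_two]) z

lemma mrg_cons (a b : M) (z : List M →₀ K) : mrg μ a (cons b z) = μ a b • cons (a + b) z :=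
  lin_ext (mrg μ a ∘ₗ cons b) (μ a b • cons (a + b)) (fun w => by simp [mrg]) z

lemma Mrg.cons {μ : M → M → K} {w v : List M} (h : Mrg μ w v) (a : M) :
    Mrg μ (a :: w) (a :: v) := by
  obtain ⟨l, b, c, r, rfl, rfl, h⟩ := h
  exact ⟨a :: l, b, c, r, rfl, rfl, h⟩

lemma bd_mem : ∀ w : List M, bd μ w ∈ Sp K {v | Mrg μ w v}
  | [] => by simp
  | [_] => by simp
  | a :: b :: w => by
    rw [bd_two]
    refine sub_mem ?_ (sp_to (sp_map _ (bd_mem (b :: w))) ?_)
    · by_cases h : μ a b = 0
      · simp [h]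
      · refine Submodule.smul_mem _ _ (sp_single ?_ 1)
        exact ⟨[], a, b, w, rfl, rfl, h⟩
    · rintro _ ⟨v, hv, rfl⟩
      exact hv.cons a

lemma Dd_mem {w : List M} {S : Set (List M)}
    (h : ∀ l a b r, w = l ++ a :: b :: r → μ a b ≠ 0 → l ++ (a + b) :: r ∈ S) :
    Dd μ (single w 1) ∈ Sp K S := by
  rw [Dd_single]
  refine sp_to (bd_mem μ w) ?_
  rintro _ ⟨l, a, b, r, h1, rfl, h2⟩
  exact h l a b r h1 h2

lemma bd_sub : ∀ w : List M, bd μ w - bd ν w = bd (μ - ν) w
  | [] => by simp
  | [_] => by simp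
  | a :: b :: w => by
    rw [bd_two, bd_two, bd_two, ← bd_sub (b :: w), map_sub, Pi.sub_apply, Pi.sub_apply, sub_smul]
    abel

lemma Dd_sub_single (w : List M) : (Dd μ - Dd ν) (single w 1) = Dd (μ - ν) (single w 1) := by
  simp [bd_sub]

lemma Dd_congr {w : List M} (h : ∀ a ∈ w, ∀ b ∈ w, μ a b = ν a b) :
    Dd μ (single w 1) = Dd ν (single w 1) := by
  have := Dd_mem (μ - ν) (w := w) (S := ∅) fun l a b r h1 h2 =>
    h2 (by simp [h a (by simp [h1]) b (by simp [h1])])
  rw [← Dd_sub_single, Sp, supported_empty] at this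
  simpa [sub_eq_zero] using this

lemma Dd_bd (h : ∀ a b c, μ a b * μ (a + b) c = μ b c * μ a (b + c)) :
    ∀ w : List M, Dd μ (bd μ w) = 0
  | [] => by simp
  | [_] => by simp
  | [a, b] => by simp [bd_two, Dd]
  | a :: b :: c :: w => by
    have ih := Dd_bd h (b :: c :: w)
    rw [bd_two, map_sub, Dd_cons, ih, map_smul, Dd_single, bd_two, bd_two, map_sub, mrg_cons,
      map_smul, smul_sub, smul_smul, h]
    simp [mrg, add_assoc]

lemma Dd_Dd (h : ∀ a b c, μ a b * μ (a + b) c = μ b c * μ a (b + c)) (z : List M →₀ K) :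
    Dd μ (Dd μ z) = 0 :=
  lin_ext (Dd μ ∘ₗ Dd μ) 0 (fun w => by simpa using Dd_bd μ h w) z

omit [AddCommMonoid M] in
lemma sg_single (w : List M) : sg (single w (1 : K)) = (-1 : K) ^ w.length • single w 1 := by
  simp [sg]

omit [AddCommMonoid M] in
lemma sg_eq {n : ℕ} {z : List M →₀ K} (hz : z ∈ Sp K {w | w.length = n}) :
    sg z = (-1 : K) ^ n • z :=
  map_eq_of_single sg ((-1 : K) ^ n • LinearMap.id) (fun w hw => by
    rw [sg_single, show w.length = n from hw]; rfl) hz

omit [AddCommMonoid M] in
lemma sg_sg : (sg : (List M →₀ K) →ₗ[K] _) ∘ₗ sg = LinearMap.id :=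
  LinearMap.ext (lin_ext _ _ fun w => by
    rw [LinearMap.comp_apply, sg_single, map_smul, sg_single, smul_smul, ← mul_pow]
    simp)

lemma Dd_sg : Dd μ ∘ₗ sg = -(sg ∘ₗ Dd μ) :=
  LinearMap.ext (lin_ext _ _ fun w => by
    cases w with
    | nil => simp [sg_single]
    | cons a w =>
      have h : Dd μ (single (a :: w) 1) ∈ Sp K {v | v.length = w.length} :=
        Dd_mem μ fun l b c r h1 _ => by
          have := congrArg List.length h1
          simp at this ⊢
          omega
      rw [LinearMap.neg_apply, LinearMap.comp_apply, LinearMap.comp_apply, sg_eq h, sg_single,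
        map_smul, List.length_cons, pow_succ]
      simp)

lemma bd_append (a b : M) (r : List M) : ∀ l : List M,
    bd μ (l ++ a :: b :: r) = lmapDomain K K (· ++ b :: r) (bd μ (l ++ [a])) +
      (-1 : K) ^ (l.length + 1) • lmapDomain K K ((l ++ [a]) ++ ·) (bd μ (b :: r)) +
      ((-1 : K) ^ l.length * μ a b) • single (l ++ (a + b) :: r) 1
  | [] => by
    simp only [List.nil_append, bd_two, bd_one, map_zero, List.length_nil, zero_add, pow_one,
      pow_zero, one_mul, neg_smul, one_smul]
    exact sub_eq_neg_add _ _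
  | c :: l => by
    have ih := bd_append a b r l
    obtain ⟨d, t, h⟩ : ∃ d t, l ++ [a] = d :: t := by cases l <;> simp
    have h' : l ++ a :: b :: r = d :: (t ++ b :: r) := by
      rw [← List.cons_append, ← h]; simp
    have e1 : ∀ z : List M →₀ K, cons c (lmapDomain K K (· ++ b :: r) z) =
        lmapDomain K K (· ++ b :: r) (cons c z) := fun z => by
      simp only [lmapDomain_apply, ← mapDomain_comp]; rfl
    have e2 : ∀ z : List M →₀ K, cons c (lmapDomain K K ((d :: t) ++ ·) z) =
        lmapDomain K K ((c :: d :: t) ++ ·) z := fun z => by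
      simp only [lmapDomain_apply, ← mapDomain_comp]; rfl
    rw [List.cons_append, List.cons_append, h', bd_two, ← h', ih, h, bd_two, map_add, map_add,
      map_smul, map_smul, e1, e2, map_sub, map_smul]
    simp only [lmapDomain_apply, mapDomain_single, List.length_cons, pow_succ, List.cons_append]
    module

lemma bd_map (f : N →+ M) : ∀ w : List N,
    bd μ (w.map f) = lmapDomain K K (List.map f) (bd (fun a b => μ (f a) (f b)) w)
  | [] => by simp
  | [_] => by simp
  | a :: b :: w => by
    have ih := bd_map f (b :: w)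
    rw [List.map_cons] at ih
    rw [List.map_cons, List.map_cons, bd_two, bd_two, ih, map_sub, map_smul]
    simp only [lmapDomain_apply, mapDomain_single, ← mapDomain_comp, List.map_cons, map_add]
    rfl

end Pool.Agent.Lib.MP_b664fd_ag
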