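import Pool.Agent.Lib.MP_b664fd_ag.Alc

/-! Rounding along a laminar family of signed sets. -/

open Finset

namespace Pool.Agent.Lib.MP_b664fd_ag

lemma lam_order {E : Type} [DecidableEq E] (L : Finset (Finset E))
    (hL : ∀ S ∈ L, ∀ T ∈ L, S ⊆ T ∨ T ⊆ S ∨ Disjoint S T) :
    ∃ κ : E → ℕ, (∀ S ∈ L, ∀ i ∈ S, ∀ k ∈ S, ∀ j, κ i ≤ κ j → κ j ≤ κ k → j ∈ S) ∧
      ∀ i j, (∀ S ∈ L, i ∈ S ↔ j ∈ S) → κ i = κ j := by
  induction L using Finset.induction_on_min_value (fun S : Finset E => S.card) with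
  | empty => exact ⟨0, by simp, by simp⟩
  | insert S L _ hmin ih =>
    obtain ⟨κ, h1, h2⟩ := ih fun A hA B hB => hL A (mem_insert_of_mem hA) B (mem_insert_of_mem hB)
    refine ⟨fun i => 2 * κ i + if i ∈ S then 1 else 0, forall_mem_insert _ _ _ |>.2
      ⟨fun i hi k hk j h3 h4 => ?_, fun T hT i hi k hk j h3 h4 => h1 T hT i hi k hk j ?_ ?_⟩,
      fun i j h3 => ?_⟩
    · have h5 : κ i = κ k := h2 i k fun T hT => by
        rcases hL S (mem_insert_self _ _) T (mem_insert_of_mem hT) with h | h | h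
        · exact iff_of_true (h hi) (h hk)
        · rw [eq_of_subset_of_card_le h (hmin T hT)]
          exact iff_of_true hi hk
        · exact iff_of_false (disjoint_left.1 h hi) (disjoint_left.1 h hk)
      by_contra h6
      simp only [hi, hk, h6, if_true, if_false] at h3 h4
      omega
    · simp only at h3
      split_ifs at h3 <;> omega
    · simp only at h4
      split_ifs at h4 <;> omega
    · simp only [h2 i j fun T hT => h3 T (mem_insert_of_mem hT), h3 S (mem_insert_self _ _)]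

variable {n : ℕ}

/-- Two signed sets are nested up to a global sign, or disjoint. -/
def Cpt (a b : Fin n → ℤ) : Prop :=
  (∃ s : ℤ, (s = 1 ∨ s = -1) ∧ ((∀ i, a i ≠ 0 → b i = s * a i) ∨ ∀ i, b i ≠ 0 → a i = s * b i)) ∨
    ∀ i, a i = 0 ∨ b i = 0

/-- The support. -/
def sup (a : Fin n → ℤ) : Finset (Fin n) := univ.filter fun i => a i ≠ 0

lemma mem_sup {a : Fin n → ℤ} {i : Fin n} : i ∈ sup a ↔ a i ≠ 0 := by simp [sup]

lemma sign_choice (G : Finset (Fin n → ℤ)) (hv : ∀ a ∈ G, ∀ i, a i = 0 ∨ a i = 1 ∨ a i = -1)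
    (hc : ∀ a ∈ G, ∀ b ∈ G, Cpt a b) : ∃ σ : Fin n → ℤ, (∀ i, σ i = 1 ∨ σ i = -1) ∧
      ∀ a ∈ G, ∃ s : ℤ, (s = 1 ∨ s = -1) ∧ ∀ i, a i ≠ 0 → a i = s * σ i := by
  induction G using Finset.induction_on_min_value (fun a => (sup a).card) with
  | empty => exact ⟨1, by simp, by simp⟩
  | insert a G _ hmin ih =>
    obtain ⟨σ, h1, h2⟩ := ih (fun b hb => hv b (mem_insert_of_mem hb))
      fun A hA B hB => hc A (mem_insert_of_mem hA) B (mem_insert_of_mem hB)
    by_cases h3 : ∀ b ∈ G, ∀ i, a i = 0 ∨ b i = 0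
    · refine ⟨fun i => if a i = 0 then σ i else a i, fun i => ?_, forall_mem_insert _ _ _ |>.2
        ⟨⟨1, Or.inl rfl, fun i hi => by simp [hi]⟩, fun b hb => ?_⟩⟩
      · have := hv a (mem_insert_self _ _) i
        have := h1 i
        simp only
        split_ifs <;> omega
      · obtain ⟨s, h4, h5⟩ := h2 b hb
        exact ⟨s, h4, fun i hi => by simp only [if_pos ((h3 b hb i).resolve_right hi), ← h5 i hi]⟩
    push Not at h3
    obtain ⟨b, hb, j, h3⟩ := h3
    refine ⟨σ, h1, forall_mem_insert _ _ _ |>.2 ⟨?_, h2⟩⟩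
    obtain ⟨s, h4, h5⟩ := h2 b hb
    rcases hc a (mem_insert_self _ _) b (mem_insert_of_mem hb) with ⟨t, h6, h7 | h7⟩ | h6
    · refine ⟨t * s, by rcases h4 with rfl | rfl <;> omega, fun i hi => ?_⟩
      have h8 := h7 i hi
      have h9 := h5 i (by rcases h6 with rfl | rfl <;> omega)
      rw [mul_assoc, ← h9]
      rcases h6 with rfl | rfl <;> omega
    · have h8 : sup b = sup a := eq_of_subset_of_card_le (fun i hi => mem_sup.2 (by
        have := h7 i (mem_sup.1 hi)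
        have := mem_sup.1 hi
        rcases h6 with rfl | rfl <;> omega)) (hmin b hb)
      refine ⟨t * s, by rcases h4 with rfl | rfl <;> omega, fun i hi => ?_⟩
      have h9 : b i ≠ 0 := mem_sup.1 (h8 ▸ mem_sup.2 hi)
      rw [mul_assoc, ← h5 i h9, h7 i h9]
    · exact ((h6 j).elim h3.1 h3.2).elim

/-- Signed partial sums. -/
def psum (κ : Fin n → ℕ) (σ : Fin n → ℤ) (t : ℕ) : (Fin n → ℤ) →+ ℤ :=
  AddMonoidHom.mk' (fun x => ∑ i, if κ i < t then σ i * x i else 0) fun x y => by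
    rw [← sum_add_distrib]
    exact sum_congr rfl fun i _ => by split_ifs <;> simp [mul_add]

lemma psum_succ (κ : Fin n → ℕ) (σ : Fin n → ℤ) (t : ℕ) (x : Fin n → ℤ) :
    psum κ σ (t + 1) x = psum κ σ t x + ∑ i, if κ i = t then σ i * x i else 0 := by
  simp only [psum, AddMonoidHom.mk'_apply, ← sum_add_distrib]
  exact sum_congr rfl fun i _ => by split_ifs <;> omega

lemma round (G : Finset (Fin n → ℤ)) (hv : ∀ a ∈ G, ∀ i, a i = 0 ∨ a i = 1 ∨ a i = -1)
    (hc : ∀ a ∈ G, ∀ b ∈ G, Cpt a b) : ∃ z : Fin n × Bool → (Fin n → ℤ) →+ ℤ,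
      (∀ x y, (∀ j, z j x = z j y) → x = y) ∧ ∀ w : Fin n → ℤ, ∃ d : Fin n → ℤ,
        (∀ i, -1 ≤ d i ∧ d i ≤ 1 ∧ (w i - d i) % 2 = 0) ∧ (∀ j, 0 ≤ z j d ∧ z j d ≤ 1) ∧
        ∀ a ∈ G, -1 ≤ ∑ i, a i * d i ∧ ∑ i, a i * d i ≤ 1 := by
  obtain ⟨σ, h1, h2⟩ := sign_choice G hv hc
  obtain ⟨κ, h3, h4⟩ := lam_order (G.image sup ∪ univ.image fun i => {i}) (by
    simp only [mem_union, mem_image, mem_univ, true_and]
    rintro S (⟨a, ha, rfl⟩ | ⟨i, rfl⟩) T (⟨b, hb, rfl⟩ | ⟨j, rfl⟩)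
    · simp only [subset_iff, disjoint_left, mem_sup]
      rcases hc a ha b hb with ⟨t, h6, h7 | h7⟩ | h6
      · exact Or.inl fun i hi => by have := h7 i hi; rcases h6 with rfl | rfl <;> omega
      · exact Or.inr (Or.inl fun i hi => by have := h7 i hi; rcases h6 with rfl | rfl <;> omega)
      · exact Or.inr (Or.inr fun i hi => by have := h6 i; omega)
    · by_cases h : j ∈ sup a <;> simp [h]
    · by_cases h : i ∈ sup b <;> simp [h]
    · by_cases h : i = j <;> simp [h])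
  have h5 : Function.Injective κ := fun i j h => (mem_singleton.1 (h3 {i} (by simp) i
    (mem_singleton_self _) i (mem_singleton_self _) j h.le h.ge)).symm
  have h6 : ∀ i x, psum κ σ (κ i + 1) x = psum κ σ (κ i) x + σ i * x i := fun i x => by
    simp [psum_succ, h5.eq_iff]
  refine ⟨fun j => psum κ σ (κ j.1 + j.2.toNat), fun x y h => funext fun i => ?_, fun w => ?_⟩
  · have h7 : psum κ σ (κ i + 1) x = psum κ σ (κ i + 1) y := h (i, true)
    have h8 : psum κ σ (κ i) x = psum κ σ (κ i) y := h (i, false)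
    rw [h6, h6] at h7
    rcases h1 i with h9 | h9 <;> rw [h9] at h7 <;> omega
  let d : Fin n → ℤ := fun i => σ i * (psum κ σ (κ i + 1) w % 2 - psum κ σ (κ i) w % 2)
  have h7 : ∀ t, psum κ σ t d = psum κ σ t w % 2 := fun t => by
    induction t with
    | zero => simp [psum]
    | succ t ih =>
      by_cases h : ∃ i, κ i = t
      · obtain ⟨i, rfl⟩ := h
        rw [h6, ih]
        simp only [d]
        rcases h1 i with h9 | h9 <;> rw [h9] <;> omega
      · push Not at h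
        simp [psum_succ, h, ih]
  refine ⟨d, fun i => ?_, fun j => by simp only [h7]; omega, fun a ha => ?_⟩
  · have h8 := h6 i w
    simp only [d]
    rcases h1 i with h9 | h9 <;> rw [h9] at h8 ⊢ <;> omega
  rcases (sup a).eq_empty_or_nonempty with h8 | h8
  · have h9 : ∀ i, a i = 0 := fun i => not_not.1 (mem_sup.not.1 (h8 ▸ notMem_empty i))
    simp [h9]
  obtain ⟨i0, h9, h10⟩ := exists_min_image _ κ h8
  obtain ⟨i1, h11, h12⟩ := exists_max_image _ κ h8
  obtain ⟨s, h13, h14⟩ := h2 a ha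
  have h15 : ∑ i, a i * d i = s * (psum κ σ (κ i1 + 1) d - psum κ σ (κ i0) d) := by
    simp only [psum, AddMonoidHom.mk'_apply, ← sum_sub_distrib, mul_sum]
    refine sum_congr rfl fun i _ => ?_
    by_cases h : i ∈ sup a
    · rw [if_pos (Nat.lt_succ_of_le (h12 i h)), if_neg (not_lt.2 (h10 i h)), h14 i (mem_sup.1 h)]
      ring
    · have h15 := mt (fun h' : _ ∧ _ => h3 _ (mem_union_left _ (mem_image_of_mem _ ha)) i0 h9 i1
        h11 i h'.1 h'.2) h
      have h16 := h10 i1 h11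
      rw [not_not.1 (mem_sup.not.1 h)]
      split_ifs <;> omega
  rw [h15, h7, h7]
  rcases h13 with rfl | rfl <;> omega

end Pool.Agent.Lib.MP_b664fd_ag
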