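import Pool.Agent.Lib.MP_b664fd_ag.Bar

/-! Gluing along a hyperplane: diagonal exactness of the bar complex passes from the two sides of a
cut to the whole. -/

open Finsupp

namespace Pool.Agent.Lib.MP_b664fd_ag

variable {K : Type} [Field K] {M : Type} [AddCommMonoid M]

/-- Nonempty words in the elements of positive degree whose first letter satisfies `p`. -/
def Wd (deg : M →+ ℤ) (Λ : AddSubmonoid M) (p : M → Prop) : Set (List M) :=
  {w | (∀ m ∈ w, m ∈ Λ ∧ 1 ≤ deg m) ∧ ∃ a r, w = a :: r ∧ p a}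

/-- Words whose degree is the length plus `e`. -/
def Dg (deg : M →+ ℤ) (e : ℤ) : Set (List M) := {w | deg w.sum = w.length + e}

/-- Diagonal exactness of the bar complex, for every face ideal. -/
def Good (K : Type) [Field K] (deg : M →+ ℤ) (A : Set M) : Prop :=
  ∀ g : M →+ ℤ, (∀ a ∈ A, 0 ≤ g a) →
    Ex (Wd deg (AddSubmonoid.closure A) fun m => 0 < g m) (Dg deg 0) (Dd (1 : M → M → K))

/-- Indicator of lying on the same side. -/
noncomputable def side (K : Type) [Field K] (h : M →+ ℤ) (a b : M) : K :=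
  if 0 ≤ h a * h b then 1 else 0

/-- The first letter off the hyperplane is on the positive side. -/
def fp (h : M →+ ℤ) : List M → Prop
  | [] => False
  | a :: w => 0 < h a ∨ h a = 0 ∧ fp h w

variable {deg h : M →+ ℤ} {Λ Λ' Λ'' : AddSubmonoid M} {p : M → Prop} {μ : M → M → K}

lemma sum_merge (l r : List M) (a b : M) : (l ++ (a + b) :: r).sum = (l ++ a :: b :: r).sum := by
  simp [add_assoc]

lemma Wd_closed (hp : ∀ a ∈ Λ, ∀ b ∈ Λ, p a → μ a b ≠ 0 → p (a + b)) :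
    ∀ w ∈ Wd deg Λ p, Dd μ (single w 1) ∈ Sp K (Wd deg Λ p) := by
  rintro w ⟨h1, c, t, h2, h3⟩
  refine Dd_mem μ fun l a b r h4 h5 => ?_
  have ha := h1 a (by simp [h4])
  have hb := h1 b (by simp [h4])
  refine ⟨fun m hm => ?_, ?_⟩
  · simp only [List.mem_append, List.mem_cons] at hm
    rcases hm with hm | rfl | hm
    · exact h1 m (by simp [h4, hm])
    · exact ⟨add_mem ha.1 hb.1, by rw [map_add]; omega⟩
    · exact h1 m (by simp [h4, hm])
  · cases l with
    | nil =>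
      obtain ⟨rfl, -⟩ := List.cons.inj (h2.symm.trans h4)
      exact ⟨_, _, rfl, hp _ ha.1 _ hb.1 h3 h5⟩
    | cons d l =>
      obtain ⟨rfl, -⟩ := List.cons.inj (h2.symm.trans h4)
      exact ⟨_, _, rfl, h3⟩

lemma Dg_sep (μ : M → M → K) (w : List M) :
    Dd μ (single w 1) ∈ Sp K {v | v ∈ Dg deg 1 ↔ w ∈ Dg deg 0} :=
  Dd_mem μ fun l a b r h1 _ => by
    simp only [Set.mem_ofPred_eq, Dg, sum_merge, h1, List.length_append, List.length_cons]
    omega

lemma length_le_deg : ∀ {w : List M}, (∀ m ∈ w, 1 ≤ deg m) → (w.length : ℤ) ≤ deg w.sum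
  | [], _ => by simp
  | a :: w, h => by
    have h1 := length_le_deg (w := w) fun m hm => h m (by simp [hm])
    have h2 := h a (by simp)
    simp only [List.length_cons, List.sum_cons, map_add]
    omega

lemma not_Dg (μ : M → M → K) {w : List M} (hw : ∀ m ∈ w, 1 ≤ deg m) :
    Dd μ (single w 1) ∈ Sp K (Dg deg 0)ᶜ :=
  Dd_mem μ fun l a b r h1 _ => by
    have := length_le_deg hw
    simp only [Set.mem_compl_iff, Set.mem_ofPred_eq, Dg, sum_merge, h1, List.length_append,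
      List.length_cons] at this ⊢
    omega

lemma Dd_sum (μ : M → M → K) (w : List M) :
    Dd μ (single w 1) ∈ Sp K {v | v.sum = w.sum ∧ v.length < w.length} :=
  Dd_mem μ fun l a b r h1 _ => ⟨by rw [sum_merge, h1], by simp [h1]⟩

lemma side_ne {a b : M} : side K h a b ≠ 0 ↔ 0 ≤ h a * h b := by simp [side]

lemma side_cocycle (a b c : M) :
    side K h a b * side K h (a + b) c = side K h b c * side K h a (b + c) := by
  have : (0 ≤ h a * h b ∧ 0 ≤ (h a + h b) * h c) ↔ (0 ≤ h b * h c ∧ 0 ≤ h a * (h b + h c)) := by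
    simp only [mul_nonneg_iff]
    omega
  simp only [side, map_add, ite_mul, one_mul, zero_mul, ← ite_and, this]

lemma side_neg : side K (-h) = side K h := by
  ext a b
  simp [side]

lemma fp_merge {a b : M} (hab : 0 ≤ h a * h b) (r : List M) :
    ∀ l : List M, fp h (l ++ (a + b) :: r) ↔ fp h (l ++ a :: b :: r)
  | [] => by
    simp only [List.nil_append, fp, map_add]
    rw [mul_nonneg_iff] at hab
    by_cases h1 : fp h r <;> simp only [h1, and_true, and_false, or_false] <;> omega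
  | c :: l => by simp only [List.cons_append, fp, fp_merge hab r l]

lemma fp_inv (w : List M) :
    Dd (side K h) (single w 1) ∈ Sp K {v | v ∈ {w | fp h w} ↔ w ∈ {w | fp h w}} :=
  Dd_mem _ fun l _ _ r h1 h2 => h1 ▸ fp_merge (side_ne.1 h2) r l

lemma nonneg_inv (w : List M) : Dd (side K h) (single w 1) ∈
    Sp K {v | v ∈ {w : List M | ∀ m ∈ w, 0 ≤ h m} ↔ w ∈ {w : List M | ∀ m ∈ w, 0 ≤ h m}} :=
  Dd_mem _ fun l a b r h1 h2 => by
    have := mul_nonneg_iff.1 (side_ne.1 h2)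
    have h3 : 0 ≤ h a + h b ↔ 0 ≤ h a ∧ 0 ≤ h b := by omega
    simp only [h1, Set.mem_ofPred_eq, List.forall_mem_append, List.forall_mem_cons, map_add, h3,
      and_assoc]

lemma fp_append {x : List M} (y : List M) (hx : fp h x) : fp h (x ++ y) := by
  induction x with
  | nil => exact hx.elim
  | cons a x ih => exact hx.imp_right fun h1 => ⟨h1.1, ih h1.2⟩

lemma exists_split : ∀ {w : List M}, fp h w → ¬(∀ m ∈ w, 0 ≤ h m) →
    ∃ x b r, w = x ++ b :: r ∧ (∀ m ∈ x, 0 ≤ h m) ∧ fp h x ∧ h b < 0 := by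
  have key : ∀ w : List M, ¬(∀ m ∈ w, 0 ≤ h m) →
      ∃ x b r, w = x ++ b :: r ∧ (∀ m ∈ x, 0 ≤ h m) ∧ (fp h w → fp h x) ∧ h b < 0 := by
    intro w
    induction w with
    | nil => simp
    | cons a w ih =>
      intro h1
      by_cases h2 : 0 ≤ h a
      · obtain ⟨x, b, r, rfl, h3, h4, h5⟩ := ih fun h3 => h1 (List.forall_mem_cons.2 ⟨h2, h3⟩)
        exact ⟨a :: x, b, r, rfl, List.forall_mem_cons.2 ⟨h2, h3⟩,
          fun h6 => h6.imp_right fun h7 => ⟨h7.1, h4 h7.2⟩, h5⟩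
      · exact ⟨[], a, w, rfl, by simp, fun h6 => by simp only [fp] at h6 ⊢; omega, by omega⟩
  intro w h1 h2
  obtain ⟨x, b, r, h3, h4, h5, h6⟩ := key w h2
  exact ⟨x, b, r, h3, h4, h5 h1, h6⟩

lemma fp_or : ∀ {w : List M}, ¬fp h w → ¬fp (-h) w → ∀ m ∈ w, 0 ≤ h m
  | [], _, _ => by simp
  | a :: w, h1, h2 => by
    simp only [fp, AddMonoidHom.neg_apply, not_or, not_and] at h1 h2
    exact List.forall_mem_cons.2 ⟨by omega, fp_or (h1.2 (by omega)) (h2.2 (by omega))⟩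

lemma not_fp_neg : ∀ {w : List M}, (∀ m ∈ w, 0 ≤ h m) → ¬fp (-h) w
  | [], _ => by simp [fp]
  | a :: w, h1 => by
    have h2 := List.forall_mem_cons.1 h1
    have h3 := not_fp_neg h2.2
    simp only [fp, AddMonoidHom.neg_apply, h3, and_false, or_false]
    omega

lemma split_append {x : List M} {b : M} (r : List M) (hx : ∀ m ∈ x, 0 ≤ h m) (hb : h b < 0) :
    (x ++ b :: r).takeWhile (fun m => 0 ≤ h m) = x ∧
      (x ++ b :: r).dropWhile (fun m => 0 ≤ h m) = b :: r := by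
  rw [List.takeWhile_append_of_pos (by simpa using hx),
    List.dropWhile_append_of_pos (by simpa using hx)]
  simp [hb]

omit [AddCommMonoid M] in
lemma map_append_out (u v : List M →₀ K) (x y : List M) :
    lmapDomain K K (fun q : List M × List M => q.1 ++ q.2) (out u (single y 1)) =
      lmapDomain K K (· ++ y) u ∧
    lmapDomain K K (fun q : List M × List M => q.1 ++ q.2) (out (sg (single x 1)) v) =
      (-1 : K) ^ x.length • lmapDomain K K (x ++ ·) v := by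
  constructor
  · rw [out_single_right]
    simp only [lmapDomain_apply, ← mapDomain_comp]
    rfl
  · rw [sg_single, out, ← TensorProduct.smul_tmul', map_smul, map_smul, ← out, out_single_left]
    simp only [lmapDomain_apply, ← mapDomain_comp]
    rfl

lemma side_one (hΛ : ∀ m, m ∈ Λ' ↔ m ∈ Λ ∧ 0 ≤ h m)
    (h1 : Ex (Wd deg Λ' p) (Dg deg 0) (Dd (1 : M → M → K))) :
    Ex (Wd deg Λ p ∩ {w | ∀ m ∈ w, 0 ≤ h m}) (Dg deg 0) (Dd (side K h)) := by
  have e : Wd deg Λ' p = Wd deg Λ p ∩ {w | ∀ m ∈ w, 0 ≤ h m} := by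
    ext w
    exact ⟨fun hw => ⟨⟨fun m hm => ⟨((hΛ m).1 (hw.1 m hm).1).1, (hw.1 m hm).2⟩, hw.2⟩,
      fun m hm => ((hΛ m).1 (hw.1 m hm).1).2⟩,
      fun hw => ⟨fun m hm => ⟨(hΛ m).2 ⟨(hw.1.1 m hm).1, hw.2 m hm⟩, (hw.1.1 m hm).2⟩, hw.1.2⟩⟩
  rw [e] at h1
  exact h1.congr fun w hw => Dd_congr _ _ fun a ha b hb => by
    simp [side, mul_nonneg (hw.2 a ha) (hw.2 b hb)]

lemma cut_step (hp : ∀ a ∈ Λ, ∀ b ∈ Λ, p a → side K h a b ≠ 0 → p (a + b)) (k : ℕ)
    (h1 : Ex (Wd deg Λ p ∩ {w | ∀ m ∈ w, 0 ≤ h m}) (Dg deg 0) (Dd (side K h)))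
    (h2 : Ex (Wd deg Λ (fun m => h m < 0) ∩ {w | deg w.sum < k}) (Dg deg 0) (Dd (side K h))) :
    Ex (Wd deg Λ p ∩ {w | deg w.sum < k + 1} ∩ {w | fp h w}) (Dg deg 0) (Dd (side K h)) := by
  have hdeg : ∀ (j : ℤ) (w : List M), Dd (side K h) (single w 1) ∈
      Sp K {v | v ∈ {w : List M | deg w.sum < j} ↔ w ∈ {w : List M | deg w.sum < j}} :=
    fun j w => sp_to (Dd_sum _ w) fun v hv => by simp only [Set.mem_ofPred_eq, hv.1]
  have hcl : ∀ {X S : Set (List M)}, (∀ w ∈ X, Dd (side K h) (single w 1) ∈ Sp K X) →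
      (∀ w, Dd (side K h) (single w 1) ∈ Sp K {v | v ∈ S ↔ w ∈ S}) →
      ∀ w ∈ X ∩ S, Dd (side K h) (single w 1) ∈ Sp K (X ∩ S) := fun g1 g2 w hw =>
    sp_inter (g1 w hw.1) (sp_to (g2 w) fun v hv => hv.2 hw.2)
  refine Ex.split {w | ∀ m ∈ w, 0 ≤ h m} (fun w _ => nonneg_inv w) ?_ ?_
  · convert (h1.inter _ fun w _ => hdeg (k + 1) w).inter _ fun w _ => fp_inv w using 1
    ext w
    simp only [Set.mem_inter_iff]
    tauto
  set X := Wd deg Λ p ∩ {w | ∀ m ∈ w, 0 ≤ h m} ∩ {w | fp h w} with hXd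
  set Y := Wd deg Λ (fun m => h m < 0) ∩ {w | deg w.sum < k} with hYd
  have hX : ∀ w ∈ X, Dd (side K h) (single w 1) ∈ Sp K X :=
    hcl (hcl (Wd_closed hp) nonneg_inv) fp_inv
  have hY : ∀ w ∈ Y, Dd (side K h) (single w 1) ∈ Sp K Y :=
    hcl (Wd_closed fun a _ b _ g1 g2 => by
      have := mul_nonneg_iff.1 (side_ne.1 g2)
      rw [map_add]
      omega) (hdeg k)
  have hbb : Dd (side K h) ∘ₗ Dd (side K h) = 0 := LinearMap.ext (Dd_Dd _ side_cocycle)
  have m1 : ∀ q : List M × List M, tdiff (Dd (side K h)) sg (Dd (side K h)) (single q 1) =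
      out (Dd (side K h) (single q.1 1)) (single q.2 1) +
        out (sg (single q.1 1)) (Dd (side K h) (single q.2 1)) := fun q => by
    rw [tdiff_apply, tens_single, tens_single, LinearMap.id_apply]
  have hsg : ∀ w : List M, sg (single w (1 : K)) ∈ Sp K {w} := fun w => by
    rw [sg_single]
    exact Submodule.smul_mem _ _ (sp_single (Set.mem_singleton w) 1)
  have m2 : ∀ q ∈ X ×ˢ Y, tdiff (Dd (side K h)) sg (Dd (side K h)) (single q 1) ∈
      Sp K (X ×ˢ Y ∩ {v | v.1.sum = q.1.sum ∧ v.2.sum = q.2.sum}) := fun q hq => by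
    rw [m1]
    exact add_mem (sp_to (out_mem (sp_inter (hX _ hq.1) (Dd_sum _ _))
      (sp_single (Set.mem_singleton q.2) 1)) fun v hv =>
        ⟨⟨hv.1.1, hv.2 ▸ hq.2⟩, hv.1.2.1, congrArg List.sum hv.2⟩)
      (sp_to (out_mem (hsg _) (sp_inter (hY _ hq.2) (Dd_sum _ _))) fun v hv =>
        ⟨⟨hv.1 ▸ hq.1, hv.2.1⟩, congrArg List.sum hv.1, hv.2.2.1⟩)
  have e1 := ((h1.inter _ fun w _ => fp_inv w).prod List.length h2
    (fun w hw => sp_inter (hX w hw) (not_Dg _ fun m hm => (hw.1.1.1 m hm).2))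
    (fun w hw => sp_inter (hY w hw) (sp_to (Dd_sum _ w) fun v hv => hv.2))
    hsg hbb hbb sg_sg (Dd_sg _)).inter {q | deg q.1.sum + deg q.2.sum < k + 1}
    fun q hq => sp_to (m2 q hq) fun v hv => by simp only [Set.mem_ofPred_eq, hv.2.1, hv.2.2]
  have hsp : ∀ q ∈ X ×ˢ Y, (q.1 ++ q.2).takeWhile (fun m => 0 ≤ h m) = q.1 ∧
      (q.1 ++ q.2).dropWhile (fun m => 0 ≤ h m) = q.2 := by
    rintro ⟨x, y⟩ ⟨g1, ⟨-, b, r, rfl, g2⟩, -⟩
    exact split_append r g1.1.2 g2
  let b₀ : (List M →₀ K) →ₗ[K] (List M →₀ K) := linearCombination K fun w =>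
    lmapDomain K K (fun q : List M × List M => q.1 ++ q.2) (tdiff (Dd (side K h)) sg (Dd (side K h))
      (single (w.takeWhile (fun m => 0 ≤ h m), w.dropWhile (fun m => 0 ≤ h m)) 1))
  have hb₀ : ∀ q ∈ X ×ˢ Y, b₀ (single (q.1 ++ q.2) 1) = lmapDomain K K
      (fun q : List M × List M => q.1 ++ q.2)
      (tdiff (Dd (side K h)) sg (Dd (side K h)) (single q 1)) := fun q hq => by
    simp only [b₀, linearCombination_single, one_smul, (hsp q hq).1, (hsp q hq).2]
  have e2 := e1.map (D' := Dg deg 0) (b' := b₀) (fun q => q.1 ++ q.2)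
    (fun q hq q' hq' g => Prod.ext (by rw [← (hsp q hq.1).1, ← (hsp q' hq'.1).1]; exact congrArg _ g)
      (by rw [← (hsp q hq.1).2, ← (hsp q' hq'.1).2]; exact congrArg _ g))
    (fun q hq => sp_to (m2 q hq.1) fun v hv => ⟨hv.1, by
      have := hq.2
      simp only [Set.mem_ofPred_eq, hv.2.1, hv.2.2] at this ⊢
      exact this⟩)
    (fun q hq => hb₀ q hq.1) (fun q _ hq => by
      have g1 := hq.1
      have g2 := hq.2
      simp only [Dg, Set.mem_ofPred_eq, List.sum_append, map_add, List.length_append] at g1 g2 ⊢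
      omega)
  have e3 : (fun q : List M × List M => q.1 ++ q.2) ''
      (X ×ˢ Y ∩ {q | deg q.1.sum + deg q.2.sum < k + 1}) =
      Wd deg Λ p ∩ {w | deg w.sum < k + 1} ∩ {w | fp h w} ∩ {w | ∀ m ∈ w, 0 ≤ h m}ᶜ := by
    ext w
    constructor
    · rintro ⟨⟨x, y⟩, ⟨⟨⟨⟨⟨g1, a, t, rfl, g2⟩, -⟩, g3⟩, ⟨g4, b, r, rfl, g5⟩, -⟩, g6⟩, rfl⟩
      refine ⟨⟨⟨⟨List.forall_mem_append.2 ⟨g1, g4⟩, a, _, rfl, g2⟩, ?_⟩, fp_append _ g3⟩,
        fun g7 => absurd (g7 b (by simp)) (not_le.2 g5)⟩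
      simpa only [Set.mem_ofPred_eq, List.sum_append, map_add] using g6
    · rintro ⟨⟨⟨⟨g1, a, t, g2, g3⟩, g4⟩, g5⟩, g6⟩
      obtain ⟨x, b, r, rfl, g7, g8, g9⟩ := exists_split g5 g6
      obtain ⟨g10, g11⟩ := List.forall_mem_append.1 g1
      simp only [Set.mem_ofPred_eq, List.sum_append, map_add] at g4
      cases x with
      | nil => exact g8.elim
      | cons c x =>
        have := length_le_deg fun m hm => (g10 m hm).2
        obtain ⟨rfl, -⟩ := List.cons.inj g2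
        refine ⟨(c :: x, b :: r), ⟨⟨⟨⟨⟨g10, c, x, rfl, g3⟩, g7⟩, g8⟩, ⟨g11, b, r, rfl, g9⟩, ?_⟩,
          g4⟩, rfl⟩
        simp only [Set.mem_ofPred_eq, List.length_cons] at this ⊢
        omega
  refine Ex.filt (D₁ := Dg deg 1) (b₀ := b₀)
    (fun w => (deg (w.takeWhile fun m => 0 ≤ h m).sum).toNat)
    (hcl (hcl (hcl (Wd_closed hp) (hdeg _)) fp_inv) fun w =>
      sp_to (nonneg_inv w) fun v hv => not_congr hv)
    (Dd_Dd _ side_cocycle) ?_ ?_ (fun w _ => Dg_sep _ w) (e3 ▸ e2)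
  · rw [← e3]
    rintro _ ⟨q, hq, rfl⟩
    rw [hb₀ q hq.1]
    refine sp_to (sp_map _ (m2 q hq.1)) ?_
    rintro _ ⟨v, hv, rfl⟩
    simp only [Set.mem_ofPred_eq, (hsp q hq.1).1, (hsp v hv.1).1, hv.2.1]
  · rw [← e3]
    rintro _ ⟨⟨x, y⟩, hq, rfl⟩
    rw [LinearMap.sub_apply, hb₀ _ hq.1, m1, map_add, (map_append_out _ 0 x _).1,
      (map_append_out 0 _ _ x).2]
    obtain ⟨⟨⟨⟨g1, g2⟩, g3⟩, -⟩, ⟨-, b, r, rfl, g5⟩, -⟩ := hq.1
    obtain ⟨l, a, rfl⟩ : ∃ l a, x = l ++ [a] := by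
      obtain ⟨c, t, rfl, -⟩ := g2
      exact ⟨_, _, (List.dropLast_append_getLast (List.cons_ne_nil c t)).symm⟩
    have g6 := (split_append r g3 g5).1
    simp only [List.append_assoc, List.singleton_append] at g6
    simp only [Dd_single, List.append_assoc, List.singleton_append, bd_append, List.length_append,
      List.length_singleton, add_sub_cancel_left, g6]
    by_cases g7 : side K h a b = 0
    · simp [g7]
    refine Submodule.smul_mem _ _ (sp_single ?_ 1)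
    have g8 := mul_nonneg_iff.1 (side_ne.1 g7)
    have g9 := g3 a (by simp)
    have g10 := (g1 a (by simp)).2
    have g11 := length_le_deg (deg := deg) (w := l) fun m hm => (g1 m (by simp [hm])).2
    rw [Set.mem_ofPred_eq, (split_append (b := a + b) r (fun m hm => g3 m (by simp [hm]))
      (by rw [map_add]; omega)).1]
    simp only [List.sum_append, map_add, List.sum_singleton]
    omega

lemma head_side (h1 : Ex (Wd deg Λ (fun m => 0 < h m) ∩ {w | ∀ m ∈ w, 0 ≤ h m}) (Dg deg 0)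
      (Dd (side K h)))
    (h2 : Ex (Wd deg Λ (fun m => 0 < (-h) m) ∩ {w | ∀ m ∈ w, 0 ≤ (-h) m}) (Dg deg 0)
      (Dd (side K (-h)))) (k : ℕ) :
    Ex (Wd deg Λ (fun m => h m < 0) ∩ {w | deg w.sum < k}) (Dg deg 0) (Dd (side K h)) ∧
    Ex (Wd deg Λ (fun m => (-h) m < 0) ∩ {w | deg w.sum < k}) (Dg deg 0) (Dd (side K (-h))) := by
  have step : ∀ {h : M →+ ℤ} (k : ℕ), Ex (Wd deg Λ (fun m => 0 < h m) ∩ {w | ∀ m ∈ w, 0 ≤ h m})
      (Dg deg 0) (Dd (side K h)) →
      Ex (Wd deg Λ (fun m => h m < 0) ∩ {w | deg w.sum < k}) (Dg deg 0) (Dd (side K h)) →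
      Ex (Wd deg Λ (fun m => (-h) m < 0) ∩ {w | deg w.sum < (k + 1 : ℕ)}) (Dg deg 0)
        (Dd (side K (-h))) := fun {h} k g1 g2 => by
    have := cut_step (fun a _ b _ g3 g4 => by
      have := mul_nonneg_iff.1 (side_ne.1 g4)
      rw [map_add]
      omega) k g1 g2
    rw [side_neg]
    convert this using 1
    ext w
    simp only [Set.mem_inter_iff, Nat.cast_succ, AddMonoidHom.neg_apply, neg_lt_zero]
    refine ⟨fun hw => ⟨hw, ?_⟩, fun hw => hw.1⟩
    obtain ⟨⟨-, a, r, rfl, g3⟩, -⟩ := hw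
    exact Or.inl g3
  induction k with
  | zero =>
    have : ∀ p, Wd deg Λ p ∩ {w | deg w.sum < (0 : ℕ)} ⊆ Dg deg 0 := fun p w hw => by
      have g1 := length_le_deg fun m hm => (hw.1.1 m hm).2
      have g2 := hw.2
      simp only [Set.mem_ofPred_eq] at g2
      omega
    exact ⟨Ex.of_subset (this _), Ex.of_subset (this _)⟩
  | succ k ih => exact ⟨by simpa only [neg_neg] using step k h2 ih.2, step k h1 ih.1⟩

lemma nonneg_closure {A : Set M} {g : M →+ ℤ} (hg : ∀ a ∈ A, 0 ≤ g a) {b : M}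
    (hb : b ∈ AddSubmonoid.closure A) : 0 ≤ g b := by
  induction hb using AddSubmonoid.closure_induction with
  | mem x hx => exact hg x hx
  | zero => simp
  | add x y _ _ h4 h5 => rw [map_add]; omega

theorem Good.cut {A : Set M} (h : M →+ ℤ)
    (h1 : ∀ m, m ∈ AddSubmonoid.closure (A ∩ {a | 0 ≤ h a}) ↔
      m ∈ AddSubmonoid.closure A ∧ 0 ≤ h m)
    (h2 : ∀ m, m ∈ AddSubmonoid.closure (A ∩ {a | 0 ≤ (-h) a}) ↔
      m ∈ AddSubmonoid.closure A ∧ 0 ≤ (-h) m)
    (g1 : Good K deg (A ∩ {a | 0 ≤ h a})) (g2 : Good K deg (A ∩ {a | 0 ≤ (-h) a})) :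
    Good K deg A := by
  intro g hg
  have hp : ∀ μ : M → M → K, ∀ a ∈ AddSubmonoid.closure A, ∀ b ∈ AddSubmonoid.closure A,
      0 < g a → μ a b ≠ 0 → 0 < g (a + b) := fun μ a _ b hb h3 _ => by
    have := nonneg_closure hg hb
    rw [map_add]
    omega
  have e1 := side_one h1 (g1 g fun a ha => hg a ha.1)
  have e2 := side_one h2 (g2 g fun a ha => hg a ha.1)
  have e3 := head_side (side_one h1 (g1 h fun a ha => ha.2)) (side_one h2 (g2 (-h) fun a ha => ha.2))
  have e4 : Ex (Wd deg (AddSubmonoid.closure A) fun m => 0 < g m) (Dg deg 0) (Dd (side K h)) := by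
    refine Ex.split {w | fp h w} (fun w _ => fp_inv w) (Ex.of_bdd (fun w => deg w.sum - 1) fun k => ?_)
      (Ex.split {w | fp (-h) w} (fun w _ => side_neg (K := K) (h := h) ▸ fp_inv w)
        (Ex.of_bdd (fun w => deg w.sum - 1) fun k => ?_) ?_)
    · convert cut_step (hp _) k e1 (e3 k).1 using 1
      ext w
      simp only [Set.mem_inter_iff, Set.mem_ofPred_eq, sub_lt_iff_lt_add]
      tauto
    · convert cut_step (hp _) k e2 (e3 k).2 using 1
      · ext w
        simp only [Set.mem_inter_iff, Set.mem_ofPred_eq, sub_lt_iff_lt_add, Set.mem_compl_iff]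
        refine ⟨by tauto, fun hw => ⟨⟨⟨hw.1.1, fun h3 => ?_⟩, hw.2⟩, hw.1.2⟩⟩
        have h4 := hw.2
        clear hw
        induction w with
        | nil => exact h3
        | cons a w ih =>
          simp only [fp, AddMonoidHom.neg_apply] at h3 h4
          exact ih (h3.resolve_left (by omega)).2 (h4.resolve_left (by omega)).2
      · rw [side_neg]
    · convert e1.inter {w | fp h w}ᶜ fun w _ => sp_to (fp_inv w) fun v hv => not_congr hv using 1
      ext w
      exact ⟨fun hw => ⟨⟨hw.1.1, fp_or hw.1.2 hw.2⟩, hw.1.2⟩,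
        fun hw => ⟨⟨hw.1.1, hw.2⟩, not_fp_neg hw.1.2⟩⟩
  have e5 : ∀ (l r : List M) (a b : M), ((l ++ (a + b) :: r).map fun m => (h m).natAbs).sum +
      (h a).natAbs + (h b).natAbs =
      ((l ++ a :: b :: r).map fun m => (h m).natAbs).sum + (h a + h b).natAbs := fun l r a b => by
    simp only [List.map_append, List.map_cons, List.sum_append, List.sum_cons, map_add]
    omega
  refine Ex.filt (D₁ := Dg deg 1) (fun w => (w.map fun m => (h m).natAbs).sum) (Wd_closed (hp _))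
    (Dd_Dd _ fun _ _ _ => rfl) (fun w _ => Dd_mem _ fun l a b r h3 h4 => ?_) (fun w _ => ?_)
    (fun w _ => Dg_sep _ w) e4
  · have h5 := mul_nonneg_iff.1 (side_ne.1 h4)
    have h6 := e5 l r a b
    simp only [Set.mem_ofPred_eq, h3]
    omega
  · rw [Dd_sub_single]
    refine Dd_mem _ fun l a b r h3 h4 => ?_
    have h5 : ¬0 ≤ h a * h b := fun h5 => h4 (by simp [side, h5])
    rw [mul_nonneg_iff] at h5
    have h6 := e5 l r a b
    simp only [Set.mem_ofPred_eq, h3]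
    omega

end Pool.Agent.Lib.MP_b664fd_ag
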