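import Mathlib

/-! Based complexes: exactness away from a set of critical cells, and its behaviour under
filtrations, invariant pieces and injective relabelling. -/

open Finsupp

namespace Pool.Agent.Lib.MP_b664fd_ag

variable {K : Type} [Field K] {ι κ : Type}

/-- Chains supported on a set. -/
abbrev Sp (K : Type) [Field K] {ι : Type} (X : Set ι) : Submodule K (ι →₀ K) := supported K K X

/-- Every cycle on `X` is a boundary from `X` up to a chain on `D`. -/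
def Ex (X D : Set ι) (b : (ι →₀ K) →ₗ[K] (ι →₀ K)) : Prop :=
  ∀ z ∈ Sp K X, b z = 0 → ∃ y ∈ Sp K X, z - b y ∈ Sp K D

lemma sp_iff {X : Set ι} {z : ι →₀ K} : z ∈ Sp K X ↔ ∀ w, z w ≠ 0 → w ∈ X := by
  simp only [mem_supported, Set.subset_def, Finset.mem_coe, mem_support_iff]

lemma sp_mono {X Y : Set ι} (h : X ⊆ Y) {z : ι →₀ K} (hz : z ∈ Sp K X) : z ∈ Sp K Y :=
  supported_mono h hz

lemma sp_to {X Y : Set ι} {z : ι →₀ K} (hz : z ∈ Sp K X) (h : ∀ v ∈ X, v ∈ Y) : z ∈ Sp K Y :=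
  supported_mono h hz

lemma sp_inter {X Y : Set ι} {z : ι →₀ K} (h1 : z ∈ Sp K X) (h2 : z ∈ Sp K Y) :
    z ∈ Sp K (X ∩ Y) := sp_iff.2 fun w hw => ⟨sp_iff.1 h1 w hw, sp_iff.1 h2 w hw⟩

lemma sp_eq_zero {X Y : Set ι} {z : ι →₀ K} (h1 : z ∈ Sp K X) (h2 : z ∈ Sp K Y)
    (h : ∀ w ∈ X, w ∉ Y) : z = 0 := by
  ext w
  by_contra hw
  exact h w (sp_iff.1 h1 w hw) (sp_iff.1 h2 w hw)

lemma sp_single {X : Set ι} {w : ι} (h : w ∈ X) (c : K) : single w c ∈ Sp K X :=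
  single_mem_supported K c h

lemma map_mem_of_single {V : Type*} [AddCommGroup V] [Module K V] {X : Set ι}
    (f : (ι →₀ K) →ₗ[K] V) (N : Submodule K V) (h : ∀ w ∈ X, f (single w 1) ∈ N) {z : ι →₀ K}
    (hz : z ∈ Sp K X) : f z ∈ N := by
  have h1 : Sp K X ≤ N.comap f := by
    rw [Sp, supported_eq_span_single, Submodule.span_le]
    rintro _ ⟨w, hw, rfl⟩
    exact h w hw
  exact h1 hz

lemma map_eq_of_single {V : Type*} [AddCommGroup V] [Module K V] {X : Set ι}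
    (f g : (ι →₀ K) →ₗ[K] V) (h : ∀ w ∈ X, f (single w 1) = g (single w 1)) {z : ι →₀ K}
    (hz : z ∈ Sp K X) : f z = g z := by
  have := map_mem_of_single (f - g) ⊥ (X := X) (fun w hw => by simp [h w hw]) hz
  simpa [sub_eq_zero] using this

open Classical in
/-- Projection to the part of a chain on `S`. -/
noncomputable def pr (S : Set ι) : (ι →₀ K) →ₗ[K] (ι →₀ K) where
  toFun z := z.filter (· ∈ S)
  map_add' _ _ := filter_add
  map_smul' _ _ := filter_smul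

lemma pr_apply_pos {S : Set ι} (z : ι →₀ K) {w : ι} (h : w ∈ S) : pr S z w = z w := by
  classical
  exact filter_apply_pos _ z h

lemma pr_apply_neg {S : Set ι} (z : ι →₀ K) {w : ι} (h : w ∉ S) : pr S z w = 0 := by
  classical
  exact filter_apply_neg _ z h

lemma pr_mem (S : Set ι) {X : Set ι} {z : ι →₀ K} (hz : z ∈ Sp K X) : pr S z ∈ Sp K (X ∩ S) :=
  sp_iff.2 fun w hw => by
    by_cases h : w ∈ S
    · rw [pr_apply_pos z h] at hw
      exact ⟨sp_iff.1 hz w hw, h⟩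
    · exact absurd (pr_apply_neg z h) hw

lemma pr_mem' (S : Set ι) {X : Set ι} {z : ι →₀ K} (hz : z ∈ Sp K X) : pr S z ∈ Sp K X :=
  sp_mono Set.inter_subset_left (pr_mem S hz)

lemma pr_add_compl (S : Set ι) (z : ι →₀ K) : pr S z + pr Sᶜ z = z := by
  ext w
  by_cases h : w ∈ S
  · simp [pr_apply_pos z h, pr_apply_neg (S := Sᶜ) z (fun h1 => h1 h)]
  · simp [pr_apply_neg z h, pr_apply_pos (S := Sᶜ) z h]

lemma pr_eq_self {S : Set ι} {z : ι →₀ K} (hz : z ∈ Sp K S) : pr S z = z := by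
  ext w
  by_cases h : w ∈ S
  · exact pr_apply_pos z h
  · rw [pr_apply_neg z h]
    by_contra h1
    exact h (sp_iff.1 hz w (Ne.symm h1))

lemma pr_eq_zero {S : Set ι} {z : ι →₀ K} (hz : z ∈ Sp K Sᶜ) : pr S z = 0 :=
  sp_eq_zero (pr_mem S hz) (pr_mem S hz) fun _ h _ => h.1 h.2

lemma pr_comm {X S : Set ι} {S' : Set κ} (b : (ι →₀ K) →ₗ[K] (κ →₀ K))
    (h : ∀ w ∈ X, b (single w 1) ∈ Sp K {v | v ∈ S' ↔ w ∈ S}) {z : ι →₀ K} (hz : z ∈ Sp K X) :
    pr S' (b z) = b (pr S z) := by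
  have h1 : b (pr S z) ∈ Sp K S' := map_mem_of_single b _
    (fun w hw => sp_mono (fun v hv => hv.2 hw.2) (h w hw.1)) (pr_mem S hz)
  have h2 : b (pr Sᶜ z) ∈ Sp K S'ᶜ := map_mem_of_single b _
    (fun w hw => sp_mono (fun v hv h3 => hw.2 (hv.1 h3)) (h w hw.1)) (pr_mem Sᶜ hz)
  conv_lhs => rw [← pr_add_compl S z, map_add, map_add, pr_eq_self h1, pr_eq_zero h2, add_zero]

theorem filt_core {X D G : Set ι} {b b₀ : (ι →₀ K) →ₗ[K] (ι →₀ K)} (φ : ι → ℕ)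
    (hX : ∀ w ∈ X, b (single w 1) ∈ Sp K X) (hbb : ∀ z, b (b z) = 0)
    (h0 : ∀ w ∈ X, b₀ (single w 1) ∈ Sp K {v | φ v = φ w})
    (h1 : ∀ w ∈ X, (b - b₀) (single w 1) ∈ Sp K {v | φ v < φ w})
    (h2 : ∀ w ∈ X ∩ D, (b - b₀) (single w 1) ∈ Sp K G)
    (h3 : ∀ u ∈ Sp K X, b₀ u ∈ Sp K G → ∃ x ∈ Sp K X, u - b₀ x ∈ Sp K D) :
    ∀ y ∈ Sp K X, b y ∈ Sp K G → ∃ x ∈ Sp K X, y - b x ∈ Sp K D := by
  have key : ∀ t : ℕ, ∀ y ∈ Sp K X, y ∈ Sp K (D ∪ {v | φ v < t}) → b y ∈ Sp K G →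
      ∃ x ∈ Sp K X, y - b x ∈ Sp K D := by
    intro t
    induction t with
    | zero => exact fun y _ h _ => ⟨0, zero_mem _, by simpa using h⟩
    | succ t ih =>
      intro y hy hy' hG
      have hc : ∀ u ∈ Sp K X, pr {v | φ v = t} (b₀ u) = b₀ (pr {v | φ v = t} u) := fun u hu =>
        pr_comm b₀ (fun w hw => sp_mono (fun v hv => by
          simp only [Set.mem_ofPred_eq] at hv ⊢; rw [hv]) (h0 w hw)) hu
      have e1 : (b - b₀) (pr {v | φ v ≤ t} y) ∈ Sp K {v | φ v = t}ᶜ := map_mem_of_single _ _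
        (fun w hw => sp_mono (fun v hv => ne_of_lt (lt_of_lt_of_le hv hw.2)) (h1 w hw.1))
        (pr_mem _ hy)
      have e2 : (b - b₀) (pr {v | φ v ≤ t}ᶜ y) ∈ Sp K G := map_mem_of_single _ _ h2
        (sp_to (pr_mem _ (sp_inter hy hy'))
          fun v hv => ⟨hv.1.1, hv.1.2.resolve_right fun h => hv.2 (Nat.lt_succ_iff.1 h)⟩)
      have e3 : b₀ (pr {v | φ v = t} y) ∈ Sp K G := by
        have e4 : b₀ y = b y - ((b - b₀) (pr {v | φ v ≤ t} y) + (b - b₀) (pr {v | φ v ≤ t}ᶜ y)) := by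
          rw [← map_add, pr_add_compl]; simp
        rw [← hc y hy, e4, map_sub, map_add, pr_eq_zero e1, zero_add]
        exact sub_mem (pr_mem' _ hG) (pr_mem' _ e2)
      obtain ⟨x, hx, hx'⟩ := h3 _ (pr_mem' _ hy) e3
      have e5 : pr {v | φ v = t} y - b₀ (pr {v | φ v = t} x) ∈ Sp K D := by
        have := pr_mem' {v | φ v = t} hx'
        rwa [map_sub, hc x hx, pr_eq_self (sp_mono Set.inter_subset_right (pr_mem _ hy))] at this
      have e6 : (b - b₀) (pr {v | φ v = t} x) ∈ Sp K {v | φ v < t} := map_mem_of_single _ _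
        (fun w hw => sp_mono (fun v hv => lt_of_lt_of_eq hv hw.2) (h1 w hw.1)) (pr_mem _ hx)
      have e7 : pr {v | φ v = t}ᶜ y ∈ Sp K (D ∪ {v | φ v < t}) :=
        sp_mono (fun v hv => hv.1.imp_right fun h => lt_of_le_of_ne (Nat.lt_succ_iff.1 h) hv.2)
          (pr_mem _ hy')
      obtain ⟨x', g1, g2⟩ := ih (y - b (pr {v | φ v = t} x))
        (sub_mem hy (map_mem_of_single b _ hX (pr_mem' _ hx))) (by
          have e8 : y - b (pr {v | φ v = t} x) = pr {v | φ v = t}ᶜ y +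
              (pr {v | φ v = t} y - b₀ (pr {v | φ v = t} x)) - (b - b₀) (pr {v | φ v = t} x) := by
            conv_lhs => rw [← pr_add_compl {v | φ v = t} y]
            simp only [LinearMap.sub_apply]
            abel
          rw [e8]
          exact sub_mem (add_mem e7 (sp_mono Set.subset_union_left e5))
            (sp_mono Set.subset_union_right e6)) (by rwa [map_sub, hbb, sub_zero])
      exact ⟨pr {v | φ v = t} x + x', add_mem (pr_mem' _ hx) g1, by rwa [map_add, ← sub_sub]⟩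
  intro y hy
  exact key (y.support.sup φ + 1) y hy (sp_iff.2 fun w hw => Or.inr
    (Nat.lt_succ_of_le (Finset.le_sup (f := φ) (mem_support_iff.2 hw))))

theorem Ex.filt {X D D₁ : Set ι} {b b₀ : (ι →₀ K) →ₗ[K] (ι →₀ K)} (φ : ι → ℕ)
    (hX : ∀ w ∈ X, b (single w 1) ∈ Sp K X) (hbb : ∀ z, b (b z) = 0)
    (h0 : ∀ w ∈ X, b₀ (single w 1) ∈ Sp K {v | φ v = φ w})
    (h1 : ∀ w ∈ X, (b - b₀) (single w 1) ∈ Sp K {v | φ v < φ w})
    (hD : ∀ w ∈ X, b (single w 1) ∈ Sp K {v | v ∈ D₁ ↔ w ∈ D}) (h : Ex X D b₀) : Ex X D b := by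
  have hD0 : ∀ w ∈ X, b₀ (single w 1) ∈ Sp K {v | v ∈ D₁ ↔ w ∈ D} := fun w hw => by
    have e1 : b₀ (single w 1) = pr {v | φ v = φ w} (b (single w 1)) := by
      have e2 : b (single w 1) = b₀ (single w 1) + (b - b₀) (single w 1) := by simp
      rw [e2, map_add, pr_eq_self (h0 w hw), pr_eq_zero (S := {v | φ v = φ w})
        (sp_to (h1 w hw) fun v hv => ne_of_lt hv), add_zero]
    rw [e1]
    exact pr_mem' _ (hD w hw)
  intro z hz hz'
  refine filt_core (G := D₁) φ hX hbb h0 h1 (fun w hw => ?_) (fun u hu hu' => ?_) z hz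
    (hz' ▸ zero_mem _)
  · exact sp_mono (fun v hv => hv.2 hw.2) (sub_mem (hD w hw.1) (hD0 w hw.1))
  · have e1 : b₀ (pr Dᶜ u) = 0 := by
      rw [← pr_comm (S' := D₁ᶜ) b₀ (S := Dᶜ)
        (fun w hw => sp_to (hD0 w hw) fun v hv => not_congr hv) hu]
      exact pr_eq_zero (by rwa [compl_compl])
    obtain ⟨x, hx, hx'⟩ := h _ (pr_mem' _ hu) e1
    refine ⟨x, hx, ?_⟩
    have e2 : u - b₀ x = pr D u + (pr Dᶜ u - b₀ x) := by rw [← add_sub_assoc, pr_add_compl]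
    rw [e2]
    exact add_mem (sp_mono Set.inter_subset_right (pr_mem D hu)) hx'

lemma Ex.mono {X D D' : Set ι} {b : (ι →₀ K) →ₗ[K] (ι →₀ K)} (h : Ex X D b) (hD : D ⊆ D') :
    Ex X D' b := fun z hz hz' =>
  let ⟨y, h1, h2⟩ := h z hz hz'
  ⟨y, h1, sp_mono hD h2⟩

lemma Ex.congr {X D : Set ι} {b b' : (ι →₀ K) →ₗ[K] (ι →₀ K)} (h : Ex X D b)
    (hb : ∀ w ∈ X, b (single w 1) = b' (single w 1)) : Ex X D b' := fun z hz hz' => by
  obtain ⟨y, h1, h2⟩ := h z hz (by rw [map_eq_of_single b b' hb hz, hz'])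
  exact ⟨y, h1, by rwa [← map_eq_of_single b b' hb h1]⟩

lemma Ex.neg {X D : Set ι} {b : (ι →₀ K) →ₗ[K] (ι →₀ K)} (h : Ex X D b) : Ex X D (-b) :=
  fun z hz hz' => by
    obtain ⟨y, h1, h2⟩ := h z hz (by simpa using hz')
    exact ⟨-y, neg_mem h1, by simpa using h2⟩

lemma Ex.of_subset {X D : Set ι} {b : (ι →₀ K) →ₗ[K] (ι →₀ K)} (h : X ⊆ D) : Ex X D b :=
  fun z hz _ => ⟨0, zero_mem _, by simpa using sp_mono h hz⟩

lemma Ex.inter {X D : Set ι} {b : (ι →₀ K) →ₗ[K] (ι →₀ K)} (h : Ex X D b) (S : Set ι)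
    (hS : ∀ w ∈ X, b (single w 1) ∈ Sp K {v | v ∈ S ↔ w ∈ S}) : Ex (X ∩ S) D b := fun z hz hz' => by
  obtain ⟨y, h1, h2⟩ := h z (sp_mono Set.inter_subset_left hz) hz'
  refine ⟨pr S y, pr_mem S h1, ?_⟩
  have := pr_mem' S h2
  rwa [map_sub, pr_comm b hS h1, pr_eq_self (sp_mono Set.inter_subset_right hz)] at this

lemma Ex.pieces {X D : Set ι} {b : (ι →₀ K) →ₗ[K] (ι →₀ K)} (γ : ι → κ)
    (hγ : ∀ w ∈ X, b (single w 1) ∈ Sp K {v | γ v = γ w})
    (h : ∀ c, Ex (X ∩ {v | γ v = c}) D b) : Ex X D b := by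
  classical
  have key : ∀ s : Finset κ, Ex (X ∩ {v | γ v ∈ s}) D b := by
    intro s
    induction s using Finset.induction_on with
    | empty => exact Ex.of_subset fun v hv => by simpa using hv.2
    | insert c s _ ih =>
      intro z hz hz'
      have hz1 := sp_mono Set.inter_subset_left hz
      have e1 : b (pr {v | γ v = c} z) = 0 := by
        rw [← pr_comm (S' := {v | γ v = c}) b (fun w hw => sp_mono (fun v hv => by
          simp only [Set.mem_ofPred_eq] at hv ⊢; rw [hv]) (hγ w hw)) hz1, hz', map_zero]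
      have e2 : b (pr {v | γ v = c}ᶜ z) = 0 := by
        rw [← pr_add_compl {v | γ v = c} z, map_add, e1, zero_add] at hz'
        exact hz'
      obtain ⟨y, h1, h2⟩ := h c _ (pr_mem _ hz1) e1
      obtain ⟨y', h3, h4⟩ := ih _ (sp_to (pr_mem {v | γ v = c}ᶜ hz) fun v hv => ⟨hv.1.1,
        (Finset.mem_insert.1 hv.1.2).resolve_left hv.2⟩) e2
      refine ⟨y + y', add_mem (sp_to h1 fun v hv => ⟨hv.1, Finset.mem_insert.2 (Or.inl hv.2)⟩)
        (sp_to h3 fun v hv => ⟨hv.1, Finset.mem_insert.2 (Or.inr hv.2)⟩), ?_⟩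
      convert add_mem h2 h4 using 1
      conv_lhs => rw [← pr_add_compl {v | γ v = c} z, map_add]
      abel
  intro z hz hz'
  obtain ⟨y, h1, h2⟩ := key (z.support.image γ) z (sp_iff.2 fun w hw =>
    ⟨sp_iff.1 hz w hw, Finset.mem_image_of_mem γ (mem_support_iff.2 hw)⟩) hz'
  exact ⟨y, sp_mono Set.inter_subset_left h1, h2⟩

lemma Ex.split {X D : Set ι} {b : (ι →₀ K) →ₗ[K] (ι →₀ K)} (S : Set ι)
    (hS : ∀ w ∈ X, b (single w 1) ∈ Sp K {v | v ∈ S ↔ w ∈ S})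
    (h1 : Ex (X ∩ S) D b) (h2 : Ex (X ∩ Sᶜ) D b) : Ex X D b := by
  refine Ex.pieces (fun v => v ∈ S) (fun w hw => sp_mono (fun v hv => propext hv) (hS w hw))
    fun c => ?_
  by_cases hc : c
  · convert h1 using 2
    ext v
    simp [hc]
  · convert h2 using 2
    ext v
    simp [hc]

lemma Ex.of_bdd {X D : Set ι} {b : (ι →₀ K) →ₗ[K] (ι →₀ K)} (φ : ι → ℤ)
    (h : ∀ k : ℕ, Ex (X ∩ {v | φ v < k}) D b) : Ex X D b := fun z hz hz' => by
  obtain ⟨y, h1, h2⟩ := h (z.support.sup (fun v => (φ v).toNat) + 1) z (sp_iff.2 fun w hw =>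
    ⟨sp_iff.1 hz w hw, by
      have := Finset.le_sup (f := fun v => (φ v).toNat) (mem_support_iff.2 hw)
      simp only [Set.mem_ofPred_eq] at this ⊢
      omega⟩) hz'
  exact ⟨y, sp_mono Set.inter_subset_left h1, h2⟩

lemma sp_map (f : ι → κ) {X : Set ι} {z : ι →₀ K} (hz : z ∈ Sp K X) :
    lmapDomain K K f z ∈ Sp K (f '' X) := by
  rw [Sp, ← lmapDomain_supported]
  exact Submodule.mem_map_of_mem hz

lemma Ex.map {X D : Set ι} {D' : Set κ} {b : (ι →₀ K) →ₗ[K] (ι →₀ K)}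
    {b' : (κ →₀ K) →ₗ[K] (κ →₀ K)} (h : Ex X D b) (f : ι → κ) (hf : Set.InjOn f X)
    (hX : ∀ w ∈ X, b (single w 1) ∈ Sp K X)
    (hb : ∀ w ∈ X, b' (single (f w) 1) = lmapDomain K K f (b (single w 1)))
    (hD : ∀ w ∈ X, w ∈ D → f w ∈ D') : Ex (f '' X) D' b' := by
  have e1 : ∀ u ∈ Sp K X, b' (lmapDomain K K f u) = lmapDomain K K f (b u) := fun u hu =>
    map_eq_of_single (b' ∘ₗ lmapDomain K K f) (lmapDomain K K f ∘ₗ b)
      (fun w hw => by simpa using hb w hw) hu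
  intro z hz hz'
  rw [Sp, ← lmapDomain_supported] at hz
  obtain ⟨u, hu, rfl⟩ := hz
  have e2 : b u = 0 := mapDomain_injOn X hf (map_mem_of_single b _ hX hu) (by simp)
    (by rw [e1 u hu] at hz'; simpa using hz')
  obtain ⟨y, h1, h2⟩ := h u hu e2
  refine ⟨_, sp_map f h1, ?_⟩
  rw [e1 y h1, ← map_sub]
  refine sp_mono ?_ (sp_map f (sp_inter (sub_mem hu (map_mem_of_single b _ hX h1)) h2))
  rintro _ ⟨w, hw, rfl⟩
  exact hD w hw.1 hw.2

lemma Ex.of_homotopy {X D : Set ι} {b : (ι →₀ K) →ₗ[K] (ι →₀ K)} (s : (ι →₀ K) →ₗ[K] (ι →₀ K))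
    (hs : ∀ w ∈ X, s (single w 1) ∈ Sp K X)
    (h : ∀ w ∈ X, b (s (single w 1)) + s (b (single w 1)) = single w 1) : Ex X D b :=
  fun z hz hz' => by
    have e1 := map_eq_of_single (b ∘ₗ s + s ∘ₗ b) LinearMap.id (fun w hw => by simpa using h w hw) hz
    simp only [LinearMap.add_apply, LinearMap.comp_apply, hz', map_zero, add_zero,
      LinearMap.id_apply] at e1
    exact ⟨s z, map_mem_of_single s _ hs hz, by simp [e1]⟩

end Pool.Agent.Lib.MP_b664fd_ag
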