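import Mathlib

/-! Koszul toric rings. -/

namespace Pool.Agent.Lib.MP_b664fd_ag

/-- The residue field `R / R₊`, with `R₊` generated by the space `R₁` of linear forms, has a linear
free resolution: an exact complex `⋯ → R^(b 2) → R^(b 1) → R^(b 0) = R` of finite free modules whose
matrices have entries in `R₁` and whose last image is `R₊`. -/
def HasLinearResolution (K R : Type) [Field K] [CommRing R] [Algebra K R] (R₁ : Submodule K R) :
    Prop :=
  ∃ (b : ℕ → ℕ) (d : ∀ i, Matrix (Fin (b i)) (Fin (b (i + 1))) R), b 0 = 1 ∧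
    (∀ i j k, d i j k ∈ R₁) ∧
    (∀ v, v ∈ Set.range (d 0).mulVec ↔ ∀ j, v j ∈ Ideal.span (R₁ : Set R)) ∧
    ∀ i, Function.Exact (d (i + 1)).mulVec (d i).mulVec

/-- The quotient `S / I` is Koszul, the linear forms being spanned by the classes of the `x u`. -/
def QuotKoszul (K : Type) {S σ : Type} [Field K] [CommRing S] [Algebra K S] (I : Ideal S)
    (x : σ → S) : Prop :=
  HasLinearResolution K (S ⧸ I) (Submodule.span K (Set.range fun u => Ideal.Quotient.mk I (x u)))

/-- The map sending the variable of the lattice point `u` to the monomial of `(u, 1)`. -/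
noncomputable def toricMap (K : Type) [Field K] {n : ℕ} (A : Set (Fin n → ℤ)) :
    MvPolynomial A K →ₐ[K] AddMonoidAlgebra K ((Fin n → ℤ) × ℤ) :=
  MvPolynomial.aeval fun u => AddMonoidAlgebra.single (u.1, 1) 1

/-- The toric ring `S / I` of a set of lattice points is Koszul. -/
def ToricKoszul (K : Type) [Field K] {n : ℕ} (A : Set (Fin n → ℤ)) : Prop :=
  QuotKoszul K (RingHom.ker (toricMap K A)) MvPolynomial.X

end Pool.Agent.Lib.MP_b664fd_ag
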