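import Pool.Agent.Lib.MP_b664fd_ag.Cut

/-! The bar complex of a free commutative monoid is exact off the diagonal. -/

open Finsupp

namespace Pool.Agent.Lib.MP_b664fd_ag

variable {K : Type} [Field K] {α : Type} [LinearOrder α]

/-- Cardinality as an integer. -/
def cardZ (α : Type) : Multiset α →+ ℤ := (Nat.castAddMonoidHom ℤ).comp Multiset.cardHom

omit [LinearOrder α] in
lemma cardZ_apply (a : Multiset α) : cardZ α a = Multiset.card a := rfl

open Classical in
/-- Indicator of the first multiset lying below the second. -/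
noncomputable def below (K : Type) [Field K] (a b : Multiset α) : K :=
  if ∀ x ∈ a, ∀ y ∈ b, x ≤ y then 1 else 0

/-- Number of inversions between two multisets. -/
def invs (a b : Multiset α) : ℕ := (a.map fun x => b.countP (· < x)).sum

/-- Number of inversions of a word. -/
def invL : List (Multiset α) → ℕ
  | [] => 0
  | a :: w => invs a w.sum + invL w

open Classical in
/-- The least element as a multiset. -/
noncomputable def mn (a : Multiset α) : Multiset α :=
  if h : ∃ x ∈ a, ∀ y ∈ a, x ≤ y then {h.choose} else 0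

/-- Split off the least element of the first letter. -/
noncomputable def spl (K : Type) [Field K] (α : Type) [LinearOrder α] :
    (List (Multiset α) →₀ K) →ₗ[K] (List (Multiset α) →₀ K) :=
  linearCombination K fun w => match w with
    | [] => 0
    | a :: r => if 2 ≤ Multiset.card a then single (mn a :: (a - mn a) :: r) 1 else 0

/-- Words that start with a single element followed by a descent. -/
def desc (α : Type) [LinearOrder α] : Set (List (Multiset α)) :=
  {w | ∃ x r, w = {x} :: r ∧ (r = [] ∨ ∃ b t, r = b :: t ∧ ∃ y ∈ b, y < x)}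

lemma below_ne {a b : Multiset α} : below K a b ≠ 0 ↔ ∀ x ∈ a, ∀ y ∈ b, x ≤ y := by
  simp [below]

lemma below_cocycle (a b c : Multiset α) :
    below K a b * below K (a + b) c = below K b c * below K a (b + c) := by
  have : ((∀ x ∈ a, ∀ y ∈ b, x ≤ y) ∧ ∀ x ∈ a + b, ∀ y ∈ c, x ≤ y) ↔
      ((∀ x ∈ b, ∀ y ∈ c, x ≤ y) ∧ ∀ x ∈ a, ∀ y ∈ b + c, x ≤ y) := by
    simp only [Multiset.mem_add, or_imp, forall_and]
    tauto
  simp only [below, ite_mul, one_mul, zero_mul, ← ite_and, this]

lemma invs_eq_zero {a b : Multiset α} : invs a b = 0 ↔ ∀ x ∈ a, ∀ y ∈ b, x ≤ y := by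
  simp [invs, Multiset.sum_eq_zero_iff, Multiset.countP_eq_zero]

lemma invL_merge (a b : Multiset α) (r : List (Multiset α)) : ∀ l : List (Multiset α),
    invL (l ++ a :: b :: r) = invL (l ++ (a + b) :: r) + invs a b
  | [] => by
    simp only [List.nil_append, invL, invs, List.sum_cons, Multiset.countP_add, Multiset.map_add,
      Multiset.sum_add, Multiset.sum_map_add]
    omega
  | c :: l => by
    simp only [List.cons_append, invL, invL_merge a b r l, sum_merge]
    omega

lemma exists_min {a : Multiset α} (h : 2 ≤ Multiset.card a) :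
    ∃ x b, a = {x} + b ∧ b ≠ 0 ∧ ∀ y ∈ b, x ≤ y := by
  obtain ⟨x, h1, h2⟩ := a.toFinset.exists_min_image id
    (Multiset.toFinset_nonempty.2 (by rintro rfl; simp at h))
  obtain ⟨b, rfl⟩ := Multiset.exists_cons_of_mem (Multiset.mem_toFinset.1 h1)
  exact ⟨x, b, rfl, by rintro rfl; simp at h, fun y hy => h2 y (by simp [hy])⟩

lemma mn_eq {x : α} {a : Multiset α} (h0 : x ∈ a) (h : ∀ y ∈ a, x ≤ y) : mn a = {x} := by
  have h1 : ∃ t ∈ a, ∀ y ∈ a, t ≤ y := ⟨x, h0, h⟩
  rw [mn, dif_pos h1, le_antisymm (h1.choose_spec.2 x h0) (h _ h1.choose_spec.1)]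

lemma spl_single (a : Multiset α) (r : List (Multiset α)) : spl K α (single (a :: r) 1) =
    if 2 ≤ Multiset.card a then single (mn a :: (a - mn a) :: r) 1 else 0 := by
  rw [spl, linearCombination_single, one_smul]

lemma spl_cons' {a : Multiset α} (h : 2 ≤ Multiset.card a) (z : List (Multiset α) →₀ K) :
    spl K α (cons a z) = cons (mn a) (cons (a - mn a) z) :=
  lin_ext (spl K α ∘ₗ cons a) (cons (mn a) ∘ₗ cons (a - mn a)) (fun w => by
    simp only [LinearMap.comp_apply, lmapDomain_apply, mapDomain_single, spl_single, if_pos h]) z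

lemma spl_cons {x : α} {b : Multiset α} (h0 : b ≠ 0) (h : ∀ y ∈ b, x ≤ y)
    (z : List (Multiset α) →₀ K) : spl K α (cons ({x} + b) z) = cons {x} (cons b z) := by
  have h2 : mn ({x} + b) = {x} := mn_eq (by simp) fun y hy =>
    (Multiset.mem_add.1 hy).elim (fun h1 => (Multiset.mem_singleton.1 h1).ge) (h y)
  have h3 : 2 ≤ Multiset.card ({x} + b) := by
    have := Multiset.card_pos.2 h0
    simp only [Multiset.card_add, Multiset.card_singleton]
    omega
  rw [spl_cons' h3, h2, add_comm, Multiset.add_sub_cancel_right]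

lemma spl_cons_single (x : α) (z : List (Multiset α) →₀ K) : spl K α (cons {x} z) = 0 :=
  lin_ext (spl K α ∘ₗ cons {x}) 0 (fun w => by simp [spl_single]) z

lemma single_cons {M : Type} (a : M) (w : List M) :
    single (a :: w) (1 : K) = cons a (single w 1) := by simp

lemma Ex.insert {ι : Type} {X D : Set ι} {b : (ι →₀ K) →ₗ[K] (ι →₀ K)} (h : Ex X D b) {w : ι}
    (h1 : w ∈ D) (h2 : b (single w 1) = 0) : Ex (insert w X) D b := fun z hz hz' => by
  have e1 : pr Xᶜ z ∈ Sp K {w} := sp_to (pr_mem _ hz) fun v hv => hv.1.resolve_right hv.2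
  have e2 : b (pr Xᶜ z) = 0 := map_eq_of_single b 0 (by rintro _ rfl; exact h2) e1
  rw [← pr_add_compl X z, map_add, e2, add_zero] at hz'
  obtain ⟨y, h3, h4⟩ := h _ (sp_mono Set.inter_subset_right (pr_mem X hz)) hz'
  refine ⟨y, sp_mono (Set.subset_insert _ _) h3, ?_⟩
  rw [← pr_add_compl X z, add_sub_right_comm]
  exact add_mem h4 (sp_to e1 fun v hv => hv ▸ h1)

lemma desc_merge {w : List (Multiset α)} (hw : ∀ m ∈ w, 1 ≤ cardZ α m) :
    Dd (below K) (single w 1) ∈ Sp K {v | (v ∈ desc α ↔ w ∈ desc α) ∧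
      (w ∈ desc α → v.head? = w.head?)} :=
  Dd_mem _ fun l a b r h1 h2 => by
    have h3 := below_ne.1 h2
    have h4 : 1 ≤ Multiset.card a := by simpa [cardZ_apply] using hw a (by simp [h1])
    have h5 : 1 ≤ Multiset.card b := by simpa [cardZ_apply] using hw b (by simp [h1])
    subst h1
    rcases l with _ | ⟨c, _ | ⟨d, l⟩⟩
    · have h6 : a :: b :: r ∉ desc α := by
        rintro ⟨x, _, h7, h8 | ⟨_, _, h8, y, h9, h10⟩⟩ <;> cases h7 <;> cases h8
        exact h10.not_ge (h3 x (by simp) y h9)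
      refine ⟨iff_of_false ?_ h6, fun h7 => absurd h7 h6⟩
      rintro ⟨x, _, h7, -⟩
      have := congrArg Multiset.card (List.cons.inj h7).1
      simp only [Multiset.card_add, Multiset.card_singleton] at this
      omega
    · refine ⟨⟨?_, ?_⟩, fun _ => rfl⟩
      · rintro ⟨x, _, h7, h8 | ⟨_, _, h8, y, h9, h10⟩⟩ <;> cases h7 <;> cases h8
        obtain ⟨t, ht⟩ := Multiset.card_pos_iff_exists_mem.1 h4
        rcases Multiset.mem_add.1 h9 with h11 | h11
        · exact ⟨x, _, rfl, Or.inr ⟨_, _, rfl, y, h11, h10⟩⟩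
        · exact ⟨x, _, rfl, Or.inr ⟨_, _, rfl, t, ht, (h3 t ht y h11).trans_lt h10⟩⟩
      · rintro ⟨x, _, h7, h8 | ⟨_, _, h8, y, h9, h10⟩⟩ <;> cases h7 <;> cases h8
        exact ⟨x, _, rfl, Or.inr ⟨_, _, rfl, y, Multiset.mem_add.2 (Or.inl h9), h10⟩⟩
    · refine ⟨⟨?_, ?_⟩, fun _ => rfl⟩ <;>
      · rintro ⟨x, _, h7, h8 | ⟨_, _, h8, h9⟩⟩ <;> cases h7 <;> cases h8
        exact ⟨x, _, rfl, Or.inr ⟨_, _, rfl, h9⟩⟩

lemma free_below (k : ℕ) : ∀ I : α → Prop, (∀ x y, y ≤ x → I x → I y) →
    Ex (Wd (cardZ α) ⊤ (fun a => ∃ x ∈ a, I x) ∩ {w | cardZ α w.sum - 1 < k}) (Dg (cardZ α) 0)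
      (Dd (below K)) := by
  have hcl : ∀ (I : α → Prop) (j : ℕ), ∀ w ∈ Wd (cardZ α) ⊤ (fun a => ∃ x ∈ a, I x) ∩
      {w | cardZ α w.sum - 1 < j}, Dd (below K) (single w 1) ∈
      Sp K (Wd (cardZ α) ⊤ (fun a => ∃ x ∈ a, I x) ∩ {w | cardZ α w.sum - 1 < j}) := fun I j w hw =>
    sp_inter (Wd_closed (fun a _ b _ ⟨x, h1, h2⟩ _ => ⟨x, Multiset.mem_add.2 (Or.inl h1), h2⟩) w hw.1)
      (sp_to (Dd_sum _ w) fun v hv => by rw [Set.mem_ofPred_eq, hv.1]; exact hw.2)
  induction k with
  | zero =>
    refine fun I _ => Ex.of_subset ?_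
    rintro _ ⟨⟨h1, a, r, rfl, -⟩, h2⟩
    have := length_le_deg fun m hm => (h1 m hm).2
    simp only [Set.mem_ofPred_eq, List.length_cons] at this h2
    omega
  | succ k ih =>
    intro I hI
    refine Ex.split (desc α)
      (fun w hw => sp_to (desc_merge fun m hm => (hw.1.1 m hm).2) fun v hv => hv.1)
      (Ex.pieces List.head? (fun w hw => sp_to (desc_merge fun m hm => (hw.1.1.1 m hm).2)
        fun v hv => hv.2 hw.2) fun c => ?_) (Ex.of_homotopy (spl K α) ?_ ?_)
    · by_cases hc : ∃ x, I x ∧ c = some {x}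
      swap
      · refine Ex.of_subset ?_
        rintro _ ⟨⟨⟨⟨-, _, _, h1, y, h2, h3⟩, -⟩, x, r, rfl, -⟩, h4⟩
        cases h1
        exact absurd ⟨x, Multiset.mem_singleton.1 h2 ▸ h3, h4.symm⟩ hc
      obtain ⟨x, hx, rfl⟩ := hc
      have e1 := ((ih (· < x) fun _ _ h1 h2 => h1.trans_lt h2).neg.insert (w := [])
        (by simp [Dg]) (by simp)).map (D' := Dg (cardZ α) 0) (b' := Dd (below K)) (List.cons {x})
        (fun _ _ _ _ h => (List.cons.inj h).2)
        (by
          rintro w (rfl | hw)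
          · simp
          · exact neg_mem (sp_mono (Set.subset_insert _ _) (hcl _ k w hw)))
        (by
          rintro w (rfl | ⟨⟨-, b, r, rfl, y, h1, h2⟩, -⟩)
          · simp
          · have : below K {x} b = 0 := by_contra fun h3 =>
              h2.not_ge (below_ne.1 h3 x (by simp) y h1)
            rw [Dd_single, bd_two, this, LinearMap.neg_apply, map_neg, Dd_single, zero_smul,
              zero_sub])
        (fun w _ hw => by
          simp only [Dg, Set.mem_ofPred_eq, List.sum_cons, map_add, List.length_cons] at hw ⊢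
          rw [hw, cardZ_apply, Multiset.card_singleton]
          omega)
      convert e1 using 1
      ext w
      constructor
      · rintro ⟨⟨⟨⟨h1, -⟩, h2⟩, y, r, rfl, h3⟩, h4⟩
        obtain rfl : y = x := by simpa using h4
        refine ⟨r, h3.imp_right ?_, rfl⟩
        rintro ⟨b, t, rfl, h5⟩
        refine ⟨⟨fun m hm => h1 m (List.mem_cons_of_mem _ hm), b, t, rfl, h5⟩, ?_⟩
        simp only [Set.mem_ofPred_eq, List.sum_cons (a := ({y} : Multiset α)), map_add] at h2 ⊢
        rw [cardZ_apply {y}, Multiset.card_singleton] at h2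
        omega
      · rintro ⟨r, h1, rfl⟩
        have h2 : (∀ m ∈ r, 1 ≤ cardZ α m) ∧ cardZ α r.sum - 1 < (k : ℤ) ∨ r = [] :=
          h1.symm.imp (fun h => ⟨fun m hm => (h.1.1 m hm).2, h.2⟩) id
        refine ⟨⟨⟨⟨List.forall_mem_cons.2 ⟨⟨trivial, by simp [cardZ_apply]⟩, fun m hm =>
          ⟨trivial, ?_⟩⟩, _, _, rfl, x, by simp, hx⟩, ?_⟩, x, r, rfl, h1.imp_right fun h => h.1.2⟩,
          rfl⟩
        · rcases h2 with h2 | rfl
          · exact h2.1 m hm
          · simp at hm
        · simp only [Set.mem_ofPred_eq, List.sum_cons, map_add]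
          rw [cardZ_apply {x}, Multiset.card_singleton]
          rcases h2 with h2 | rfl
          · omega
          · simp
    · rintro _ ⟨⟨⟨h1, a, r, rfl, y, h2, h3⟩, h4⟩, -⟩
      by_cases h5 : 2 ≤ Multiset.card a
      · obtain ⟨x, b, rfl, h6, h7⟩ := exists_min h5
        rw [single_cons, spl_cons h6 h7, ← single_cons, ← single_cons]
        refine sp_single ?_ 1
        refine ⟨⟨⟨List.forall_mem_cons.2 ⟨⟨trivial, by simp [cardZ_apply]⟩,
          List.forall_mem_cons.2 ⟨⟨trivial, ?_⟩, fun m hm => h1 m (List.mem_cons_of_mem _ hm)⟩⟩,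
          _, _, rfl, x, by simp, hI y x ?_ h3⟩, by simpa [add_assoc] using h4⟩, ?_⟩
        · have := Multiset.card_pos.2 h6
          rw [cardZ_apply]
          omega
        · rcases Multiset.mem_add.1 h2 with h8 | h8
          · exact (Multiset.mem_singleton.1 h8).ge
          · exact h7 y h8
        · rintro ⟨t, _, h8, h9 | ⟨_, _, h9, y, h10, h11⟩⟩ <;> obtain ⟨h12, rfl⟩ := List.cons.inj h8 <;>
            cases h9
          rw [← Multiset.singleton_inj.1 h12] at h11
          exact h11.not_ge (h7 y h10)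
      · simp [spl_single, h5]
    · rintro _ ⟨⟨⟨h1, a, r, rfl, -⟩, -⟩, h2⟩
      by_cases h5 : 2 ≤ Multiset.card a
      · obtain ⟨x, b, rfl, h6, h7⟩ := exists_min h5
        have h8 : below K {x} b = 1 := by rw [below, if_pos (by simpa using h7)]
        rw [single_cons, spl_cons h6 h7, ← single_cons, ← single_cons, ← single_cons, Dd_single,
          Dd_single, bd_two, h8, one_smul, sub_add, sub_eq_self, sub_eq_zero]
        rcases r with _ | ⟨c, r⟩
        · simp
        rw [bd_two, bd_two, map_sub, map_sub, spl_cons h6 h7, map_smul, map_smul, sub_left_inj]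
        by_cases h9 : ∀ s ∈ b, ∀ t ∈ c, s ≤ t
        · obtain ⟨s, hs⟩ := Multiset.exists_mem_of_ne_zero h6
          have h10 : ∀ t ∈ c, x ≤ t := fun t ht => (h7 s hs).trans (h9 s hs t ht)
          rw [below, below, if_pos h9, if_pos (by simpa using ⟨h10, h9⟩), add_assoc,
            single_cons (_ + _), single_cons (_ + _), spl_cons (by simp [h6])
            fun t ht => (Multiset.mem_add.1 ht).elim (h7 t) (h10 t)]
        · rw [below, below, if_neg h9, if_neg fun h10 => h9 fun s hs =>
            h10 s (Multiset.mem_add.2 (Or.inr hs)), zero_smul, zero_smul]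
      · have h6 := (h1 a (by simp)).2
        rw [cardZ_apply] at h6
        obtain ⟨x, rfl⟩ := Multiset.card_eq_one.1 (show Multiset.card a = 1 by omega)
        rcases r with _ | ⟨b, r⟩
        · exact absurd ⟨x, _, rfl, Or.inl rfl⟩ h2
        have h7 : ∀ y ∈ b, x ≤ y := fun y hy => le_of_not_gt fun h8 =>
          h2 ⟨x, _, rfl, Or.inr ⟨_, _, rfl, y, hy, h8⟩⟩
        have h8 : below K {x} b = 1 := by rw [below, if_pos (by simpa using h7)]
        have h9 : b ≠ 0 := by
          rintro rfl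
          simpa using (h1 0 (by simp)).2
        rw [Dd_single, bd_two, h8, one_smul, map_sub, spl_cons_single, single_cons (_ + _),
          spl_cons h9 h7, spl_single, if_neg h5]
        simp

lemma free_one (I : α → Prop) (hI : ∀ x y, y ≤ x → I x → I y) :
    Ex (Wd (cardZ α) ⊤ fun a => ∃ x ∈ a, I x) (Dg (cardZ α) 0)
      (Dd (1 : Multiset α → Multiset α → K)) := by
  refine Ex.filt (D₁ := Dg (cardZ α) 1) invL
    (Wd_closed fun a _ b _ ⟨x, h1, h2⟩ _ => ⟨x, Multiset.mem_add.2 (Or.inl h1), h2⟩)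
    (Dd_Dd _ fun _ _ _ => rfl) (fun w _ => Dd_mem _ fun l a b r h3 h4 => ?_) (fun w _ => ?_)
    (fun w _ => Dg_sep _ w) (Ex.of_bdd (fun w => cardZ α w.sum - 1) fun k => free_below k I hI)
  · rw [Set.mem_ofPred_eq, h3, invL_merge, invs_eq_zero.2 (below_ne.1 h4), add_zero]
  · rw [Dd_sub_single]
    refine Dd_mem _ fun l a b r h3 h4 => ?_
    have h5 : invs a b ≠ 0 := fun h5 => h4 (by simp [below, if_pos (invs_eq_zero.1 h5)])
    rw [Set.mem_ofPred_eq, h3, invL_merge]
    omega

/-- Sum of a multiset of elements of `A`. -/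
def tot {M : Type} [AddCommMonoid M] (A : Set M) : Multiset A →+ M :=
  Multiset.sumAddMonoidHom.comp (Multiset.mapAddMonoidHom Subtype.val)

lemma tot_apply {M : Type} [AddCommMonoid M] {A : Set M} (s : Multiset A) :
    tot A s = (s.map Subtype.val).sum := rfl

lemma mem_closure_iff {M : Type} [AddCommMonoid M] {A : Set M} {m : M} :
    m ∈ AddSubmonoid.closure A ↔ ∃ s, tot A s = m := by
  constructor
  · intro hm
    induction hm using AddSubmonoid.closure_induction with
    | mem x hx => exact ⟨{⟨x, hx⟩}, by simp [tot_apply]⟩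
    | zero => exact ⟨0, map_zero _⟩
    | add x y _ _ h1 h2 =>
      obtain ⟨s, rfl⟩ := h1
      obtain ⟨t, rfl⟩ := h2
      exact ⟨s + t, map_add _ _ _⟩
  · rintro ⟨s, rfl⟩
    refine AddSubmonoid.multiset_sum_mem _ _ fun a ha => ?_
    obtain ⟨x, -, rfl⟩ := Multiset.mem_map.1 ha
    exact AddSubmonoid.subset_closure x.2

lemma deg_tot {M : Type} [AddCommMonoid M] {deg : M →+ ℤ} {A : Set M} (hA : ∀ a ∈ A, deg a = 1)
    (s : Multiset A) : deg (tot A s) = cardZ A s := by
  induction s using Multiset.induction_on with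
  | empty => simp
  | cons a s ih =>
    rw [← Multiset.singleton_add, map_add, map_add, map_add, ih, cardZ_apply {a}]
    simp [tot_apply, hA a a.2]

theorem Good.free {M : Type} [AddCommMonoid M] {deg : M →+ ℤ} {A : Set M}
    (hA : ∀ a ∈ A, deg a = 1) (hinj : Function.Injective (tot A)) : Good K deg A := by
  classical
  intro g hg
  let _ : LinearOrder A := linearOrderOfSTO WellOrderingRel
  let e : A → ℤ ×ₗ A := fun a => toLex (-g a, a)
  have he : Function.Injective e := fun a b h => congrArg (fun p => (ofLex p).2) h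
  have e1 := @free_one K _ A (LinearOrder.lift' e he) (fun a => 0 < g a) fun x y h1 h2 => by
    have h3 : e y ≤ e x := h1
    have := (Prod.Lex.toLex_le_toLex.1 h3).imp id And.left
    simp only at this
    omega
  have e2 : ∀ s : Multiset A, (∃ x ∈ s, 0 < g x) ↔ 0 < g (tot A s) := fun s => by
    induction s using Multiset.induction_on with
    | empty => simp
    | cons a s ih =>
      have h1 := hg a a.2
      have h2 := nonneg_closure hg (mem_closure_iff.2 ⟨s, rfl⟩)
      have h3 : g (tot A (a ::ₘ s)) = g a + g (tot A s) := by simp [tot_apply]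
      simp only [Multiset.mem_cons, exists_eq_or_imp, ih, h3]
      omega
  convert e1.map (D' := Dg deg 0) (b' := Dd (1 : M → M → K)) (List.map (tot A))
    (List.map_injective_iff.2 hinj).injOn
    (Wd_closed fun a _ b _ ⟨x, h1, h2⟩ _ => ⟨x, Multiset.mem_add.2 (Or.inl h1), h2⟩)
    (fun w _ => by rw [Dd_single, Dd_single, bd_map]; rfl)
    fun w _ hw => by
      rw [Dg, Set.mem_ofPred_eq, ← map_list_sum, deg_tot hA, List.length_map]
      exact hw
  ext w
  constructor
  · rintro ⟨h1, a, r, rfl, h2⟩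
    choose! σ hσ using fun m hm => (mem_closure_iff (A := A) (m := m)).1 hm
    refine ⟨(a :: r).map σ, ⟨fun s hs => ?_, _, _, rfl, (e2 _).2 ?_⟩, ?_⟩
    · obtain ⟨m, hm, rfl⟩ := List.mem_map.1 hs
      exact ⟨trivial, by rw [← deg_tot hA, hσ m (h1 m hm).1]; exact (h1 m hm).2⟩
    · rwa [hσ a (h1 a (by simp)).1]
    · rw [List.map_map]
      exact (List.map_congr_left fun m hm => hσ m (h1 m hm).1).trans (List.map_id _)
  · rintro ⟨_, ⟨h1, a, r, rfl, h2⟩, rfl⟩
    refine ⟨fun m hm => ?_, _, _, rfl, (e2 a).1 h2⟩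
    obtain ⟨s, h3, rfl⟩ := List.mem_map.1 hm
    exact ⟨mem_closure_iff.2 ⟨s, rfl⟩, deg_tot hA s ▸ (h1 s h3).2⟩

end Pool.Agent.Lib.MP_b664fd_ag
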