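import Mathlib

/-! The tubes of a graph form a building set that can be grown one vertex at a time. -/

open Finset

namespace Pool.Agent.Lib.MP_b664fd_ag

theorem tubes_building {n : ℕ} (G : SimpleGraph (Fin n)) (B : Set (Finset (Fin n)))
    (hB : B = {T : Finset (Fin n) | (G.induce (T : Set (Fin n))).Connected}) :
    ∅ ∉ B ∧ (∀ i, {i} ∈ B) ∧ (∀ S ∈ B, ∀ T ∈ B, ¬Disjoint S T → S ∪ T ∈ B) ∧
      ∀ S ∈ B, ∀ T ∈ B, ¬Disjoint S T → ¬S ⊆ T → ¬T ⊆ S → ∃ v ∈ T, v ∉ S ∧ insert v S ∈ B := by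
  subst hB
  refine ⟨fun h => by simpa using h.nonempty, fun i => ?_, fun S hS T hT h => ?_,
    fun S hS T hT h _ h1 => ?_⟩
  · change (G.induce (({i} : Finset (Fin n)) : Set (Fin n))).Connected
    rw [coe_singleton, SimpleGraph.induce_singleton_eq_top]
    exact SimpleGraph.connected_top
  · obtain ⟨v, h1, h2⟩ := not_disjoint_iff.1 h
    change (G.induce ((S ∪ T : Finset (Fin n)) : Set (Fin n))).Connected
    rw [coe_union]
    exact SimpleGraph.induce_union_connected hS.preconnected hT.preconnected ⟨v, h1, h2⟩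
  · obtain ⟨u, h2, h3⟩ := not_disjoint_iff.1 h
    obtain ⟨v, h4, h5⟩ := not_subset.1 h1
    obtain ⟨p⟩ := hT.preconnected ⟨u, h3⟩ ⟨v, h4⟩
    obtain ⟨d, -, h6, h7⟩ := p.exists_boundary_dart {w | w.1 ∈ S} h2 h5
    refine ⟨d.snd.1, d.snd.2, h7, ?_⟩
    have h8 := SimpleGraph.induce_union_connected hS.preconnected
      (SimpleGraph.induce_pair_connected_of_adj (G := G) (u := d.fst.1) (v := d.snd.1)
        d.adj).preconnected
      ⟨d.fst.1, h6, Or.inl rfl⟩
    have h9 : (S : Set (Fin n)) ∪ {d.fst.1, d.snd.1} = (insert d.snd.1 S : Finset (Fin n)) := by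
      ext w
      simp only [Set.mem_union, mem_coe, Set.mem_insert_iff, Set.mem_singleton_iff, mem_insert]
      exact ⟨fun h => h.elim Or.inr fun h => h.elim (fun h => Or.inr (h ▸ h6)) Or.inl,
        fun h => h.elim (fun h => Or.inr (Or.inr h)) Or.inl⟩
    rw [h9] at h8
    exact h8

end Pool.Agent.Lib.MP_b664fd_ag
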