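import Pool.Agent.Lib.MP_b664fd_ag.H10Clq

/-! Barycentric coordinates with respect to interior points of the faces of a cone. -/

set_option linter.unusedSectionVars false

open Finset

namespace Pool.Agent.Lib.MP_b664fd_ag

variable {I : Type} [Fintype I] [DecidableEq I]

open Classical in
/-- The zero set of a vector. -/
noncomputable def zs (z : I → ℝ) : Finset I := univ.filter fun i => z i = 0

omit [DecidableEq I] in
lemma mem_zs {z : I → ℝ} {i : I} : i ∈ zs z ↔ z i = 0 := by simp [zs]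

/-- A chosen interior point of height one for every face of the cone of nonnegative vectors. -/
structure Bary (I : Type) [Fintype I] where
  o : I
  U : Submodule ℝ (I → ℝ)
  Adm : Finset I → Prop
  π : Finset I → I → ℝ
  mem : ∀ Z, Adm Z → π Z ∈ U
  nn : ∀ Z, Adm Z → 0 ≤ π Z
  zero : ∀ Z, Adm Z → ∀ i, π Z i = 0 ↔ i ∈ Z
  one : ∀ Z, Adm Z → π Z o = 1
  adm : ∀ z ∈ U, 0 ≤ z → z ≠ 0 → Adm (zs z)

namespace Bary

variable (B : Bary I)

/-- Nonnegative combination of the chosen points. -/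
def NRep (z : I → ℝ) (a : Finset I → ℝ) : Prop :=
  0 ≤ a ∧ (∀ Z, a Z ≠ 0 → B.Adm Z) ∧ z = ∑ Z, a Z • B.π Z

/-- The support is a chain. -/
def Ch (a : Finset I → ℝ) : Prop := ∀ Z Z', a Z ≠ 0 → a Z' ≠ 0 → Z ⊆ Z' ∨ Z' ⊆ Z

/-- Total weight on the sets of size `r`. -/
def al (r : ℕ) (a : Finset I → ℝ) : ℝ := ∑ Z, if Z.card = r then a Z else 0

/-- Lexicographic comparison of the weights. -/
def Lx (a b : Finset I → ℝ) : Prop := ∃ r, (∀ r' < r, al r' a = al r' b) ∧ al r a < al r b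

variable {B} {z y : I → ℝ} {a b : Finset I → ℝ}

lemma NRep.term (h : B.NRep z a) (Z : Finset I) : 0 ≤ a Z • B.π Z := by
  by_cases h1 : a Z = 0
  · simp [h1]
  · exact smul_nonneg (h.1 Z) (B.nn Z (h.2.1 Z h1))

lemma NRep.nonneg (h : B.NRep z a) : 0 ≤ z := h.2.2 ▸ sum_nonneg fun Z _ => h.term Z

lemma NRep.mem (h : B.NRep z a) : z ∈ B.U := h.2.2 ▸ sum_mem fun Z _ => by
  by_cases h1 : a Z = 0
  · simp [h1]
  · exact B.U.smul_mem _ (B.mem Z (h.2.1 Z h1))

lemma NRep.total (h : B.NRep z a) : z B.o = ∑ Z, a Z := by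
  rw [h.2.2, Finset.sum_apply]
  refine sum_congr rfl fun Z _ => ?_
  by_cases h1 : a Z = 0
  · simp [h1]
  · simp [B.one Z (h.2.1 Z h1)]

lemma NRep.eq_zero (h : B.NRep z a) (h0 : z B.o = 0) : a = 0 := by
  rw [h.total, sum_eq_zero_iff_of_nonneg fun Z _ => h.1 Z] at h0
  exact funext fun Z => h0 Z (mem_univ _)

lemma NRep.sub (h : B.NRep z a) {Z : Finset I} (hZ : a Z ≠ 0) : zs z ⊆ Z := fun i hi => by
  have h1 := mem_zs.1 hi
  rw [h.2.2, Finset.sum_apply, sum_eq_zero_iff_of_nonneg fun Z _ => h.term Z i] at h1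
  have h2 := h1 Z (mem_univ _)
  simp only [Pi.smul_apply, smul_eq_mul, mul_eq_zero] at h2
  exact (B.zero Z (h.2.1 Z hZ) i).1 (h2.resolve_left hZ)

lemma NRep.add (h : B.NRep z a) (h' : B.NRep y b) : B.NRep (z + y) (a + b) := by
  refine ⟨add_nonneg h.1 h'.1, fun Z hZ => ?_, ?_⟩
  · by_contra h1
    have h2 := mt (h.2.1 Z) h1
    have h3 := mt (h'.2.1 Z) h1
    simp only [ne_eq, not_not] at h2 h3
    simp [h2, h3] at hZ
  · rw [h.2.2, h'.2.2, ← sum_add_distrib]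
    simp [add_smul]

lemma NRep.of_le (h : B.NRep z a) (h0 : 0 ≤ b) (h1 : b ≤ a) : B.NRep (∑ Z, b Z • B.π Z) b :=
  ⟨h0, fun Z hZ => h.2.1 Z fun h2 => hZ (le_antisymm (h2 ▸ h1 Z) (h0 Z)), rfl⟩

lemma NRep.diff (h : B.NRep z a) (h' : B.NRep y b) (h1 : b ≤ a) : B.NRep (z - y) (a - b) := by
  have := h.of_le (sub_nonneg.2 h1) (sub_le_self _ h'.1)
  convert this using 1
  rw [h.2.2, h'.2.2, ← sum_sub_distrib]
  simp [sub_smul]

lemma nrep_single {Z : Finset I} (hZ : B.Adm Z) {t : ℝ} (ht : 0 ≤ t) :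
    B.NRep (t • B.π Z) (Pi.single Z t) := by
  refine ⟨Pi.single_nonneg.2 ht, fun Y hY => ?_, ?_⟩
  · by_cases h : Y = Z
    · exact h ▸ hZ
    · simp [h] at hY
  · rw [sum_eq_single Z (fun Y _ h => by simp [h]) (by simp)]
    simp

omit [Fintype I] [DecidableEq I] in
lemma Ch.mono (h : Ch a) (h1 : ∀ Z, b Z ≠ 0 → a Z ≠ 0) : Ch b :=
  fun Z Z' h2 h3 => h Z Z' (h1 Z h2) (h1 Z' h3)

omit [Fintype I] [DecidableEq I] in
lemma Ch.of_le (h : Ch a) (h0 : 0 ≤ b) (h1 : b ≤ a) : Ch b :=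
  h.mono fun Z h2 h3 => h2 (le_antisymm (h3 ▸ h1 Z) (h0 Z))

lemma single_le (h : 0 ≤ a) (Z : Finset I) : Pi.single Z (a Z) ≤ a := fun Y => by
  by_cases h1 : Y = Z
  · simp [h1]
  · simpa [h1] using h Y

lemma rem_zero (h : B.NRep z a) (hc : Ch a) {Z : Finset I} (hZ : B.Adm Z) (h1 : Z ⊆ zs z) :
    ∃ i ∉ Z, z i = a Z * B.π Z i := by
  classical
  have h2 := h.diff (nrep_single hZ (h.1 Z)) (single_le h.1 Z)
  by_cases h3 : (univ.filter fun Y => (a - Pi.single Z (a Z) : Finset I → ℝ) Y ≠ 0).Nonempty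
  · obtain ⟨Y, h4, h5⟩ := exists_min_image _ card h3
    simp only [mem_filter, mem_univ, true_and] at h4 h5
    have h6 : ∀ X, (a - Pi.single Z (a Z) : Finset I → ℝ) X ≠ 0 → a X ≠ 0 ∧ X ≠ Z := fun X hX => by
      by_cases h : X = Z
      · simp [h] at hX
      · exact ⟨by simpa [h] using hX, h⟩
    obtain ⟨i, h7, h8⟩ := exists_of_ssubset
      (ssubset_of_subset_of_ne (h1.trans (h.sub (h6 Y h4).1)) (h6 Y h4).2.symm)
    refine ⟨i, h8, ?_⟩
    have h9 : (z - a Z • B.π Z) i = 0 := by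
      rw [h2.2.2, Finset.sum_apply]
      refine sum_eq_zero fun X _ => ?_
      by_cases hX : (a - Pi.single Z (a Z) : Finset I → ℝ) X = 0
      · rw [hX, zero_smul, Pi.zero_apply]
      have : Y ⊆ X := (hc Y X (h6 Y h4).1 (h6 X hX).1).elim id fun h =>
        (eq_of_subset_of_card_le h (h5 X hX)).ge
      rw [Pi.smul_apply, (B.zero X (h2.2.1 X hX) i).2 (this h7), smul_zero]
    simpa [sub_eq_zero] using h9
  · refine ⟨B.o, fun h4 => ?_, ?_⟩
    · have := (B.zero Z hZ _).2 h4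
      rw [B.one Z hZ] at this
      exact one_ne_zero this
    · have h5 := h2.total
      rw [sum_eq_zero fun X _ => by_contra fun h => h3 ⟨X, by simpa using h⟩] at h5
      simpa [sub_eq_zero] using h5

lemma zs_card {Z : Finset I} {t : ℝ} (hZ : B.Adm Z) (h : zs z = Z) {i : I} (hi : i ∉ Z)
    (h1 : z i = t * B.π Z i) : (zs (z - t • B.π Z))ᶜ.card < (zs z)ᶜ.card := by
  refine card_lt_card (compl_ssubset_compl.2 ⟨fun j hj => mem_zs.2 ?_, fun h2 => hi ?_⟩)
  · simp [mem_zs.1 hj, (B.zero Z hZ j).2 (h ▸ hj)]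
  · exact h ▸ h2 (mem_zs.2 (by simp [h1]))

lemma exists_rep (hz : z ∈ B.U) (h0 : 0 ≤ z) : ∃ a, B.NRep z a ∧ Ch a := by
  induction h : (zs z)ᶜ.card using Nat.strong_induction_on generalizing z with
  | _ n ih =>
  by_cases h1 : z = 0
  · exact ⟨0, ⟨le_rfl, by simp, by simp [h1]⟩, fun _ _ h => absurd rfl h⟩
  have hZ := B.adm z hz h0 h1
  have hp : ∀ i ∉ zs z, 0 < B.π (zs z) i := fun i hi =>
    (B.nn _ hZ i).lt_of_ne' fun h => hi ((B.zero _ hZ i).1 h)
  obtain ⟨i, h2, h3⟩ := exists_min_image (zs z)ᶜ (fun i => z i / B.π (zs z) i)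
    ⟨B.o, mem_compl.2 fun h => by
      have := (B.zero _ hZ _).2 h
      rw [B.one _ hZ] at this
      exact one_ne_zero this⟩
  rw [mem_compl] at h2
  set t := z i / B.π (zs z) i with ht
  have h4 : 0 ≤ t := div_nonneg (h0 i) (hp i h2).le
  have h5 : 0 ≤ z - t • B.π (zs z) := fun j => by
    by_cases hj : j ∈ zs z
    · simp [mem_zs.1 hj, (B.zero _ hZ j).2 hj]
    · have := (le_div_iff₀ (hp j hj)).1 (h3 j (mem_compl.2 hj))
      simpa using this
  obtain ⟨a, h6, h7⟩ := ih _ (h ▸ zs_card hZ rfl h2 (by rw [ht, div_mul_cancel₀ _ (hp i h2).ne']))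
    (B.U.sub_mem hz (B.U.smul_mem _ (B.mem _ hZ))) h5 rfl
  have h8 := h6.add (nrep_single hZ h4)
  rw [sub_add_cancel] at h8
  refine ⟨_, h8, fun X Y hX hY => ?_⟩
  by_cases h9 : X = zs z
  · exact Or.inl (h9 ▸ h8.sub hY)
  by_cases h10 : Y = zs z
  · exact Or.inr (h10 ▸ h8.sub hX)
  exact h7 X Y (by simpa [h9] using hX) (by simpa [h10] using hY)

omit [DecidableEq I] in
lemma al_add (r : ℕ) (a b : Finset I → ℝ) : al r (a + b) = al r a + al r b := by
  simp only [al, ← sum_add_distrib]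
  exact sum_congr rfl fun Z _ => by split_ifs <;> simp

lemma al_single (r : ℕ) (Z : Finset I) (t : ℝ) :
    al r (Pi.single Z t) = if Z.card = r then t else 0 := by
  rw [al, sum_eq_single Z (fun Y _ h => by simp [h]) (by simp)]
  simp

lemma al_low (h : B.NRep z a) {r : ℕ} (hr : r ≤ (zs z).card) :
    al r a = if (zs z).card = r then a (zs z) else 0 := by
  rw [al, sum_eq_single (zs z) (fun Y _ h1 => ?_) (by simp)]
  split_ifs with h2
  · by_contra h3
    exact h1 (eq_of_subset_of_card_le (h.sub h3) (h2 ▸ hr)).symm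
  · rfl

theorem cmp (h : B.NRep z a) (h' : B.NRep z b) (hc : Ch b) : a = b ∨ Lx a b := by
  induction hn : (zs z)ᶜ.card using Nat.strong_induction_on generalizing z a b with
  | _ n ih =>
  by_cases h1 : z = 0
  · exact Or.inl ((h.eq_zero (by simp [h1])).trans (h'.eq_zero (by simp [h1])).symm)
  have hZ := B.adm z h.mem h.nonneg h1
  obtain ⟨i, h2, h3⟩ := rem_zero h' hc hZ Subset.rfl
  have h4 := h.diff (nrep_single hZ (h.1 _)) (single_le h.1 _)
  have h5 := h'.diff (nrep_single hZ (h'.1 _)) (single_le h'.1 _)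
  have h6 : a (zs z) ≤ b (zs z) := by
    have h7 := h4.nonneg i
    simp only [Pi.zero_apply, Pi.sub_apply, Pi.smul_apply, smul_eq_mul, h3, sub_nonneg] at h7
    exact le_of_mul_le_mul_right h7
      ((B.nn _ hZ i).lt_of_ne' fun h => h2 ((B.zero _ hZ i).1 h))
  rcases h6.lt_or_eq with h6 | h6
  · refine Or.inr ⟨(zs z).card, fun r hr => ?_, ?_⟩
    · rw [al_low h hr.le, al_low h' hr.le, if_neg hr.ne', if_neg hr.ne']
    · rwa [al_low h le_rfl, al_low h' le_rfl, if_pos rfl, if_pos rfl]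
  rw [h6] at h4
  rcases ih _ (hn ▸ zs_card hZ rfl h2 h3) h4 h5
    (hc.of_le h5.1 (sub_le_self _ (Pi.single_nonneg.2 (h'.1 _)))) rfl with h7 | ⟨r, h7, h8⟩
  · exact Or.inl (sub_left_injective h7)
  · have h9 : ∀ (r : ℕ) (a : Finset I → ℝ), al r a =
        al r (a - Pi.single (zs z) (b (zs z))) + al r (Pi.single (zs z) (b (zs z))) :=
      fun r a => by rw [← al_add, sub_add_cancel]
    refine Or.inr ⟨r, fun r' hr => ?_, ?_⟩
    · rw [h9 r' a, h9 r' b, h7 r' hr]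
    · rw [h9 r a, h9 r b]
      linarith

theorem rep_unique (h : B.NRep z a) (h' : B.NRep z b) (hc : Ch a) (hc' : Ch b) : a = b := by
  rcases cmp h h' hc' with h1 | ⟨r, h1, h2⟩
  · exact h1
  rcases cmp h' h hc with h3 | ⟨q, h3, h4⟩
  · exact h3.symm
  rcases lt_trichotomy r q with h5 | rfl | h5
  · exact absurd (h3 r h5) h2.ne'
  · exact absurd h4 h2.not_gt
  · exact absurd (h1 q h5) h4.ne'

lemma exists_le_sum {ι : Type} [Fintype ι] [DecidableEq ι] (f : ι → ℕ) :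
    ∀ c ≤ ∑ i, f i, ∃ g ≤ f, ∑ i, g i = c
  | 0, _ => ⟨0, fun _ => Nat.zero_le _, by simp⟩
  | c + 1, h => by
    obtain ⟨g, h1, h2⟩ := exists_le_sum f c (by omega)
    obtain ⟨i, -, h3⟩ := exists_lt_of_sum_lt (s := univ) (f := g) (g := f) (by omega)
    refine ⟨g + Pi.single i 1, fun j => ?_, by simp [sum_add_distrib, h2]⟩
    by_cases h4 : j = i
    · simpa [h4] using h3
    · simpa [h4] using h1 j

theorem exists_word {D c : ℕ} (hD : ∀ Z, B.Adm Z → Z.card ≤ D) (h : B.NRep z a) (hc : Ch a)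
    (h1 : (c + D : ℝ) ≤ z B.o) : ∃ k : Finset I → ℕ, ∑ Z, k Z = c ∧ ∀ Z, (k Z : ℝ) ≤ a Z := by
  classical
  let T := univ.filter fun Z => a Z ≠ 0
  have h2 : T.card ≤ D + 1 := by
    rw [← card_range (D + 1)]
    refine card_le_card_of_injOn card (fun Z hZ => ?_) fun X hX Y hY h3 => ?_
    · simpa [Nat.lt_succ_iff] using hD Z (h.2.1 Z (by simpa [T] using hZ))
    · exact (hc X Y (by simpa [T] using hX) (by simpa [T] using hY)).elim
        (fun h => eq_of_subset_of_card_le h h3.ge) fun h => (eq_of_subset_of_card_le h h3.le).symm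
  have h3 : c ≤ ∑ Z, ⌊a Z⌋₊ := by
    rcases T.eq_empty_or_nonempty with h4 | h4
    · have h5 : z B.o = 0 := by
        rw [h.total]
        exact sum_eq_zero fun Z _ => by_contra fun h5 => notMem_empty Z (h4 ▸ by simpa [T] using h5)
      have h6 : (c : ℝ) ≤ 0 := by linarith [(Nat.cast_nonneg D : (0 : ℝ) ≤ D)]
      have h7 : c = 0 := by exact_mod_cast le_antisymm h6 (Nat.cast_nonneg c)
      omega
    have h5 : ∑ Z ∈ T, a Z < ∑ Z ∈ T, ((⌊a Z⌋₊ : ℝ) + 1) :=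
      sum_lt_sum_of_nonempty h4 fun Z _ => Nat.lt_floor_add_one _
    rw [sum_add_distrib, sum_const, nsmul_eq_mul, mul_one, sum_filter_ne_zero, ← h.total,
      ← Nat.cast_sum] at h5
    have h6 : ∑ Z ∈ T, ⌊a Z⌋₊ ≤ ∑ Z, ⌊a Z⌋₊ := sum_le_sum_of_subset (subset_univ _)
    have h7 : ((c + D : ℕ) : ℝ) < ((∑ Z ∈ T, ⌊a Z⌋₊ + T.card : ℕ) : ℝ) := by
      push_cast at h5 ⊢
      linarith
    have h8 := Nat.cast_lt.1 h7
    omega
  obtain ⟨k, h4, h5⟩ := exists_le_sum _ c h3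
  exact ⟨k, h5, fun Z => (Nat.cast_le.2 (h4 Z)).trans (Nat.floor_le (h.1 Z))⟩

end Bary

end Pool.Agent.Lib.MP_b664fd_ag
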