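import Pool.Agent.Lib.MP_b664fd_ag.Alc

/-! Quadratic monomial algebras and quadratic Groebner bases in the bar complex. -/

open Finsupp

namespace Pool.Agent.Lib.MP_b664fd_ag

variable {K : Type} [Field K] {α : Type} [DecidableEq α]

/-- All pairs of the multiset are related. -/
def Cl (E : α → α → Prop) (a : Multiset α) : Prop := ∀ x ∈ a, ∀ y ∈ a.erase x, E x y

open Classical in
/-- Indicator of all cross pairs being related. -/
noncomputable def crs (K : Type) [Field K] (E : α → α → Prop) (a b : Multiset α) : K :=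
  if ∀ x ∈ a, ∀ y ∈ b, E x y then 1 else 0

/-- Words of nonempty cliques of total size at most `k`. -/
def CL (E : α → α → Prop) (k : ℕ) : Set (List (Multiset α)) :=
  {w | (∀ m ∈ w, Cl E m ∧ m ≠ 0) ∧ Multiset.card w.sum ≤ k}

/-- Words whose first letter meets `I`. -/
def Hd (I : Finset α) : Set (List (Multiset α)) := {w | ∃ a r, w = a :: r ∧ ∃ x ∈ a, x ∈ I}

variable {E : α → α → Prop}

omit [DecidableEq α] in
lemma crs_ne {a b : Multiset α} : crs K E a b ≠ 0 ↔ ∀ x ∈ a, ∀ y ∈ b, E x y := by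
  simp [crs]

omit [DecidableEq α] in
lemma crs_cocycle (a b c : Multiset α) :
    crs K E a b * crs K E (a + b) c = crs K E b c * crs K E a (b + c) := by
  have : ((∀ x ∈ a, ∀ y ∈ b, E x y) ∧ ∀ x ∈ a + b, ∀ y ∈ c, E x y) ↔
      ((∀ x ∈ b, ∀ y ∈ c, E x y) ∧ ∀ x ∈ a, ∀ y ∈ b + c, E x y) := by
    simp only [Multiset.mem_add, or_imp, forall_and]
    tauto
  simp only [crs, ite_mul, one_mul, zero_mul, ← ite_and]
  congr 1
  exact propext this

lemma cl_add (hE : ∀ x y, E x y → E y x) {a b : Multiset α} :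
    Cl E (a + b) ↔ Cl E a ∧ Cl E b ∧ ∀ x ∈ a, ∀ y ∈ b, E x y := by
  constructor
  · intro h
    refine ⟨fun x hx y hy => h x (by simp [hx]) y ?_, fun x hx y hy => h x (by simp [hx]) y ?_,
      fun x hx y hy => h x (by simp [hx]) y ?_⟩
    · rw [Multiset.erase_add_left_pos _ hx]; simp [hy]
    · rw [Multiset.erase_add_right_pos _ hx]; simp [hy]
    · rw [Multiset.erase_add_left_pos _ hx]; simp [hy]
  · rintro ⟨h1, h2, h3⟩ x hx y hy
    rcases Multiset.mem_add.1 hx with hx | hx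
    · rw [Multiset.erase_add_left_pos _ hx] at hy
      exact (Multiset.mem_add.1 hy).elim (h1 x hx y) (h3 x hx y)
    · rw [Multiset.erase_add_right_pos _ hx] at hy
      exact (Multiset.mem_add.1 hy).elim (fun h => hE _ _ (h3 y h x hx)) (h2 x hx y)

omit [DecidableEq α] in
lemma single_add_ne {x : α} {a : Multiset α} (ha : a ≠ 0) : {x} + a ≠ {x} := fun h =>
  ha (add_left_cancel (h.trans (add_zero _).symm))

lemma cl_single (x : α) : Cl E {x} := by
  intro y hy z hz
  rw [Multiset.mem_singleton.1 hy] at hz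
  simp at hz

lemma CL_closed (hE : ∀ x y, E x y → E y x) (k : ℕ) :
    ∀ w ∈ CL E k, Dd (crs K E) (single w 1) ∈ Sp K (CL E k) := by
  rintro w ⟨h1, h2⟩
  refine Dd_mem _ fun l a b r h4 h5 => ⟨fun m hm => ?_, by rwa [sum_merge, ← h4]⟩
  have ha := h1 a (by simp [h4])
  have hb := h1 b (by simp [h4])
  simp only [List.mem_append, List.mem_cons] at hm
  rcases hm with hm | rfl | hm
  · exact h1 m (by simp [h4, hm])
  · exact ⟨(cl_add hE).2 ⟨ha.1, hb.1, crs_ne.1 h5⟩, by simp [ha.2]⟩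
  · exact h1 m (by simp [h4, hm])

omit [DecidableEq α] in
lemma Hd_closed (μ : Multiset α → Multiset α → K) (I : Finset α) :
    ∀ w ∈ Hd I, Dd μ (single w 1) ∈ Sp K (Hd I) := by
  rintro w ⟨c, t, h2, x, h3, h4⟩
  refine Dd_mem μ fun l a b r h5 _ => ?_
  cases l with
  | nil =>
    obtain ⟨rfl, -⟩ := List.cons.inj (h2.symm.trans h5)
    exact ⟨_, _, rfl, x, by simp [h3], h4⟩
  | cons d l =>
    obtain ⟨rfl, -⟩ := List.cons.inj (h2.symm.trans h5)
    exact ⟨_, _, rfl, x, h3, h4⟩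

lemma mrg_single {M : Type} [AddCommMonoid M] (μ : M → M → K) (a b : M) (r : List M) :
    mrg μ a (single (b :: r) 1) = μ a b • single ((a + b) :: r) 1 := by simp [mrg]

lemma mrg_nil {M : Type} [AddCommMonoid M] (μ : M → M → K) (a : M) :
    mrg μ a (single [] 1) = 0 := by simp [mrg]

lemma mrg_apply {M : Type} [AddCancelCommMonoid M] (μ : M → M → K) (a b : M) (r : List M)
    (y : List M →₀ K) : mrg μ a y ((a + b) :: r) = μ a b * y (b :: r) := by
  classical
  refine lin_ext (lapply ((a + b) :: r) ∘ₗ mrg μ a) (μ a b • lapply (b :: r)) (fun w => ?_) y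
  rcases w with _ | ⟨c, t⟩
  · simp [mrg_nil]
  · simp only [LinearMap.comp_apply, mrg_single, lapply_apply, Finsupp.smul_apply, smul_eq_mul,
      LinearMap.smul_apply, single_apply, List.cons.injEq, add_right_inj]
    split_ifs with h
    · rw [h.1]
    · simp

lemma Ex.add_diag {M : Type} [AddCommMonoid M] {deg : M →+ ℤ} {μ : M → M → K} {X : Set (List M)}
    (h : Ex X (Dg deg 0) (Dd μ)) {t d : List M →₀ K} (ht : t ∈ Sp K X) (hd : d ∈ Sp K (Dg deg 0))
    (h0 : Dd μ (t + d) = 0) : ∃ u ∈ Sp K X, t + d - Dd μ u ∈ Sp K (Dg deg 0) := by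
  have e1 := pr_comm (X := Set.univ) (S := (Dg deg 0)ᶜ) (S' := (Dg deg 1)ᶜ) (Dd μ)
    (fun w _ => sp_to (Dg_sep (deg := deg) μ w) fun v hv => not_congr hv) (z := t + d)
    (sp_iff.2 fun _ _ => trivial)
  rw [h0, map_zero, map_add, pr_eq_zero (z := d) (by rwa [compl_compl]), add_zero] at e1
  obtain ⟨u, h1, h2⟩ := h _ (pr_mem' _ ht) e1.symm
  refine ⟨u, h1, ?_⟩
  have e2 := pr_add_compl (Dg deg 0) t
  have e3 : t + d - Dd μ u = pr (Dg deg 0) t + d + (pr (Dg deg 0)ᶜ t - Dd μ u) := by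
    conv_lhs => rw [← e2]
    abel
  rw [e3]
  exact add_mem (add_mem (sp_mono Set.inter_subset_right (pr_mem _ ht)) hd) h2

theorem clique_ex [Fintype α] (hE : ∀ x y, E x y → E y x) (k : ℕ) : ∀ I : Finset α,
    Ex (CL E k ∩ Hd I) (Dg (cardZ α) 0) (Dd (crs K E)) := by
  classical
  induction k with
  | zero =>
    refine fun I => Ex.of_subset ?_
    rintro _ ⟨⟨-, h1⟩, a, r, rfl, x, h2, -⟩
    have := Multiset.card_pos_iff_exists_mem.2 ⟨x, h2⟩
    simp only [List.sum_cons, Multiset.card_add] at h1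
    omega
  | succ k ih =>
  intro I
  induction I using Finset.induction_on with
  | empty =>
    refine Ex.of_subset ?_
    rintro w ⟨-, _, _, -, _, -, h⟩
    simp at h
  | insert x I hx ih2 =>
  intro z hz h0
  set μ := crs K E with hμ
  let dn : (List (Multiset α) →₀ K) →ₗ[K] (List (Multiset α) →₀ K) :=
    linearCombination K fun w => match w with
      | [] => 0
      | a :: r => if a = {x} then 0 else single (a.erase x :: r) 1
  have hq := pr_mem (Hd I)ᶜ hz
  set q := pr (Hd I)ᶜ z with hqd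
  have key : ∀ w ∈ CL E (k + 1) ∩ Hd (insert x I) ∩ (Hd I)ᶜ, ∃ a r, w = ({x} + a) :: r ∧
      Cl E a ∧ (∀ y ∈ a, E x y) ∧ (∀ m ∈ r, Cl E m ∧ m ≠ 0) ∧
      Multiset.card a + Multiset.card r.sum ≤ k := by
    rintro _ ⟨⟨⟨h1, h2⟩, a, r, rfl, y, h3, h4⟩, h5⟩
    obtain rfl : y = x := (Finset.mem_insert.1 h4).resolve_right fun h => h5 ⟨_, _, rfl, y, h3, h⟩
    obtain ⟨b, rfl⟩ := Multiset.exists_cons_of_mem h3
    have h6 := (cl_add hE (a := {y}) (b := b)).1 (h1 _ (by simp)).1
    refine ⟨b, r, rfl, h6.2.1, h6.2.2 y (by simp), fun m hm => h1 m (by simp [hm]), ?_⟩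
    simp only [List.sum_cons, Multiset.card_add, Multiset.card_cons] at h2
    omega
  have e1 : q = mrg μ {x} (dn q) + cons {x} (tl {x} q) := by
    refine map_eq_of_single LinearMap.id (mrg μ {x} ∘ₗ dn + cons {x} ∘ₗ tl {x}) (fun w hw => ?_) hq
    obtain ⟨a, r, rfl, h1, h2, -⟩ := key w hw
    by_cases ha : a = 0
    · subst ha
      simp only [add_zero, LinearMap.id_apply, LinearMap.add_apply, LinearMap.comp_apply, dn,
        linearCombination_single, if_true, smul_zero, map_zero, zero_add]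
      rw [single_cons, tl_cons]
    · have h3 := single_add_ne (x := x) ha
      simp only [LinearMap.id_apply, LinearMap.add_apply, LinearMap.comp_apply, dn,
        linearCombination_single, if_neg h3, one_smul]
      rw [single_cons (_ + _), tl_cons_ne h3, map_zero, add_zero, Multiset.singleton_add,
        Multiset.erase_cons_head, mrg_single, hμ, crs, if_pos (by simpa using h2), one_smul,
        ← single_cons, Multiset.singleton_add]
  have e2 : dn q ∈ Sp K (CL E k) := by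
    refine map_mem_of_single dn _ (fun w hw => ?_) hq
    obtain ⟨a, r, rfl, h1, h2, h3, h4⟩ := key w hw
    simp only [dn, linearCombination_single, one_smul]
    split_ifs with h5
    · exact zero_mem _
    · rw [Multiset.singleton_add, Multiset.erase_cons_head]
      refine sp_single ?_ _
      exact ⟨List.forall_mem_cons.2 ⟨⟨h1, by rintro rfl; simp at h5⟩, h3⟩, by simpa⟩
  have e3 : tl {x} q ∈ Sp K (CL E k) := by
    refine map_mem_of_single (tl {x}) _ (fun w hw => ?_) hq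
    obtain ⟨a, r, rfl, h1, h2, h3, h4⟩ := key w hw
    by_cases ha : a = 0
    · subst ha
      rw [add_zero, single_cons, tl_cons]
      refine sp_single ?_ _
      exact ⟨h3, by simpa using h4⟩
    · rw [single_cons, tl_cons_ne (single_add_ne ha)]
      exact zero_mem _
  have e4 : ∀ u ∈ Sp K (CL E k), cons {x} u ∈ Sp K (CL E (k + 1) ∩ Hd (insert x I)) := by
    intro u hu
    refine sp_to (cons_mem _ hu) ?_
    rintro _ ⟨r, ⟨h1, h2⟩, rfl⟩
    refine ⟨⟨List.forall_mem_cons.2 ⟨⟨cl_single x, by simp⟩, h1⟩, ?_⟩, _, _, rfl, x, by simp, by simp⟩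
    simp only [List.sum_cons, Multiset.card_add, Multiset.card_singleton]
    omega
  set y := tl {x} q + Dd μ (dn q) with hy
  have e5 : y ∈ Sp K (CL E k) :=
    add_mem e3 (map_mem_of_single _ _ (CL_closed hE k) e2)
  have e6 : z - Dd μ (cons {x} (dn q)) = pr (Hd I) z + cons {x} y := by
    rw [Dd_cons, hy, map_add]
    conv_lhs => rw [← pr_add_compl (Hd I) z, ← hqd]
    conv_lhs => enter [1, 2]; rw [e1]
    abel
  have hdd := Dd_Dd μ crs_cocycle
  have e7 : Dd μ (pr (Hd I) z) + (mrg μ {x} y - cons {x} (Dd μ y)) = 0 := by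
    rw [← Dd_cons, ← map_add, ← e6, map_sub, h0, hdd, sub_zero]
  have e8 : Dd μ (pr (Hd I) z) ∈ Sp K (Hd I) :=
    map_mem_of_single _ _ (fun w hw => Hd_closed μ I w hw.2) (pr_mem _ hz)
  have e9 : Dd μ y = 0 := by
    have := congrArg (tl {x}) e7
    rw [map_add, map_sub, tl_cons, tl_eq_zero (sp_to e8 ?_), tl_eq_zero
      (map_mem_of_single (mrg μ {x}) _ (fun w hw => ?_) e5)] at this
    · simpa using this
    · rcases w with _ | ⟨a, r⟩
      · simp [mrg_nil]
      · rw [mrg_single]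
        refine Submodule.smul_mem _ _ (sp_single ?_ _)
        exact fun h => single_add_ne (hw.1 a (by simp)).2 (by simpa using h)
    · rintro _ ⟨a, r, rfl, t, h1, h2⟩ h3
      obtain rfl : a = {x} := by simpa using h3
      exact hx (Multiset.mem_singleton.1 h1 ▸ h2)
  set C := I ∪ Finset.univ.filter fun t => ¬E x t with hC
  have e10 : y ∈ Sp K (insert [] (CL E k ∩ Hd C)) := by
    refine sp_iff.2 fun w hw => ?_
    rcases w with _ | ⟨a, r⟩
    · exact Or.inl rfl
    refine Or.inr ⟨sp_iff.1 e5 _ hw, _, _, rfl, ?_⟩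
    by_contra h1
    have h2 : ∀ t ∈ a, t ∉ I ∧ E x t := fun t ht => by
      have : t ∉ C := fun h => h1 ⟨t, ht, h⟩
      simpa [hC] using this
    rw [e9, map_zero, sub_zero, add_eq_zero_iff_neg_eq] at e7
    have h3 := mrg_apply μ {x} a r y
    rw [← e7, hμ, crs, if_pos (by simpa using fun t ht => (h2 t ht).2), one_mul] at h3
    obtain ⟨_, _, h4, t, h5, h6⟩ := sp_iff.1 (neg_mem e8) _ (h3 ▸ hw)
    rw [← (List.cons.inj h4).1] at h5
    rcases Multiset.mem_add.1 h5 with h7 | h7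
    · exact hx (Multiset.mem_singleton.1 h7 ▸ h6)
    · exact (h2 t h7).1 h6
  obtain ⟨u, h1, h2⟩ := ((ih C).insert (w := []) (by simp [Dg]) (by simp)) y e10 e9
  have e11 : u ∈ Sp K (CL E k) := by
    refine sp_to h1 ?_
    rintro _ (rfl | hv)
    · exact ⟨by simp, by simp⟩
    · exact hv.1
  have e12 : mrg μ {x} u ∈ Sp K (CL E (k + 1) ∩ Hd I) := by
    refine map_mem_of_single _ _ ?_ h1
    rintro _ (rfl | ⟨⟨h3, h4⟩, a, r, rfl, t, h5, h6⟩)
    · simp [mrg_nil]
    rw [mrg_single]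
    by_cases h7 : μ {x} a = 0
    · simp [h7]
    have h8 := crs_ne.1 h7
    refine Submodule.smul_mem _ _ (sp_single ?_ _)
    refine ⟨⟨List.forall_mem_cons.2 ⟨⟨(cl_add hE).2
      ⟨cl_single x, (h3 a (by simp)).1, h8⟩, by simp⟩, fun m hm => h3 m (by simp [hm])⟩, ?_⟩,
      _, _, rfl, t, by simp [h5], ?_⟩
    · simp only [List.sum_cons, Multiset.card_add, Multiset.card_singleton] at h4 ⊢
      omega
    · simpa [hC, h8 x (by simp) t h5] using h6
  have e13 : cons {x} (y - Dd μ u) ∈ Sp K (Dg (cardZ α) 0) := by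
    refine sp_to (cons_mem _ h2) ?_
    rintro _ ⟨r, h3, rfl⟩
    simp only [Dg, Set.mem_ofPred_eq, List.sum_cons, map_add, List.length_cons] at h3 ⊢
    rw [h3, cardZ_apply, Multiset.card_singleton]
    omega
  have e14 : z - Dd μ (cons {x} (dn q - u)) =
      pr (Hd I) z + mrg μ {x} u + cons {x} (y - Dd μ u) := by
    rw [map_sub, map_sub, ← sub_add, e6, Dd_cons, map_sub]
    abel
  obtain ⟨u', h3, h4⟩ := ih2.add_diag (add_mem (sp_to (pr_mem (Hd I) hz) fun v hv => ⟨hv.1.1, hv.2⟩)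
    e12) e13 (by rw [← e14, map_sub, h0, hdd, sub_zero])
  refine ⟨cons {x} (dn q - u) + u', add_mem ?_ (sp_to h3 ?_), by rwa [map_add, ← sub_sub, e14]⟩
  · exact e4 _ (sub_mem e2 e11)
  · rintro _ ⟨h5, a, r, rfl, t, h6, h7⟩
    exact ⟨h5, a, r, rfl, t, h6, Finset.mem_insert_of_mem h7⟩

/-- Lexicographic comparison of additive weights. -/
def WLt (w : ℕ → α → ℝ) (s t : Multiset α) : Prop :=
  ∃ r, (∀ r' < r, (s.map (w r')).sum = (t.map (w r')).sum) ∧ (s.map (w r)).sum < (t.map (w r)).sum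

omit [DecidableEq α] in
lemma WLt.trans {w : ℕ → α → ℝ} {s t u : Multiset α} (h1 : WLt w s t) (h2 : WLt w t u) :
    WLt w s u := by
  obtain ⟨r, a1, a2⟩ := h1
  obtain ⟨q, b1, b2⟩ := h2
  rcases lt_trichotomy r q with h | rfl | h
  · exact ⟨r, fun r' hr => (a1 r' hr).trans (b1 r' (hr.trans h)), a2.trans_eq (b1 r h)⟩
  · exact ⟨r, fun r' hr => (a1 r' hr).trans (b1 r' hr), a2.trans b2⟩
  · exact ⟨q, fun r' hr => (a1 r' (hr.trans h)).trans (b1 r' hr), (a1 q h).trans_lt b2⟩

omit [DecidableEq α] in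
lemma WLt.add {w : ℕ → α → ℝ} {s t : Multiset α} (h : WLt w s t) (u : Multiset α) :
    WLt w (s + u) (t + u) := by
  obtain ⟨r, a1, a2⟩ := h
  refine ⟨r, fun r' hr => ?_, ?_⟩ <;> simp only [Multiset.map_add, Multiset.sum_add]
  · rw [a1 r' hr]
  · linarith

/-- The number of smaller multisets of the same size. -/
noncomputable def wrk (w : ℕ → α → ℝ) (s : Multiset α) : ℕ :=
  {t | Multiset.card t = Multiset.card s ∧ WLt w t s}.ncard

omit [DecidableEq α] in
lemma wrk_lt [Finite α] {w : ℕ → α → ℝ} {s t : Multiset α} (h : WLt w s t)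
    (hc : Multiset.card s = Multiset.card t) : wrk w s < wrk w t := by
  refine Set.ncard_lt_ncard ⟨fun u hu => ⟨hu.1.trans hc, hu.2.trans h⟩, fun h1 => ?_⟩ ?_
  · obtain ⟨r, -, h2⟩ := (h1 ⟨hc, h⟩).2
    exact lt_irrefl _ h2
  · refine ((List.finite_length_eq α (Multiset.card t)).image Multiset.ofList).subset ?_
    rintro u ⟨h1, -⟩
    obtain ⟨l, rfl⟩ := Quotient.exists_rep u
    exact ⟨l, h1, rfl⟩

theorem Good.of_pairs {M : Type} [AddCommMonoid M] {deg : M →+ ℤ} {A : Set M} [DecidableEq A]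
    (hA : ∀ a ∈ A, deg a = 1) (hfin : A.Finite) (E : A → A → Prop) (hE : ∀ x y, E x y → E y x)
    (w : ℕ → A → ℝ)
    (ha : ∀ x y, ¬E x y → ∃ x' y' : A, (x' : M) + y' = x + y ∧ WLt w {x', y'} {x, y})
    (hb : ∀ s t, Cl E s → Cl E t → tot A s = tot A t → s = t) : Good K deg A := by
  classical
  have := hfin.fintype
  intro g hg
  have hc : ∀ s t : Multiset A, tot A s = tot A t → Multiset.card s = Multiset.card t :=
    fun s t h => by
      have := deg_tot hA s
      rw [h, deg_tot hA, cardZ_apply, cardZ_apply] at this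
      omega
  have red : ∀ s : Multiset A, ∃ t, Cl E t ∧ tot A t = tot A s ∧ (t = s ∨ WLt w t s) := fun s => by
    induction h : wrk w s using Nat.strong_induction_on generalizing s with
    | _ n ih =>
    by_cases h1 : Cl E s
    · exact ⟨s, h1, rfl, Or.inl rfl⟩
    simp only [Cl, not_forall] at h1
    obtain ⟨x, hx, y, hy, h1⟩ := h1
    obtain ⟨x', y', h2, h3⟩ := ha x y h1
    obtain ⟨s, rfl⟩ := Multiset.exists_cons_of_mem hx
    rw [Multiset.erase_cons_head] at hy
    obtain ⟨s, rfl⟩ := Multiset.exists_cons_of_mem hy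
    have h4 : WLt w (x' ::ₘ y' ::ₘ s) (x ::ₘ y ::ₘ s) := by simpa using h3.add s
    have h5 : tot A (x' ::ₘ y' ::ₘ s) = tot A (x ::ₘ y ::ₘ s) := by
      simp only [tot_cons, ← add_assoc, h2]
    obtain ⟨t, h6, h7, h8⟩ := ih _ (h ▸ wrk_lt h4 (hc _ _ h5)) _ rfl
    exact ⟨t, h6, h7.trans h5, Or.inr (h8.elim (fun h => h ▸ h4) fun h => h.trans h4)⟩
  have ex : ∀ m ∈ AddSubmonoid.closure A, ∃ t, Cl E t ∧ tot A t = m := fun m hm => by
    obtain ⟨s, rfl⟩ := mem_closure_iff.1 hm
    obtain ⟨t, h1, h2, -⟩ := red s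
    exact ⟨t, h1, h2⟩
  choose! nf nf1 nf2 using ex
  have nf3 : ∀ t, Cl E t → nf (tot A t) = t := fun t ht =>
    hb _ _ (nf1 _ (mem_closure_iff.2 ⟨t, rfl⟩)) ht (nf2 _ (mem_closure_iff.2 ⟨t, rfl⟩))
  have e2 : ∀ s : Multiset A, (∃ x ∈ s, 0 < g x) ↔ 0 < g (tot A s) := fun s => by
    induction s using Multiset.induction_on with
    | empty => simp
    | cons a s ih =>
      have h1 := hg a a.2
      have h2 := nonneg_closure hg (mem_closure_iff.2 ⟨s, rfl⟩)
      have h3 : g (tot A (a ::ₘ s)) = g a + g (tot A s) := by simp [tot_apply]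
      simp only [Multiset.mem_cons, exists_eq_or_imp, ih, h3]
      omega
  let μ : M → M → K := fun a b => crs K E (nf a) (nf b)
  have e3 : ∀ (l r : List M) (a b : M), (((l ++ a :: b :: r).map nf).sum =
      (nf a + nf b) + ((l ++ r).map nf).sum) ∧
      ((l ++ (a + b) :: r).map nf).sum = nf (a + b) + ((l ++ r).map nf).sum := fun l r a b => by
    constructor <;> simp only [List.map_append, List.map_cons, List.sum_append, List.sum_cons] <;>
      abel
  refine Ex.filt (b₀ := Dd μ) (D₁ := Dg deg 1) (fun v => wrk w (v.map nf).sum)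
    (Wd_closed fun a _ b hb h _ => by
      have := nonneg_closure hg hb
      rw [map_add]; omega)
    (Dd_Dd _ fun _ _ _ => rfl) (fun v hv => Dd_mem _ fun l a b r h3 h4 => ?_) (fun v hv => ?_)
    (fun w _ => Dg_sep _ w) (Ex.of_bdd (fun v => deg v.sum - 1) fun k => ?_)
  · have h1 := (hv.1 a (by simp [h3])).1
    have h2 := (hv.1 b (by simp [h3])).1
    have h5 := nf3 _ ((cl_add hE).2 ⟨nf1 a h1, nf1 b h2, crs_ne.1 h4⟩)
    rw [map_add, nf2 a h1, nf2 b h2] at h5
    rw [Set.mem_ofPred_eq, h3, (e3 l r a b).1, (e3 l r a b).2, h5]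
  · rw [Dd_sub_single]
    refine Dd_mem _ fun l a b r h3 h4 => ?_
    have h1 := (hv.1 a (by simp [h3])).1
    have h2 := (hv.1 b (by simp [h3])).1
    obtain ⟨t, h5, h6, h7⟩ := red (nf a + nf b)
    have h8 := nf3 t h5
    rw [h6, map_add, nf2 a h1, nf2 b h2] at h8
    rw [Set.mem_ofPred_eq, h3, (e3 l r a b).1, (e3 l r a b).2, h8]
    refine wrk_lt ((h7.resolve_left ?_).add _) (by simp [hc _ _ h6])
    rintro rfl
    exact h4 (by
      simp only [μ, Pi.sub_apply, Pi.one_apply]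
      rw [crs, if_pos ((cl_add hE).1 h5).2.2, sub_self])
  have hinj : ∀ v : List (Multiset A), (∀ m ∈ v, Cl E m) → (v.map (tot A)).map nf = v :=
    fun v hv => by
      rw [List.map_map]
      exact (List.map_congr_left fun m hm => nf3 m (hv m hm)).trans (List.map_id _)
  convert (clique_ex (K := K) hE k (Finset.univ.filter fun a : A => 0 < g a)).map
    (D' := Dg deg 0) (b' := Dd μ) (List.map (tot A))
    (fun v hv v' hv' h => by
      rw [← hinj v fun m hm => (hv.1.1 m hm).1, h, hinj v' fun m hm => (hv'.1.1 m hm).1])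
    (fun v hv => sp_inter (CL_closed hE k v hv.1) (Hd_closed _ _ v hv.2))
    (fun v hv => by
      rw [Dd_single, bd_map, ← Dd_single, Dd_congr _ (crs K E) fun a ha b hb => ?_]
      simp only [μ, nf3 a (hv.1.1 a ha).1, nf3 b (hv.1.1 b hb).1])
    fun v _ hv => by
      rw [Dg, Set.mem_ofPred_eq, ← map_list_sum, deg_tot hA, List.length_map]
      exact hv
  ext v
  constructor
  · rintro ⟨⟨h1, a, r, rfl, h2⟩, h3⟩
    have h4 : ((a :: r).map nf).map (tot A) = a :: r := by
      rw [List.map_map]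
      exact (List.map_congr_left fun m hm => nf2 m (h1 m hm).1).trans (List.map_id _)
    refine ⟨(a :: r).map nf, ⟨⟨fun s hs => ?_, ?_⟩, _, _, rfl, ?_⟩, h4⟩
    · obtain ⟨m, hm, rfl⟩ := List.mem_map.1 hs
      refine ⟨nf1 m (h1 m hm).1, fun h => ?_⟩
      have := (h1 m hm).2
      rw [← nf2 m (h1 m hm).1, h] at this
      simp at this
    · rw [Set.mem_ofPred_eq, ← h4, ← map_list_sum, deg_tot hA, cardZ_apply] at h3
      omega
    · rw [← nf2 a (h1 a (by simp)).1, ← e2] at h2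
      simpa using h2
  · rintro ⟨_, ⟨⟨h1, h3⟩, a, r, rfl, h2⟩, rfl⟩
    refine ⟨⟨fun m hm => ?_, _, _, rfl, (e2 a).1 (by simpa using h2)⟩, ?_⟩
    · obtain ⟨s, h3, rfl⟩ := List.mem_map.1 hm
      refine ⟨mem_closure_iff.2 ⟨s, rfl⟩, ?_⟩
      have := Multiset.card_pos.2 (h1 s h3).2
      rw [deg_tot hA, cardZ_apply]
      omega
    · rw [Set.mem_ofPred_eq, ← map_list_sum, deg_tot hA, cardZ_apply]
      omega

end Pool.Agent.Lib.MP_b664fd_ag
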