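import Pool.Agent.Lib.MP_b664fd_ag.H10Bary

/-! A dilated polytope times a simplex has a quadratic Groebner basis. -/

set_option linter.unusedSectionVars false

open Finset

namespace Pool.Agent.Lib.MP_b664fd_ag

variable {K : Type} [Field K]

section Nice

variable {M N : Type} [AddCommMonoid M] [AddCommMonoid N]

/-- Generated in degree one, with diagonal bar homology. -/
def Nice (K : Type) [Field K] (deg : M →+ ℤ) (S : AddSubmonoid M) : Prop :=
  S ≤ AddSubmonoid.closure (S ∩ {a | deg a = 1}) ∧ Good K deg (S ∩ {a | deg a = 1})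

theorem Good.map {deg : M →+ ℤ} {A : Set N} (f : N →+ M)
    (hf : Set.InjOn f (AddSubmonoid.closure A)) (h : Good K (deg.comp f) A) :
    Good K deg (f '' A) := by
  intro g hg
  have hg' : ∀ a ∈ A, 0 ≤ g.comp f a := fun a ha => hg _ ⟨a, ha, rfl⟩
  have hinj : ∀ v v' : List N, (∀ m ∈ v, m ∈ AddSubmonoid.closure A) →
      (∀ m ∈ v', m ∈ AddSubmonoid.closure A) → v.map f = v'.map f → v = v' := by
    intro v
    induction v with
    | nil => exact fun v' _ _ h => by simpa using h.symm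
    | cons a v ih =>
      rintro (_ | ⟨b, v'⟩) h1 h2 h3
      · simp at h3
      · simp only [List.map_cons, List.cons.injEq] at h3
        rw [hf (h1 a (by simp)) (h2 b (by simp)) h3.1,
          ih v' (fun m hm => h1 m (by simp [hm])) (fun m hm => h2 m (by simp [hm])) h3.2]
  convert (h _ hg').map (D' := Dg deg 0) (b' := Dd (1 : M → M → K)) (List.map f)
    (fun v hv v' hv' => hinj v v' (fun m hm => (hv.1 m hm).1) fun m hm => (hv'.1 m hm).1)
    (Wd_closed fun a _ b hb h _ => by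
      have := nonneg_closure hg' hb
      rw [map_add]; omega)
    (fun w _ => by rw [Dd_single, Dd_single, bd_map]; rfl)
    fun w _ hw => by
      rw [Dg, Set.mem_ofPred_eq, ← map_list_sum, List.length_map]
      exact hw
  rw [← AddMonoidHom.map_mclosure]
  ext w
  constructor
  · rintro ⟨h1, a, r, rfl, h2⟩
    choose! σ hσ1 hσ2 using fun m (hm : m ∈ (AddSubmonoid.closure A).map f) =>
      AddSubmonoid.mem_map.1 hm
    refine ⟨(a :: r).map σ, ⟨fun s hs => ?_, _, _, rfl, ?_⟩, ?_⟩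
    · obtain ⟨m, hm, rfl⟩ := List.mem_map.1 hs
      exact ⟨hσ1 m (h1 m hm).1, by rw [AddMonoidHom.comp_apply, hσ2 m (h1 m hm).1]; exact (h1 m hm).2⟩
    · rwa [← hσ2 a (h1 a (by simp)).1] at h2
    · rw [List.map_map]
      exact (List.map_congr_left fun m hm => hσ2 m (h1 m hm).1).trans (List.map_id _)
  · rintro ⟨_, ⟨h1, a, r, rfl, h2⟩, rfl⟩
    refine ⟨fun m hm => ?_, _, _, rfl, h2⟩
    obtain ⟨s, h3, rfl⟩ := List.mem_map.1 hm
    exact ⟨⟨s, (h1 s h3).1, rfl⟩, (h1 s h3).2⟩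

lemma Nice.closure {deg : M →+ ℤ} {S : AddSubmonoid M} (h : Nice K deg S) :
    AddSubmonoid.closure (S ∩ {a | deg a = 1}) = S :=
  le_antisymm (AddSubmonoid.closure_le.2 Set.inter_subset_left) h.1

theorem Nice.map {deg : M →+ ℤ} {deg' : N →+ ℤ} {S : AddSubmonoid M} {T : AddSubmonoid N}
    (h : Nice K deg' T) (f : N →+ M) (hd : ∀ x, deg (f x) = deg' x) (hf : Set.InjOn f T)
    (hS : ∀ m, m ∈ S ↔ ∃ x ∈ T, f x = m) : Nice K deg S := by
  have h1 : (S : Set M) ∩ {a | deg a = 1} = f '' (T ∩ {a | deg' a = 1}) := by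
    ext m
    constructor
    · rintro ⟨h1, h2⟩
      obtain ⟨x, h3, rfl⟩ := (hS m).1 h1
      exact ⟨x, ⟨h3, (hd x).symm.trans h2⟩, rfl⟩
    · rintro ⟨x, ⟨h1, h2⟩, rfl⟩
      exact ⟨(hS _).2 ⟨x, h1, rfl⟩, (hd x).trans h2⟩
  rw [Nice, h1, ← AddMonoidHom.map_mclosure, h.closure]
  refine ⟨fun m hm => (hS m).1 hm, Good.map f (h.closure.symm ▸ hf) ?_⟩
  rw [show deg.comp f = deg' from AddMonoidHom.ext hd]
  exact h.2

theorem Nice.cut {deg : M →+ ℤ} {S S₁ S₂ : AddSubmonoid M} (χ : M →+ ℤ)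
    (h1 : ∀ m, m ∈ S₁ ↔ m ∈ S ∧ 0 ≤ χ m) (h2 : ∀ m, m ∈ S₂ ↔ m ∈ S ∧ 0 ≤ (-χ) m)
    (n1 : Nice K deg S₁) (n2 : Nice K deg S₂) : Nice K deg S := by
  have e1 : (S : Set M) ∩ {a | deg a = 1} ∩ {a | 0 ≤ χ a} = (S₁ : Set M) ∩ {a | deg a = 1} := by
    ext m
    simp only [Set.mem_inter_iff, SetLike.mem_coe, h1, Set.mem_ofPred_eq]
    tauto
  have e2 : (S : Set M) ∩ {a | deg a = 1} ∩ {a | 0 ≤ (-χ) a} = (S₂ : Set M) ∩ {a | deg a = 1} := by
    ext m
    simp only [Set.mem_inter_iff, SetLike.mem_coe, h2, Set.mem_ofPred_eq]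
    tauto
  have e3 : S ≤ AddSubmonoid.closure (S ∩ {a | deg a = 1}) := fun m hm => by
    rcases le_total 0 (χ m) with h | h
    · exact AddSubmonoid.closure_mono (e1 ▸ Set.inter_subset_left) (n1.1 ((h1 m).2 ⟨hm, h⟩))
    · exact AddSubmonoid.closure_mono (e2 ▸ Set.inter_subset_left)
        (n2.1 ((h2 m).2 ⟨hm, by simpa using h⟩))
  have e4 := le_antisymm (AddSubmonoid.closure_le.2 Set.inter_subset_left) e3
  exact ⟨e3, Good.cut χ (by rw [e1, n1.closure, e4]; exact h1) (by rw [e2, n2.closure, e4]; exact h2)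
    (e1 ▸ n1.2) (e2 ▸ n2.2)⟩

theorem Nice.of_zero {deg : M →+ ℤ} {S : AddSubmonoid M} (h : ∀ m ∈ S, m = 0) : Nice K deg S := by
  refine ⟨fun m hm => h m hm ▸ zero_mem _, fun g _ => Ex.of_subset ?_⟩
  rintro _ ⟨h1, a, r, rfl, -⟩
  have h2 := h1 a (by simp)
  rw [h a (AddSubmonoid.closure_le.2 Set.inter_subset_left h2.1)] at h2
  simp at h2

end Nice

variable {I J : Type} [Fintype I] [DecidableEq I] [Fintype J] [DecidableEq J]

/-- Cast of an integer vector. -/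
def cst (y : I → ℤ) : I → ℝ := fun i => y i

/-- Total degree. -/
def dg (X J : Type) [AddCommMonoid X] [Fintype J] : X × (J → ℤ) →+ ℤ where
  toFun x := ∑ j, x.2 j
  map_zero' := by simp
  map_add' x y := by simp [sum_add_distrib]

lemma dg_apply {X : Type} [AddCommMonoid X] (x : X × (J → ℤ)) : dg X J x = ∑ j, x.2 j := rfl

lemma cst_add (x y : I → ℤ) : cst (x + y) = cst x + cst y := funext fun i => by simp [cst]

lemma cst_sub (x y : I → ℤ) : cst (x - y) = cst x - cst y := funext fun i => by simp [cst]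

lemma cst_inj {x y : I → ℤ} (h : cst x = cst y) : x = y :=
  funext fun i => Int.cast_injective (congrFun h i)

lemma cst_nonneg {x : I → ℤ} : 0 ≤ cst x ↔ 0 ≤ x :=
  forall_congr' fun i => by simp [cst]

lemma exists_single {m : J → ℤ} (h0 : 0 ≤ m) (h1 : ∑ j, m j = 1) : ∃ j, m = Pi.single j 1 := by
  obtain ⟨j, -, h2⟩ := exists_lt_of_sum_lt (s := univ) (f := fun _ => 0) (g := m) (by simp [h1])
  have h3 : 0 ≤ m - Pi.single j 1 := fun i => by
    by_cases h : i = j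
    · simp [h]; omega
    · simpa [h] using h0 i
  have h4 := (sum_eq_zero_iff_of_nonneg fun i _ => h3 i).1
    (by simp [h1] : ∑ i, (m - Pi.single j 1 : J → ℤ) i = 0)
  exact ⟨j, sub_eq_zero.1 (funext fun i => h4 i (mem_univ _))⟩

/-- Lattice data on top of barycentric data. -/
structure LBary (I : Type) [Fintype I] extends Bary I where
  L : AddSubgroup (I → ℤ)
  D : ℕ
  inU : ∀ y ∈ L, cst y ∈ U
  lat : ∀ Z, Adm Z → ∃ p ∈ L, cst p = π Z
  card : ∀ Z, Adm Z → Z.card ≤ D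

namespace LBary

open Bary

variable (B : LBary I) (c : ℕ) (J : Type) [Fintype J] [DecidableEq J]

/-- The monoid of the `c`-th dilation times a simplex. -/
def S : AddSubmonoid ((I → ℤ) × (J → ℤ)) where
  carrier := {x | x.1 ∈ B.L ∧ 0 ≤ x.1 ∧ 0 ≤ x.2 ∧ x.1 B.o = c * ∑ j, x.2 j}
  zero_mem' := ⟨zero_mem _, le_rfl, le_rfl, by simp⟩
  add_mem' := fun h1 h2 => ⟨add_mem h1.1 h2.1, add_nonneg h1.2.1 h2.2.1,
    add_nonneg h1.2.2.1 h2.2.2.1, by simp [h1.2.2.2, h2.2.2.2, sum_add_distrib, mul_add]⟩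

open Classical in
/-- Barycentric coordinates of a lattice point. -/
noncomputable def co (y : I → ℤ) : Finset I → ℝ :=
  if h : ∃ a, B.NRep (cst y) a ∧ Ch a then h.choose else 0

/-- All coordinates are natural numbers. -/
def Pure (y : I → ℤ) : Prop := ∀ Z, ∃ k : ℕ, B.co y Z = k

/-- The relation of standard pairs, without the class. -/
def Arr (y y' : I → ℤ) : Prop :=
  Ch (B.co y + B.co y') ∧ B.Pure y' ∧ ∀ Z Z', 1 ≤ B.co y Z → B.co y' Z' ≠ 0 → Z ⊆ Z'

variable {B c J} {y y' : I → ℤ}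

lemma co_spec (h : y ∈ B.L) (h0 : 0 ≤ y) : B.NRep (cst y) (B.co y) ∧ Ch (B.co y) := by
  have := exists_rep (B.inU y h) (cst_nonneg.2 h0)
  rw [co, dif_pos this]
  exact this.choose_spec

lemma co_eq {a : Finset I → ℝ} (h : B.NRep (cst y) a) (hc : Ch a) : B.co y = a := by
  have : ∃ a, B.NRep (cst y) a ∧ Ch a := ⟨a, h, hc⟩
  rw [co, dif_pos this]
  exact rep_unique this.choose_spec.1 h this.choose_spec.2 hc

lemma exists_lat {k : Finset I → ℕ} (h : ∀ Z, k Z ≠ 0 → B.Adm Z) :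
    ∃ u ∈ B.L, cst u = ∑ Z, (k Z : ℝ) • B.π Z := by
  choose! p h1 h2 using B.lat
  refine ⟨∑ Z, k Z • p Z, sum_mem fun Z _ => ?_, funext fun i => ?_⟩
  · by_cases hZ : k Z = 0
    · simp [hZ]
    · exact nsmul_mem (h1 Z (h Z hZ)) _
  · simp only [cst, Finset.sum_apply, Pi.smul_apply, Int.cast_sum, smul_eq_mul]
    refine sum_congr rfl fun Z _ => ?_
    by_cases hZ : k Z = 0
    · simp [hZ]
    · rw [← h2 Z (h Z hZ), cst]
      simp

lemma take (h : y ∈ B.L) (h0 : 0 ≤ y) {k : Finset I → ℕ} (hk : ∀ Z, (k Z : ℝ) ≤ B.co y Z) :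
    ∃ u ∈ B.L, 0 ≤ u ∧ u ≤ y ∧ u B.o = ∑ Z, k Z ∧ (B.co u = fun Z => (k Z : ℝ)) ∧
      B.co (y - u) = B.co y - B.co u := by
  obtain ⟨h1, h2⟩ := co_spec h h0
  obtain ⟨u, h3, h4⟩ := exists_lat (B := B) (k := k) fun Z hZ => h1.2.1 Z fun h5 => by
    have := hk Z
    rw [h5] at this
    exact hZ (by exact_mod_cast le_antisymm this (Nat.cast_nonneg _))
  have h5 := h1.of_le (b := fun Z => (k Z : ℝ)) (fun Z => Nat.cast_nonneg _) hk
  rw [← h4] at h5
  have h6 := h1.diff h5 hk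
  rw [← cst_sub] at h6
  have h7 := co_eq h5 (h2.of_le h5.1 hk)
  refine ⟨u, h3, cst_nonneg.1 h5.nonneg, sub_nonneg.1 (cst_nonneg.1 h6.nonneg), ?_, h7, ?_⟩
  · have := h5.total
    rw [cst] at this
    exact_mod_cast this
  · rw [h7]
    exact co_eq h6 (h2.of_le h6.1 (sub_le_self _ h5.1))

lemma split (hc : B.D ≤ c) (h : y ∈ B.L) (h0 : 0 ≤ y) (h1 : 2 * (c : ℤ) ≤ y B.o) :
    ∃ u ∈ B.L, 0 ≤ u ∧ u ≤ y ∧ u B.o = c ∧ B.Pure u ∧ B.co (y - u) = B.co y - B.co u := by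
  obtain ⟨h2, h3⟩ := co_spec h h0
  obtain ⟨k, h4, h5⟩ := exists_word (c := c) B.card h2 h3 (by
    have h4 : ((c + B.D : ℤ) : ℝ) ≤ (y B.o : ℤ) := Int.cast_le.2 (by omega)
    simpa [cst] using h4)
  obtain ⟨u, h6, h7, h8, h9, h10, h11⟩ := take h h0 h5
  exact ⟨u, h6, h7, h8, by rw [h9, ← h4], fun Z => ⟨k Z, by rw [h10]⟩, h11⟩

lemma gen (hc : B.D ≤ c) :
    B.S c J ≤ AddSubmonoid.closure (B.S c J ∩ {a | dg _ J a = 1}) := by
  rintro ⟨y, m⟩ hx
  obtain ⟨n, hn⟩ := Int.eq_ofNat_of_zero_le (sum_nonneg fun j (_ : j ∈ univ) => hx.2.2.1 j)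
  induction n using Nat.strong_induction_on generalizing y m with
  | _ n ih =>
  obtain ⟨h1, h2, h3, h4⟩ := id hx
  simp only at h1 h2 h3 h4 hn
  rcases n with _ | _ | n
  · have h5 : m = 0 := funext fun j =>
      (sum_eq_zero_iff_of_nonneg fun j _ => h3 j).1 hn j (mem_univ _)
    have h6 := (co_spec h1 h2).1
    have h7 := h6.2.2
    rw [h6.eq_zero (by simp [cst, h4, hn])] at h7
    have h8 : y = 0 := cst_inj (h7.trans (funext fun i => by simp [cst]))
    rw [h5, h8]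
    exact zero_mem _
  · exact AddSubmonoid.subset_closure ⟨hx, hn⟩
  obtain ⟨u, h5, h6, h7, h8, -⟩ := split hc h1 h2 (by rw [h4, hn]; push_cast; nlinarith)
  obtain ⟨j, -, h9⟩ := exists_lt_of_sum_lt (s := univ) (f := fun _ => 0) (g := m)
    (by rw [hn]; simp; omega)
  have h10 : (y, m) = (u, Pi.single j 1) + (y - u, m - Pi.single j 1) := by simp
  rw [h10]
  refine add_mem (AddSubmonoid.subset_closure ⟨⟨h5, h6, Pi.single_nonneg.2 zero_le_one,
    by simp [h8]⟩, by simp [dg_apply]⟩) (ih (n + 1) (by omega) _ _ ⟨sub_mem h1 h5, sub_nonneg.2 h7,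
    fun i => ?_, by simp [h4, h8, mul_sub]⟩ (by simp [hn]))
  by_cases h : i = j
  · simp [h]; omega
  · simpa [h] using h3 i

lemma co_add (h : y ∈ B.L) (h0 : 0 ≤ y) (h' : y' ∈ B.L) (h0' : 0 ≤ y')
    (hc : Ch (B.co y + B.co y')) : B.co (y + y') = B.co y + B.co y' :=
  co_eq (cst_add y y' ▸ (co_spec h h0).1.add (co_spec h' h0').1) hc

lemma Pure.one_le (h : B.Pure y) {Z : Finset I} (hZ : B.co y Z ≠ 0) : 1 ≤ B.co y Z := by
  obtain ⟨k, hk⟩ := h Z
  rw [hk] at hZ ⊢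
  exact_mod_cast Nat.one_le_iff_ne_zero.2 (by simpa using hZ)

lemma exchange (h : y ∈ B.L) (h0 : 0 ≤ y) (h' : y' ∈ B.L) (h0' : 0 ≤ y')
    (hc : Ch (B.co y + B.co y')) (hp : B.Pure y') {Z Z' : Finset I} (hZ : 1 ≤ B.co y Z)
    (hZ' : B.co y' Z' ≠ 0) : ∃ u ∈ B.L, 0 ≤ u ∧ u ≤ y + y' ∧ u B.o = y' B.o ∧ B.Pure u ∧
      B.co u = B.co y' + Pi.single Z 1 - Pi.single Z' 1 ∧
      B.co (y + y' - u) = B.co (y + y') - B.co u := by
  have h1 := hp.one_le hZ'
  choose k hk using hp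
  have h2 : ∀ X, ((k + Pi.single Z 1 - Pi.single Z' 1 : Finset I → ℕ) X : ℝ) =
      (B.co y' + Pi.single Z 1 - Pi.single Z' 1 : Finset I → ℝ) X := fun X => by
    simp only [Pi.add_apply, Pi.sub_apply, hk, Pi.single_apply]
    rw [Nat.cast_sub]
    · simp
    · split_ifs with h3 h4
      · omega
      · have : 1 ≤ k X := by
          rw [hk, ← h3] at h1
          exact_mod_cast h1
        omega
      · omega
      · omega
  obtain ⟨u, h3, h4, h5, h6, h7, h8⟩ := take (add_mem h h') (add_nonneg h0 h0')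
    (k := k + Pi.single Z 1 - Pi.single Z' 1) fun X => by
      rw [h2, co_add h h0 h' h0' hc]
      have := (co_spec h h0).1.1 X
      simp only [Pi.add_apply, Pi.sub_apply, Pi.single_apply, Pi.zero_apply] at this ⊢
      split_ifs with h3 h4 <;> (try subst h3) <;> linarith
  refine ⟨u, h3, h4, h5, ?_, fun X => ⟨_, by rw [h7]⟩, by rw [h7]; exact funext h2, h8⟩
  have h9 := (co_spec h' h0').1.total
  have h10 : ((∑ X, (k + Pi.single Z 1 - Pi.single Z' 1 : Finset I → ℕ) X : ℕ) : ℝ) =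
      cst y' B.o := by
    rw [Nat.cast_sum, h9, sum_congr rfl fun X _ => h2 X]
    simp [sum_add_distrib]
  rw [h6, cst] at *
  exact_mod_cast h10

lemma sum_lt_one {α : Type} [DecidableEq α] {E : α → α → Prop} (hE : ∀ x y, E x y → E y x)
    (P : α → Prop) (hP : ∀ x y, E x y → P x ∨ P y) (f : α → ℝ) {t : Multiset α} (ht : Cl E t)
    (h1 : ∀ x ∈ t, f x < 1) (h2 : ∀ x ∈ t, P x → f x = 0) : (t.map f).sum < 1 := by
  induction t using Multiset.induction_on with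
  | empty => simp
  | cons x t ih =>
    have h3 := (cl_add hE (a := {x}) (b := t)).1 ht
    rw [Multiset.map_cons, Multiset.sum_cons]
    by_cases h4 : P x
    · rw [h2 x (by simp) h4, zero_add]
      exact ih h3.2.1 (fun y hy => h1 y (by simp [hy])) fun y hy => h2 y (by simp [hy])
    · rw [Multiset.sum_eq_zero, add_zero]
      · exact h1 x (by simp)
      · intro r hr
        obtain ⟨y, h5, rfl⟩ := Multiset.mem_map.1 hr
        exact h2 y (by simp [h5]) ((hP x y (h3.2.2 x (by simp) y h5)).resolve_left h4)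

lemma exists_sink {α : Type} [DecidableEq α] {R : α → α → Prop}
    (hR : ∀ x y z, R x y → R y z → (R x z ∨ R z x) → R x z) {s : Multiset α} (h0 : s ≠ 0)
    (hs : Cl (fun x y => R x y ∨ R y x) s) : ∃ y t, s = y ::ₘ t ∧ ∀ x ∈ t, R x y := by
  induction s using Multiset.induction_on with
  | empty => exact absurd rfl h0
  | cons x s ih =>
    have h3 := (cl_add (fun _ _ => Or.symm) (a := {x}) (b := s)).1 hs
    by_cases h1 : s = 0
    · exact ⟨x, s, rfl, by simp [h1]⟩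
    obtain ⟨y, t, rfl, h2⟩ := ih h1 h3.2.1
    rcases h3.2.2 x (by simp) y (by simp) with h4 | h4
    · exact ⟨y, x ::ₘ t, Multiset.cons_swap _ _ _, fun z hz =>
        (Multiset.mem_cons.1 hz).elim (fun h => h ▸ h4) (h2 z)⟩
    · exact ⟨x, _, rfl, fun z hz => (Multiset.mem_cons.1 hz).elim (fun h => h ▸ h4) fun h =>
        hR z y x (h2 z h) h4 (h3.2.2 x (by simp) z (by simp [h])).symm⟩

/-- Index of the class. -/
def kap (ι : J → ℕ) (m : J → ℤ) : ℤ := ∑ j, ι j * m j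

lemma kap_single (ι : J → ℕ) (j : J) : kap ι (Pi.single j 1) = ι j := by
  rw [kap, sum_eq_single j (fun i _ h => by simp [h]) (by simp)]
  simp

open Classical in
/-- The rank used to break ties. -/
noncomputable def rho (B : LBary I) (ι : J → ℕ) (x : (I → ℤ) × (J → ℤ)) : ℝ :=
  (if B.Pure x.1 then 1 + ∑ Z, B.co x.1 Z * Z.card else 0) * (1 + ∑ j, ι j) + kap ι x.2

/-- The weights. -/
noncomputable def wt (B : LBary I) (ι : J → ℕ) (r : ℕ) (x : (I → ℤ) × (J → ℤ)) : ℝ :=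
  if r = Fintype.card I + 1 then -(3 : ℝ) ^ rho B ι x else -al r (B.co x.1)

lemma al_big {r : ℕ} (hr : Fintype.card I < r) (a : Finset I → ℝ) : al r a = 0 :=
  sum_eq_zero fun Z _ => if_neg fun h => (h ▸ hr).not_ge (card_le_univ Z)

lemma al_sub (r : ℕ) (a b : Finset I → ℝ) : al r (a - b) = al r a - al r b := by
  rw [eq_sub_iff_add_eq, ← al_add, sub_add_cancel]

lemma sink_le {A : Set ((I → ℤ) × (J → ℤ))} [DecidableEq A] {E : A → A → Prop}
    (hA : ∀ x ∈ A, x.1 ∈ B.L ∧ 0 ≤ x.1)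
    (h1 : ∀ x y, E x y → Ch (B.co x.1.1 + B.co y.1.1)) {s : Multiset A} (hs : Cl E s) :
    B.co (tot A s).1 = (s.map fun x => B.co x.1.1).sum := by
  have h2 : ∀ s : Multiset A, B.NRep (cst (tot A s).1) (s.map fun x => B.co x.1.1).sum := by
    intro s
    induction s using Multiset.induction_on with
    | empty => exact ⟨le_rfl, by simp, funext fun i => by simp [cst]⟩
    | cons x s ih =>
      rw [tot_cons, Prod.fst_add, cst_add, Multiset.map_cons, Multiset.sum_cons]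
      exact (co_spec (hA x x.2).1 (hA x x.2).2).1.add ih
  have h3 : ∀ (s : Multiset A) Z, (s.map fun x => B.co x.1.1).sum Z ≠ 0 →
      ∃ x ∈ s, B.co x.1.1 Z ≠ 0 := fun s Z h => by
    by_contra! h4
    refine h ?_
    rw [Pi.multiset_sum_apply, Multiset.map_map]
    exact Multiset.sum_eq_zero fun r hr => by
      obtain ⟨x, h5, rfl⟩ := Multiset.mem_map.1 hr
      exact h4 x h5
  refine co_eq (h2 s) fun Z Z' hZ hZ' => ?_
  obtain ⟨x, h4, h5⟩ := h3 s Z hZ
  obtain ⟨y, h6, h7⟩ := h3 s Z' hZ'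
  have hx := co_spec (hA x x.2).1 (hA x x.2).2
  have hy := co_spec (hA y y.2).1 (hA y y.2).2
  by_cases h8 : y = x
  · exact hx.2 Z Z' h5 (h8 ▸ h7)
  · exact h1 x y (hs x h4 y ((Multiset.mem_erase_of_ne h8).2 h6)) Z Z'
      (add_pos_of_pos_of_nonneg ((hx.1.1 Z).lt_of_ne' h5) (hy.1.1 Z)).ne'
      (add_pos_of_nonneg_of_pos (hx.1.1 Z') ((hy.1.1 Z').lt_of_ne' h7)).ne'

theorem nice (K : Type) [Field K] (hc : B.D ≤ c) (hc1 : 1 ≤ c) (hfin : ∀ i, ∃ b : ℤ, ∀ y ∈ B.L,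
    0 ≤ y → y B.o = c → y i ≤ b) : Nice K (dg _ J) (B.S c J) := by
  classical
  refine ⟨gen hc, ?_⟩
  obtain ⟨ι, hι⟩ := Countable.exists_injective_nat J
  set A := (B.S c J : Set ((I → ℤ) × (J → ℤ))) ∩ {a | dg _ J a = 1} with hA
  have mem : ∀ x ∈ A, x.1 ∈ B.L ∧ 0 ≤ x.1 ∧ x.1 B.o = c ∧ ∃ j, x.2 = Pi.single j 1 :=
    fun x hx => ⟨hx.1.1, hx.1.2.1, by rw [hx.1.2.2.2, ← dg_apply, hx.2, mul_one],
      exists_single hx.1.2.2.1 hx.2⟩
  have mk : ∀ u ∈ B.L, 0 ≤ u → u B.o = c → ∀ x ∈ A, (u, x.2) ∈ A := fun u h1 h2 h3 x hx =>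
    ⟨⟨h1, h2, hx.1.2.2.1, by rw [show ∑ j, (u, x.2).2 j = 1 from hx.2, mul_one]; exact h3⟩, hx.2⟩
  have sp : ∀ x ∈ A, B.NRep (cst x.1) (B.co x.1) ∧ Ch (B.co x.1) :=
    fun x hx => co_spec (mem x hx).1 (mem x hx).2.1
  have tt : ∀ x ∈ A, ∑ Z, B.co x.1 Z = c := fun x hx => by
    rw [← (sp x hx).1.total, cst, (mem x hx).2.2.1, Int.cast_natCast]
  have kb : ∀ x ∈ A, 0 ≤ (kap ι x.2 : ℝ) ∧ (kap ι x.2 : ℝ) ≤ ∑ j, ι j := fun x hx => by
    obtain ⟨j, h⟩ := (mem x hx).2.2.2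
    rw [h, kap_single]
    exact ⟨by positivity, by exact_mod_cast single_le_sum (fun _ _ => Nat.zero_le _) (mem_univ j)⟩
  let R : A → A → Prop := fun x y => B.Arr x.1.1 y.1.1 ∧ kap ι x.1.2 ≤ kap ι y.1.2
  have hch : ∀ x y, R x y ∨ R y x → Ch (B.co x.1.1 + B.co y.1.1) :=
    fun x y h => h.elim (fun h => h.1.1) fun h => add_comm (B.co y.1.1) _ ▸ h.1.1
  refine Good.of_pairs (fun a ha => ha.2) ?_ (fun x y => R x y ∨ R y x) (fun _ _ => Or.symm)
    (fun r x => wt B ι r x.1) ?_ ?_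
  · choose b hb using hfin
    refine ((Set.finite_Icc 0 b).prod (Set.finite_range fun j : J => Pi.single j 1)).subset ?_
    intro x hx
    obtain ⟨h1, h2, h3, j, h4⟩ := mem x hx
    exact ⟨⟨h2, fun i => hb i _ h1 h2 h3⟩, j, h4.symm⟩
  · have imp : ∀ x y : A, Ch (B.co x.1.1 + B.co y.1.1) → rho B ι x ≤ rho B ι y →
        ∀ u ∈ B.L, 0 ≤ u → u ≤ x.1.1 + y.1.1 → u B.o = c →
        B.co (x.1.1 + y.1.1 - u) = B.co (x.1.1 + y.1.1) - B.co u →
        ∀ p q : A, p.1.2 + q.1.2 = x.1.2 + y.1.2 → rho B ι y + 1 ≤ rho B ι (u, q.1.2) →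
        ∃ x' y' : A, x'.1 + y'.1 = x.1 + y.1 ∧ WLt (fun r (x : A) => wt B ι r x.1) {x', y'} {x, y} := by
      intro x y h1 h2 u h3 h4 h5 h6 h7 p q h8 h9
      obtain ⟨a1, a2, a3, -⟩ := mem x x.2
      obtain ⟨b1, b2, b3, -⟩ := mem y y.2
      refine ⟨⟨_, mk _ (sub_mem (add_mem a1 b1) h3) (sub_nonneg.2 h5) (by simp [a3, b3, h6]) p p.2⟩,
        ⟨_, mk u h3 h4 h6 q q.2⟩, Prod.ext (by simp) h8, Fintype.card I + 1, fun r hr => ?_, ?_⟩
      · simp [wt, hr.ne, h7, al_sub, co_add a1 a2 b1 b2 h1, al_add]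
        ring
      · have e1 : (3 : ℝ) ^ rho B ι x ≤ 3 ^ rho B ι y :=
          Real.rpow_le_rpow_of_exponent_le (by norm_num) h2
        have e2 : (3 : ℝ) ^ (rho B ι y + 1) ≤ 3 ^ rho B ι (u, q.1.2) :=
          Real.rpow_le_rpow_of_exponent_le (by norm_num) h9
        have e3 : (0 : ℝ) < 3 ^ rho B ι y := by positivity
        have e4 : (0 : ℝ) < 3 ^ rho B ι (x.1.1 + y.1.1 - u, p.1.2) := by positivity
        rw [Real.rpow_add_one (by norm_num)] at e2
        simp [wt]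
        linarith
    have main : ∀ x y : A, rho B ι x ≤ rho B ι y → ¬R x y →
        ∃ x' y' : A, x'.1 + y'.1 = x.1 + y.1 ∧ WLt (fun r (x : A) => wt B ι r x.1) {x', y'} {x, y} := by
      intro x y h1 h2
      obtain ⟨a1, a2, a3, -⟩ := mem x x.2
      obtain ⟨b1, b2, b3, -⟩ := mem y y.2
      have hs := split hc (add_mem a1 b1) (add_nonneg a2 b2) (by simp [a3, b3, two_mul])
      have hk1 := kb x x.2
      have hk2 := kb y y.2
      have hn : ∀ u ∈ B.L, 0 ≤ u → 0 ≤ ∑ Z, B.co u Z * Z.card := fun u h h0 =>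
        sum_nonneg fun Z _ => mul_nonneg ((co_spec h h0).1.1 Z) (Nat.cast_nonneg _)
      have hB : (0 : ℝ) ≤ ((∑ j, ι j : ℕ) : ℝ) := Nat.cast_nonneg _
      by_cases h3 : Ch (B.co x.1.1 + B.co y.1.1)
      swap
      · obtain ⟨u, c1, c2, c3, c4, -, c5⟩ := hs
        have h4 := co_spec (add_mem a1 b1) (add_nonneg a2 b2)
        obtain ⟨r, h5, h6⟩ := (cmp (cst_add x.1.1 y.1.1 ▸ (sp x x.2).1.add (sp y y.2).1)
          h4.1 h4.2).resolve_left fun h => h3 (by rw [h]; exact h4.2)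
        have h7 : r < Fintype.card I + 1 := by
          by_contra h7
          rw [al_big (by omega), al_big (by omega)] at h6
          exact lt_irrefl _ h6
        refine ⟨⟨_, mk _ (sub_mem (add_mem a1 b1) c1) (sub_nonneg.2 c3) (by simp [a3, b3, c4]) x x.2⟩,
          ⟨_, mk u c1 c2 c4 y y.2⟩, Prod.ext (by simp) rfl, r, fun r' hr => ?_, ?_⟩
        · have := h5 r' hr
          rw [al_add] at this
          simp [wt, (hr.trans h7).ne, c5, al_sub]
          linarith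
        · rw [al_add] at h6
          simp [wt, h7.ne, c5, al_sub]
          linarith
      by_cases h4 : B.Pure y.1.1
      swap
      · obtain ⟨u, c1, c2, c3, c4, c5, c6⟩ := hs
        refine imp x y h3 h1 u c1 c2 c3 c4 c6 x y rfl ?_
        simp only [rho, if_pos c5, if_neg h4]
        nlinarith [hn u c1 c2]
      by_cases h5 : ∀ Z Z', 1 ≤ B.co x.1.1 Z → B.co y.1.1 Z' ≠ 0 → Z ⊆ Z'
      · have h6 : kap ι y.1.2 + 1 ≤ kap ι x.1.2 := lt_of_not_ge fun h => h2 ⟨⟨h3, h4, h5⟩, h⟩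
        refine imp x y h3 h1 y.1.1 b1 b2 (le_add_of_nonneg_left a2) b3
          (by rw [co_add a1 a2 b1 b2 h3]; simp) y x (add_comm _ _) ?_
        have h7 : ((kap ι y.1.2 + 1 : ℤ) : ℝ) ≤ kap ι x.1.2 := Int.cast_le.2 h6
        simp only [rho]
        push_cast at h7 ⊢
        linarith
      · push Not at h5
        obtain ⟨Z, Z', h5, h6, h7⟩ := h5
        obtain ⟨u, c1, c2, c3, c4, c5, c6, c7⟩ := exchange a1 a2 b1 b2 h3 h4 h5 h6
        refine imp x y h3 h1 u c1 c2 c3 (c4.trans b3) c7 x y rfl ?_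
        have h8 : Z' ⊆ Z := (h3 Z Z'
          (add_pos_of_pos_of_nonneg (one_pos.trans_le h5) ((sp y y.2).1.1 Z)).ne'
          (add_pos_of_nonneg_of_pos ((sp x x.2).1.1 Z')
            (((sp y y.2).1.1 Z').lt_of_ne' h6)).ne').resolve_left h7
        have h9 : ((Z'.card + 1 : ℕ) : ℝ) ≤ Z.card :=
          Nat.cast_le.2 (card_lt_card ⟨h8, h7⟩)
        have h10 : ∑ X, B.co u X * X.card = ∑ X, B.co y.1.1 X * X.card + Z.card - Z'.card := by
          simp [c6, add_mul, sub_mul, sum_add_distrib, Pi.single_apply]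
        simp only [rho, if_pos c5, if_pos h4, h10]
        push_cast at h9 hB ⊢
        nlinarith
    intro x y h
    rcases le_total (rho B ι x) (rho B ι y) with h1 | h1
    · exact main x y h1 fun h2 => h (Or.inl h2)
    · obtain ⟨x', y', h2, h3⟩ := main y x h1 fun h2 => h (Or.inr h2)
      exact ⟨x', y', h2.trans (add_comm _ _), Multiset.pair_comm x y ▸ h3⟩
  have hR : ∀ x y z, R x y → R y z → (R x z ∨ R z x) → R x z := fun x y z h1 h2 h3 => by
    refine ⟨⟨hch x z h3, h2.1.2.1, fun Z Z' h4 h5 => ?_⟩, h1.2.trans h2.2⟩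
    obtain ⟨X, -, h6⟩ := exists_ne_zero_of_sum_ne_zero (s := univ) (f := B.co y.1.1)
      (by rw [tt y y.2]; exact Nat.cast_ne_zero.2 (by omega))
    exact (h1.1.2.2 Z X h4 h6).trans (h2.1.2.2 X Z' (h1.1.2.1.one_le h6) h5)
  have hsum : ∀ {s : Multiset A}, Cl (fun x y => R x y ∨ R y x) s →
      B.co (tot A s).1 = (s.map fun x => B.co x.1.1).sum :=
    sink_le (fun x hx => ⟨(mem x hx).1, (mem x hx).2.1⟩) hch
  have hsink : ∀ (y : A) (t : Multiset A), Cl (fun x y => R x y ∨ R y x) (y ::ₘ t) →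
      (∀ x ∈ t, R x y) → B.co y.1.1 ≤ B.co (tot A (y ::ₘ t)).1 ∧
      (∀ Z Z', B.co y.1.1 Z' ≠ 0 → ¬Z ⊆ Z' → B.co (tot A (y ::ₘ t)).1 Z < B.co y.1.1 Z + 1) ∧
      ∀ j, (tot A (y ::ₘ t)).2 j ≠ 0 → ι j ≤ kap ι y.1.2 := fun y t h1 h2 => by
    have h3 := ((cl_add (fun _ _ => Or.symm) (a := {y}) (b := t)).1 h1).2.1
    rw [hsum h1, Multiset.map_cons, Multiset.sum_cons]
    refine ⟨le_add_of_nonneg_right (Multiset.sum_nonneg fun a ha => ?_), fun Z Z' h4 h5 => ?_,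
      fun j hj => ?_⟩
    · obtain ⟨x, -, rfl⟩ := Multiset.mem_map.1 ha
      exact (sp x x.2).1.1
    · have h6 : ∀ x ∈ t, B.co x.1.1 Z < 1 := fun x hx =>
        lt_of_not_ge fun h => h5 ((h2 x hx).1.2.2 Z Z' h h4)
      rw [Pi.add_apply, Pi.multiset_sum_apply, Multiset.map_map, add_lt_add_iff_left]
      exact sum_lt_one (fun _ _ => Or.symm) (fun x : A => B.Pure x.1.1)
        (fun x y h => h.symm.imp (fun h => h.1.2.1) fun h => h.1.2.1) _ h3 h6
        fun x hx hp => by_contra fun h => (h6 x hx).not_ge (hp.one_le h)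
    · have h4 : ∃ x ∈ y ::ₘ t, x.1.2 j ≠ 0 := by
        by_contra! h4
        refine hj ?_
        generalize y ::ₘ t = s at h4
        induction s using Multiset.induction_on with
        | empty => simp
        | cons x s ih =>
          rw [tot_cons, Prod.snd_add, Pi.add_apply, h4 x (by simp),
            ih fun z hz => h4 z (by simp [hz]), add_zero]
      obtain ⟨x, h5, h6⟩ := h4
      obtain ⟨i, h7⟩ := (mem x x.2).2.2.2
      obtain rfl : j = i := by_contra fun h => h6 (by simp [h7, h])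
      rw [← kap_single, ← h7]
      exact (Multiset.mem_cons.1 h5).elim (fun h => h ▸ le_rfl) fun h => (h2 x h).2
  intro s t hs ht h
  have hcard : Multiset.card s = Multiset.card t := by
    have hA1 : ∀ a ∈ A, dg (I → ℤ) J a = 1 := fun a ha => ha.2
    have := deg_tot hA1 s
    rw [h, deg_tot hA1, cardZ_apply, cardZ_apply] at this
    omega
  induction hn : Multiset.card s generalizing s t with
  | zero => rw [Multiset.card_eq_zero.1 hn, Multiset.card_eq_zero.1 (hcard.symm.trans hn)]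
  | succ n ih =>
  obtain ⟨y, s, rfl, h1⟩ := exists_sink hR (by rintro rfl; simp at hn) hs
  obtain ⟨u, t, rfl, h2⟩ := exists_sink hR (by rintro rfl; simp at hcard) ht
  have h3 := ((cl_add (fun _ _ => Or.symm) (a := {y}) (b := s)).1 hs).2.1
  have h4 := ((cl_add (fun _ _ => Or.symm) (a := {u}) (b := t)).1 ht).2.1
  simp only [Multiset.card_cons, add_left_inj] at hn hcard
  suffices h5 : y = u by
    subst h5
    rw [tot_cons, tot_cons] at h
    rw [ih s t h3 h4 (add_left_cancel h) hcard hn]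
  by_cases h5 : s = 0
  · obtain rfl : t = 0 := Multiset.card_eq_zero.1 (by simp [← hcard, h5])
    subst h5
    rw [tot_cons, tot_cons] at h
    exact Subtype.ext (add_right_cancel h)
  obtain ⟨x, hx⟩ := Multiset.exists_mem_of_ne_zero h5
  obtain ⟨x', hx'⟩ := Multiset.exists_mem_of_ne_zero (s := t) (by rintro rfl; simp [h5] at hcard)
  have p1 := (h1 x hx).1.2.1
  have p2 := (h2 x' hx').1.2.1
  obtain ⟨a1, a2, a3⟩ := hsink y s hs h1
  obtain ⟨b1, b2, b3⟩ := hsink u t ht h2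
  rw [← h] at b1 b2 b3
  have key : ∀ y u : A, B.Pure y.1.1 → B.Pure u.1.1 → ∀ Z, B.co u.1.1 Z < B.co y.1.1 Z →
      B.co u.1.1 Z + 1 ≤ B.co y.1.1 Z ∧ B.co y.1.1 Z ≠ 0 := fun y u p1 p2 Z h => by
    obtain ⟨k, hk⟩ := p1 Z
    obtain ⟨l, hl⟩ := p2 Z
    rw [hk, hl] at h ⊢
    have : l < k := by exact_mod_cast h
    exact ⟨by exact_mod_cast this, Nat.cast_ne_zero.2 (by omega)⟩
  have h6 : B.co y.1.1 = B.co u.1.1 := by
    by_contra h6
    have h7 : ∀ y u : A, B.co y.1.1 ≠ B.co u.1.1 → ∃ Z, B.co u.1.1 Z < B.co y.1.1 Z := by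
      intro y u h
      by_contra! h7
      exact h (funext fun Z => (sum_eq_sum_iff_of_le fun Z _ => h7 Z).1
        ((tt y y.2).trans (tt u u.2).symm) Z (mem_univ _))
    obtain ⟨Z, h8⟩ := h7 y u h6
    obtain ⟨Z', h9⟩ := h7 u y (Ne.symm h6)
    have h10 := key y u p1 p2 Z h8
    have h11 := key u y p2 p1 Z' h9
    have h12 : Z ⊆ Z' := by_contra fun h => (b2 Z Z' h11.2 h).not_ge (h10.1.trans (a1 Z))
    have h13 : Z' ⊆ Z := by_contra fun h => (a2 Z' Z h10.2 h).not_ge (h11.1.trans (b1 Z'))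
    rw [Subset.antisymm h12 h13] at h8
    exact lt_asymm h8 h9
  obtain ⟨j, hj⟩ := (mem y y.2).2.2.2
  obtain ⟨i, hi⟩ := (mem u u.2).2.2.2
  have h7 : ∀ (y : A) (s : Multiset A) j, y.1.2 = Pi.single j 1 → (tot A (y ::ₘ s)).2 j ≠ 0 := by
    intro y s j hj
    have := (AddSubmonoid.closure_le.2 Set.inter_subset_left
      (mem_closure_iff.2 ⟨s, rfl⟩ : tot A s ∈ AddSubmonoid.closure A)).2.2.1 j
    simp only [tot_cons, Prod.snd_add, Pi.add_apply, hj, Pi.single_eq_same, Pi.zero_apply] at this ⊢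
    omega
  have h8 := a3 i (h ▸ h7 u t i hi)
  have h9 := b3 j (h7 y s j hj)
  rw [hj, kap_single] at h8
  rw [hi, kap_single] at h9
  refine Subtype.ext (Prod.ext (cst_inj ?_) (by rw [hj, hi, hι (by omega : ι j = ι i)]))
  rw [(sp y y.2).1.2.2, (sp u u.2).1.2.2, h6]

end LBary

end Pool.Agent.Lib.MP_b664fd_ag
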