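import Mathlib

/-! Smooth polytopes with long edges. -/

namespace Pool.Agent.Lib.MP_b664fd_ag

/-- An integer vector as a real vector. -/
def toR {d : ℕ} (x : Fin d → ℤ) : Fin d → ℝ := fun i => x i

/-- The segment from `v` to `w` is an edge of `P`. -/
def IsEdge {d : ℕ} (P : Set (Fin d → ℝ)) (v w : Fin d → ℝ) : Prop :=
  v ≠ w ∧ IsExtreme ℝ P (segment ℝ v w)

/-- At every vertex the edges are exactly `d` segments, along a lattice basis, of lattice length at
least `N`. -/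
def SmoothLong {d : ℕ} (P : Set (Fin d → ℝ)) (N : ℕ) : Prop :=
  ∀ v ∈ P.extremePoints ℝ, ∃ (e : Module.Basis (Fin d) ℤ (Fin d → ℤ)) (l : Fin d → ℕ),
    (∀ i, N ≤ l i) ∧ ∀ w, IsEdge P v w ↔ ∃ i, w = v + l i • toR (e i)

end Pool.Agent.Lib.MP_b664fd_ag
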