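import Pool.Agent.Lib.MP_b664fd_ag.H10Defs

/-! The tangent cone at a vertex of a polytope is spanned by the edges. -/

namespace Pool.Agent.Lib.MP_b664fd_ag

variable {d : ℕ}

lemma exists_ext_max {A : Set (Fin d → ℝ)} (hA : IsCompact A) (h0 : A.Nonempty)
    (l : (Fin d → ℝ) →L[ℝ] ℝ) : ∃ w ∈ A.extremePoints ℝ, ∀ y ∈ A, l y ≤ l w := by
  have h1 : IsExposed ℝ A (l.toExposed A) := ContinuousLinearMap.toExposed.isExposed
  obtain ⟨x, h2, h3⟩ := hA.exists_isMaxOn h0 l.continuous.continuousOn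
  obtain ⟨w, h4⟩ := (h1.isCompact hA).extremePoints_nonempty ⟨x, h2, h3⟩
  exact ⟨w, h1.isExtreme.extremePoints_subset_extremePoints h4, h4.1.2⟩

theorem exists_edge {S : Set (Fin d → ℝ)} (hS : S.Finite) {v x : Fin d → ℝ}
    (hv : v ∈ (convexHull ℝ S).extremePoints ℝ) (φ : (Fin d → ℝ) →L[ℝ] ℝ)
    (hx : x ∈ convexHull ℝ S) (h : φ v < φ x) : ∃ w, IsEdge (convexHull ℝ S) v w ∧ φ v < φ w := by
  set P := convexHull ℝ S with hP
  have hc : Convex ℝ P := convex_convexHull ℝ S
  have hK : IsCompact P := hS.isCompact_convexHull ℝ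
  have h1 : v ∉ convexHull ℝ (S \ {v}) := fun h1 =>
    ((hc.mem_extremePoints_iff_mem_sdiff_convexHull_sdiff.1 hv).2 (convexHull_mono
      (Set.sdiff_subset_sdiff_left (subset_convexHull ℝ S)) h1))
  obtain ⟨ψ, u, h2, h3⟩ := geometric_hahn_banach_point_closed (convex_convexHull ℝ _)
    (hS.sdiff.isCompact_convexHull ℝ).isClosed h1
  have h4 : ∀ s ∈ S \ {v}, 0 < ψ (s - v) := fun s hs => by
    have := h3 s (subset_convexHull ℝ _ hs)
    rw [map_sub]
    linarith
  set Q := convexHull ℝ ((fun s => (ψ (s - v))⁻¹ • (s - v)) '' (S \ {v})) with hQ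
  have hQ1 : ∀ q ∈ Q, ψ q = 1 := fun q hq => by
    refine convexHull_min (t := {q | ψ q = 1}) ?_ (convex_hyperplane ψ.toLinearMap.isLinear 1) hq
    rintro _ ⟨s, hs, rfl⟩
    simp only [Set.mem_ofPred_eq, map_smul, smul_eq_mul, inv_mul_cancel₀ (h4 s hs).ne']
  have h5 : ∀ y ∈ P, y = v ∨ ∃ t > (0 : ℝ), ∃ q ∈ Q, y = v + t • q := fun y hy => by
    refine convexHull_min (t := {y | y = v ∨ ∃ t > (0 : ℝ), ∃ q ∈ Q, y = v + t • q})
      (fun s hs => ?_) ?_ hy
    · by_cases h5 : s = v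
      · exact Or.inl h5
      · refine Or.inr ⟨_, h4 s ⟨hs, h5⟩, _, subset_convexHull ℝ _ ⟨s, ⟨hs, h5⟩, rfl⟩, ?_⟩
        rw [smul_smul, mul_inv_cancel₀ (h4 s ⟨hs, h5⟩).ne', one_smul, add_sub_cancel]
    · rw [convex_iff_forall_pos]
      rintro y (h6 | ⟨t, ht, q, hq, h6⟩) z (h7 | ⟨s, hs, r, hr, h7⟩) a b ha hb hab <;>
        rw [h6, h7]
      · exact Or.inl (by rw [← add_smul, hab, one_smul])
      · exact Or.inr ⟨b * s, by positivity, r, hr, by
          rw [smul_add, ← add_assoc, ← add_smul, hab, one_smul, smul_smul]⟩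
      · exact Or.inr ⟨a * t, by positivity, q, hq, by
          rw [smul_add, add_right_comm, ← add_smul, hab, one_smul, smul_smul]⟩
      · have h8 : 0 < a * t + b * s := by positivity
        refine Or.inr ⟨_, h8, _, convex_convexHull ℝ _ hq hr (a := a * t / (a * t + b * s))
          (b := b * s / (a * t + b * s)) (by positivity) (by positivity) (by field_simp), ?_⟩
        rw [smul_add, smul_add, add_add_add_comm, ← add_smul, hab, one_smul, smul_add, smul_smul,
          smul_smul, smul_smul, smul_smul, mul_div_cancel₀ _ h8.ne', mul_div_cancel₀ _ h8.ne']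
  obtain ⟨t, ht, q, hq, rfl⟩ := (h5 x hx).resolve_left fun h6 => (h6 ▸ h).false
  obtain ⟨p, h6, h7⟩ := exists_ext_max ((hS.sdiff.image _).isCompact_convexHull ℝ) ⟨q, hq⟩ φ
  have h8 : 0 < φ p := by
    rw [map_add, map_smul, smul_eq_mul, lt_add_iff_pos_right] at h
    exact ((mul_pos_iff_of_pos_left ht).1 h).trans_le (h7 q hq)
  obtain ⟨s, hs, h9⟩ := extremePoints_convexHull_subset h6
  have h10 : v + ψ (s - v) • p ∈ P := by
    rw [← h9, smul_smul, mul_inv_cancel₀ (h4 s hs).ne', one_smul, add_sub_cancel]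
    exact subset_convexHull ℝ S hs.1
  have h11 := hQ1 p h6.1
  have h14 : ∀ t : ℝ, ψ (v + t • p - v) = t := fun t => by simp [h11]
  obtain ⟨w, ⟨h12, h13⟩, h15⟩ := (hK.inter_right (t := {y | y = v + ψ (y - v) • p})
    (isClosed_eq continuous_id (by fun_prop))).exists_isMaxOn ⟨_, h10, by
      rw [Set.mem_ofPred_eq, h14]⟩ (f := fun y => ψ (y - v)) (by fun_prop)
  have h16 : ∀ t : ℝ, v + t • p ∈ P → t ≤ ψ (w - v) := fun t ht => by
    have := h15 (a := v + t • p) ⟨ht, by rw [Set.mem_ofPred_eq, h14]⟩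
    exact (h14 t).symm.trans_le this
  rw [Set.mem_ofPred_eq] at h13
  generalize ψ (w - v) = m at h13 h16
  have hm : 0 < m := (h4 s hs).trans_le (h16 _ h10)
  subst h13
  refine ⟨v + m • p, ⟨fun h => hm.ne ?_, hc.segment_subset hv.1 h12, ?_⟩, by simp [hm, h8]⟩
  · rw [← h14 m, ← h, sub_self, map_zero]
  rintro y hy z hz _ ⟨α, β, -, hβ, h17, rfl⟩ ⟨a, b, ha, hb, hab, h18⟩
  rcases h5 y hy with rfl | ⟨t, ht, q, hq, rfl⟩
  · exact left_mem_segment _ _ _
  have h19 : q = p := by
    rw [smul_add β, ← add_assoc, ← add_smul, h17, one_smul, smul_smul] at h18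
    rcases h5 z hz with h20 | ⟨u, hu, r, hr, rfl⟩
    · rw [h20, smul_add, add_right_comm, ← add_smul, hab, one_smul, smul_smul, add_right_inj] at h18
      have h21 := congrArg ψ h18
      simp only [map_smul, hQ1 q hq, h11, smul_eq_mul, mul_one] at h21
      rw [← h21] at h18
      exact smul_right_injective _ (by positivity) h18
    · rw [smul_add, smul_add, add_add_add_comm, ← add_smul, hab, one_smul, add_right_inj, smul_smul,
        smul_smul] at h18
      have h21 := congrArg ψ h18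
      simp only [map_add, map_smul, hQ1 q hq, hQ1 r hr, h11, smul_eq_mul, mul_one] at h21
      have h22 : 0 < a * t + b * u := by positivity
      refine h6.2 hq hr ⟨a * t / (a * t + b * u), b * u / (a * t + b * u), by positivity,
        by positivity, by field_simp, smul_right_injective _ h22.ne' ?_⟩
      simp only [smul_add, smul_smul, mul_div_cancel₀ _ h22.ne']
      rw [h18, h21]
  subst h19
  refine ⟨1 - t / m, t / m, sub_nonneg.2 ((div_le_one hm).2 (h16 t hy)), by positivity, by ring, ?_⟩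
  rw [smul_add, ← add_assoc, ← add_smul, sub_add_cancel, one_smul, smul_smul,
    div_mul_cancel₀ _ hm.ne']

end Pool.Agent.Lib.MP_b664fd_ag
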