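import Pool.Agent.Lib.MP_b664fd_ag.H10Peel
import Pool.Agent.Lib.MP_b664fd_ag.H10Edge

/-! The fan of a smooth polytope with long edges. -/

set_option linter.unusedSectionVars false

open Finset Pointwise

namespace Pool.Agent.Lib.MP_b664fd_ag

variable {d : ℕ}

/-- Pairing with an integer vector. -/
noncomputable def pairL (n : Fin d → ℤ) : (Fin d → ℝ) →L[ℝ] ℝ :=
  ∑ k, (n k : ℝ) • ContinuousLinearMap.proj k

lemma pairL_apply (n : Fin d → ℤ) (x : Fin d → ℝ) : pairL n x = ∑ k, n k * x k := by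
  simp [pairL]

lemma pairL_toR (n x : Fin d → ℤ) : pairL n (toR x) = (n ⬝ᵥ x : ℤ) := by
  simp [pairL_apply, toR, dotProduct]

attribute [irreducible] pairL

/-- Vertex data: dual bases at every vertex. -/
structure VD (P : Set (Fin d → ℝ)) (N : ℕ) where
  e : P.extremePoints ℝ → Fin d → Fin d → ℤ
  n : P.extremePoints ℝ → Fin d → Fin d → ℤ
  dual : ∀ v i j, n v i ⬝ᵥ e v j = if i = j then 1 else 0
  span : ∀ v x, ∑ i, pairL (n v i) x • toR (e v i) = x
  cone : ∀ v i, ∀ x ∈ P, pairL (n v i) v ≤ pairL (n v i) x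
  long : ∀ v i, v.1 + (N : ℝ) • toR (e v i) ∈ P

lemma exists_vd {S : Set (Fin d → ℝ)} (hS : S.Finite) {N : ℕ}
    (h : SmoothLong (convexHull ℝ S) N) : Nonempty (VD (convexHull ℝ S) N) := by
  choose e l h1 h2 using fun v : (convexHull ℝ S).extremePoints ℝ => h v v.2
  let n : (convexHull ℝ S).extremePoints ℝ → Fin d → Fin d → ℤ :=
    fun v i k => (e v).repr (Pi.single k 1) i
  have h3 : ∀ v i x, n v i ⬝ᵥ x = (e v).repr x i := fun v i x => by
    conv_rhs => rw [pi_eq_sum_univ' x]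
    simp only [map_sum, map_smul, Finsupp.coe_finsetSum, Finset.sum_apply, Finsupp.smul_apply,
      smul_eq_mul, n, dotProduct, mul_comm]
  have h4 : ∀ v i j, n v i ⬝ᵥ e v j = if i = j then 1 else 0 := fun v i j => by
    simp [h3, Finsupp.single_apply, eq_comm]
  refine ⟨⟨fun v => e v, n, h4, fun v x => funext fun k => ?_, fun v i x hx => ?_, fun v i => ?_⟩⟩
  · have h5 : ∀ j, ∑ i, (n v i j : ℝ) * e v i k = if j = k then 1 else 0 := fun j => by
      have := congrFun ((e v).sum_repr (Pi.single j 1)) k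
      simp only [Finset.sum_apply, Pi.smul_apply, smul_eq_mul, Pi.single_apply] at this
      have h6 : ((∑ i, n v i j * e v i k : ℤ) : ℝ) = ((if k = j then 1 else 0 : ℤ) : ℝ) :=
        congrArg _ this
      simpa [eq_comm] using h6
    simp only [Finset.sum_apply, Pi.smul_apply, smul_eq_mul, pairL_apply, toR, sum_mul]
    rw [sum_comm]
    simp only [mul_right_comm _ (x _), ← sum_mul, h5]
    simp
  · by_contra h5
    obtain ⟨w, h6, h7⟩ := exists_edge hS v.2 (-pairL (n v i)) hx (by simpa using h5)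
    obtain ⟨j, rfl⟩ := (h2 v w).1 h6
    rw [← Nat.cast_smul_eq_nsmul ℝ] at h7
    simp only [neg_apply, map_add, map_smul, pairL_toR, h4, smul_eq_mul] at h7
    split_ifs at h7 <;> simp at h7
    linarith [(Nat.cast_nonneg (l v j) : (0 : ℝ) ≤ _)]
  · have h5 := (h2 v _).2 ⟨i, rfl⟩
    have h6 : (0 : ℝ) < l v i := Nat.cast_pos.2 (Nat.pos_of_ne_zero fun h => h5.1 (by simp [h]))
    refine h5.2.1 ⟨1 - N / l v i, N / l v i,
      sub_nonneg.2 ((div_le_one h6).2 (Nat.cast_le.2 (h1 v i))), by positivity, by ring, ?_⟩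
    rw [smul_add, ← add_assoc, ← add_smul, sub_add_cancel, one_smul, ← Nat.cast_smul_eq_nsmul ℝ,
      smul_smul, div_mul_cancel₀ _ h6.ne']

namespace VD

variable {P : Set (Fin d → ℝ)} {N : ℕ} (D : VD P N)

/-- The facet normals. -/
def I : Type := Set.range fun p : P.extremePoints ℝ × Fin d => D.n p.1 p.2

/-- The facet normal at a vertex. -/
def nI (v : P.extremePoints ℝ) (i : Fin d) : D.I := ⟨D.n v i, (v, i), rfl⟩

lemma nI_inj (v : P.extremePoints ℝ) : Function.Injective (D.nI v) := fun i j h => by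
  have h1 := D.dual v i i
  rw [show D.n v i = D.n v j from congrArg Subtype.val h, D.dual] at h1
  by_contra h2
  simp [Ne.symm h2] at h1

lemma expand (v : P.extremePoints ℝ) (φ : (Fin d → ℝ) →L[ℝ] ℝ) (x : Fin d → ℝ) :
    φ x = ∑ i, pairL (D.n v i) x * φ (toR (D.e v i)) := by
  conv_lhs => rw [← D.span v x]
  simp

lemma le_of_edges (v : P.extremePoints ℝ) (φ : (Fin d → ℝ) →L[ℝ] ℝ)
    (h : ∀ i, 0 ≤ φ (toR (D.e v i))) {x y : Fin d → ℝ} (hx : ∀ i, pairL (D.n v i) y ≤ pairL (D.n v i) x) :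
    φ y ≤ φ x := by
  rw [D.expand v φ x, D.expand v φ y]
  exact sum_le_sum fun i _ => mul_le_mul_of_nonneg_right (hx i) (h i)

lemma far (hN : 0 < N) (v w : P.extremePoints ℝ) (j : Fin d) (h : ∀ i, D.n v i ≠ D.n w j) :
    pairL (D.n w j) w + N ≤ pairL (D.n w j) v := by
  by_cases h1 : ∃ i, D.n w j ⬝ᵥ D.e v i ≤ -1
  · obtain ⟨i, h1⟩ := h1
    have h2 := D.cone w j _ (D.long v i)
    have h3 : ((D.n w j ⬝ᵥ D.e v i : ℤ) : ℝ) ≤ (-1 : ℤ) := Int.cast_le.2 h1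
    rw [map_add, map_smul, pairL_toR, smul_eq_mul] at h2
    push_cast at h3
    nlinarith [(Nat.cast_nonneg N : (0 : ℝ) ≤ N)]
  exfalso
  have h2 : ∀ i, 0 ≤ pairL (D.n w j) (toR (D.e v i)) := fun i => by
    rw [pairL_toR]
    exact Int.cast_nonneg (by have := not_exists.1 h1 i; omega)
  obtain ⟨i, -, h3⟩ := exists_ne_zero_of_sum_ne_zero (s := univ) (f := fun i =>
    pairL (D.n v i) (toR (D.e w j)) * pairL (D.n w j) (toR (D.e v i))) (by
      rw [← D.expand, pairL_toR, D.dual]; simp)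
  have h4 : ∀ y ∈ P, pairL (D.n w j) y = pairL (D.n w j) w → pairL (D.n v i) y = pairL (D.n v i) v := by
    intro y hy h4
    have h5 : ∑ i, pairL (D.n v i) (y - v) * pairL (D.n w j) (toR (D.e v i)) = 0 := by
      rw [← D.expand, map_sub, h4, sub_eq_zero]
      exact le_antisymm (D.cone w j _ v.2.1) (D.le_of_edges v _ h2 fun i => D.cone v i _ w.2.1)
    have h6 := (sum_eq_zero_iff_of_nonneg fun i _ => mul_nonneg
      (by rw [map_sub]; exact sub_nonneg.2 (D.cone v i y hy)) (h2 i)).1 h5 i (mem_univ _)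
    simpa [right_ne_zero_of_mul h3, sub_eq_zero] using h6
  have h5 : ∀ k ≠ j, pairL (D.n v i) (toR (D.e w k)) = 0 := fun k hk => by
    have h5 := h4 _ (D.long w k) (by simp [pairL_toR, D.dual, hk.symm])
    rw [← h4 w w.2.1 rfl] at h5
    simpa [hN.ne'] using h5
  have h6 : ∀ x : Fin d → ℤ, D.n v i ⬝ᵥ x = (D.n w j ⬝ᵥ x) * (D.n v i ⬝ᵥ D.e w j) := fun x => by
    have := D.expand w (pairL (D.n v i)) (toR x)
    rw [sum_eq_single j (fun k _ hk => by simp [h5 k hk]) (by simp)] at this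
    simp only [pairL_toR] at this
    exact_mod_cast this
  have h7 := h6 (D.e v i)
  have h8 := h2 i
  rw [D.dual, if_pos rfl] at h7
  rw [pairL_toR, Int.cast_nonneg_iff] at h8
  have h9 : D.n v i ⬝ᵥ D.e w j = 1 := Int.eq_one_of_mul_eq_one_left
    (nonneg_of_mul_nonneg_right (zero_le_one.trans_eq h7) (h8.lt_of_ne' (by
      rintro h; simp [h] at h7))) h7.symm
  exact h i (funext fun k => by simpa [h9] using h6 (Pi.single k 1))

/-- Support numbers of a set. -/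
noncomputable def sup (Q : Set (Fin d → ℝ)) (F : D.I) : ℝ := -sInf (pairL F.1 '' Q)

lemma sup_eq {Q : Set (Fin d → ℝ)} {v : P.extremePoints ℝ} {i : Fin d} {w : Fin d → ℝ} (hw : w ∈ Q)
    (h : ∀ y ∈ Q, pairL (D.n v i) w ≤ pairL (D.n v i) y) :
    D.sup Q (D.nI v i) = -pairL (D.n v i) w := by
  have : IsLeast (pairL (D.n v i) '' Q) (pairL (D.n v i) w) :=
    ⟨⟨w, hw, rfl⟩, by rintro _ ⟨y, hy, rfl⟩; exact h y hy⟩
  exact congrArg Neg.neg this.csInf_eq

lemma exists_nI (F : D.I) : ∃ v i, F = D.nI v i := by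
  obtain ⟨_, ⟨w, j⟩, rfl⟩ := F
  exact ⟨w, j, rfl⟩

lemma nI_val (v : P.extremePoints ℝ) (i : Fin d) : (D.nI v i).1 = D.n v i := rfl

variable [Fintype D.I] [DecidableEq D.I]

/-- Tight facets at a vertex. -/
def σ (v : P.extremePoints ℝ) : Finset D.I := univ.image (D.nI v)

/-- Edge directions in slack coordinates. -/
def ε (v : P.extremePoints ℝ) (m F : D.I) : ℤ := F.1 ⬝ᵥ ∑ i, if D.nI v i = m then D.e v i else 0

lemma ε_nI (v : P.extremePoints ℝ) (i : Fin d) (F : D.I) : D.ε v (D.nI v i) F = F.1 ⬝ᵥ D.e v i := by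
  simp [ε, (D.nI_inj v).eq_iff]

lemma Tv_eq (v : P.extremePoints ℝ) {h : D.I → ℝ} {x : Fin d → ℝ}
    (hx : ∀ i, h (D.nI v i) = pairL (D.n v i) x) (F : D.I) :
    Tv (D.σ v) (D.ε v) h F = h F - pairL F.1 x := by
  change h F - ∑ m ∈ D.σ v, h m * D.ε v m F = _
  rw [σ, sum_image fun i _ j _ h => D.nI_inj v h, D.expand v]
  simp only [hx, ε_nI, pairL_toR]

lemma Tv_sup {Q : Set (Fin d → ℝ)} (v : P.extremePoints ℝ) {w : Fin d → ℝ} (hw : w ∈ Q)
    (h : ∀ i, ∀ y ∈ Q, pairL (D.n v i) w ≤ pairL (D.n v i) y) (F : D.I) :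
    Tv (D.σ v) (D.ε v) (D.sup Q) F = D.sup Q F + pairL F.1 w := by
  rw [D.Tv_eq v (x := -w) fun i => by rw [D.sup_eq hw (h i), map_neg], map_neg, sub_neg_eq_add]

lemma far' (hN : 0 < N) (v : P.extremePoints ℝ) {F : D.I} (hF : F ∉ D.σ v) :
    N ≤ D.sup P F + pairL F.1 v := by
  obtain ⟨w, j, rfl⟩ := D.exists_nI F
  have := D.far hN v w j fun i h => hF (mem_image.2 ⟨i, mem_univ _, Subtype.ext h⟩)
  rw [D.sup_eq w.2.1 (D.cone w j), nI_val]
  linarith

omit [Fintype D.I] [DecidableEq D.I] in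
lemma sup_le (F : D.I) {x : Fin d → ℝ} (hx : x ∈ P) : 0 ≤ D.sup P F + pairL F.1 x := by
  obtain ⟨w, j, rfl⟩ := D.exists_nI F
  rw [D.sup_eq w.2.1 (D.cone w j), nI_val]
  simpa using D.cone w j x hx

/-- Slack coordinates of a lattice vector. -/
def emb : (Fin d → ℤ) →+ (D.I → ℤ) := AddMonoidHom.mk' (fun x F => F.1 ⬝ᵥ x) fun x y => by
  funext F
  simp

/-- The fan of the polytope. -/
noncomputable def fan (hN : 0 < N) (hP : IsCompact P) : Fan D.I (P.extremePoints ℝ) where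
  N := D.emb.range
  d := d
  σ := D.σ
  ε := D.ε
  b := (N : ℝ)⁻¹ • D.sup P
  mem := fun v m _ => ⟨_, rfl⟩
  dual := fun v m hm F hF => by
    obtain ⟨i, -, rfl⟩ := mem_image.1 hm
    obtain ⟨j, -, rfl⟩ := mem_image.1 hF
    rw [ε_nI]
    simp [nI, D.dual, eq_comm, ← (D.nI_inj v).eq_iff]
  span := by
    rintro v _ ⟨x, rfl⟩
    funext F
    rw [D.Tv_eq v (x := toR x) fun i => (pairL_toR _ _).symm, pairL_toR]
    exact sub_self _
  card := fun v => card_image_le.trans (by simp)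
  one := fun v F hF => by
    rw [map_smul, Pi.smul_apply, D.Tv_sup v v.2.1 (D.cone v), smul_eq_mul,
      le_inv_mul_iff₀ (Nat.cast_pos.2 hN), mul_one]
    exact D.far' hN v hF
  long := fun v F m hm => by
    obtain ⟨i, -, rfl⟩ := mem_image.1 hm
    have h1 := D.sup_le F (D.long v i)
    have h2 : (0 : ℝ) < N := Nat.cast_pos.2 hN
    rw [map_add, map_smul, pairL_toR, smul_eq_mul] at h1
    rw [map_smul, Pi.smul_apply, D.Tv_sup v v.2.1 (D.cone v), smul_eq_mul, ε_nI]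
    refine le_of_mul_le_mul_left ?_ h2
    rw [mul_add, mul_inv_cancel_left₀ h2.ne']
    linarith
  compl := fun τ v hτ φ => by
    let l : (Fin d → ℝ) →L[ℝ] ℝ := -∑ F ∈ τ, pairL F.1
    have h1 : IsExposed ℝ P (l.toExposed P) := ContinuousLinearMap.toExposed.isExposed
    have h2 : ∀ x ∈ P, x ∈ l.toExposed P ↔ ∀ F ∈ τ, D.sup P F + pairL F.1 x = 0 := fun x hx => by
      have h3 : ∀ F ∈ τ, D.sup P F + pairL F.1 v = 0 := fun F hF => by
        obtain ⟨i, -, rfl⟩ := mem_image.1 (hτ hF)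
        rw [D.sup_eq v.2.1 (D.cone v i), nI_val, neg_add_cancel]
      have h4 : ∀ x, l x = ∑ F ∈ τ, D.sup P F - ∑ F ∈ τ, (D.sup P F + pairL F.1 x) := fun x => by
        simp [l, sum_add_distrib]
      refine ⟨fun h => (sum_eq_zero_iff_of_nonneg fun F _ => D.sup_le F hx).1
        (le_antisymm ?_ (sum_nonneg fun F _ => D.sup_le F hx)), fun h => ⟨hx, fun y hy => ?_⟩⟩
      · have := h.2 v v.2.1
        rw [h4, h4, sum_eq_zero h3] at this
        linarith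
      · rw [h4, h4, sum_eq_zero h]
        linarith [sum_nonneg fun F (_ : F ∈ τ) => D.sup_le F hy]
    obtain ⟨w, h3, h4⟩ := exists_ext_max (h1.isCompact hP) ⟨v, (h2 v v.2.1).2 fun F hF => by
      obtain ⟨i, -, rfl⟩ := mem_image.1 (hτ hF)
      rw [D.sup_eq v.2.1 (D.cone v i), nI_val, neg_add_cancel]⟩ (-∑ F, φ F • pairL F.1)
    have h5 := h1.isExtreme.extremePoints_subset_extremePoints h3
    have h6 := (h2 w h5.1).1 h3.1
    have h7 : τ ⊆ D.σ ⟨w, h5⟩ := fun F hF => by_contra fun h =>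
      (Nat.cast_pos.2 hN).not_ge ((D.far' hN ⟨w, h5⟩ h).trans_eq (h6 F hF))
    refine ⟨⟨w, h5⟩, h7, fun m hm h8 => ?_⟩
    obtain ⟨i, -, rfl⟩ := mem_image.1 hm
    have h9 := h4 _ ((h2 _ (D.long ⟨w, h5⟩ i)).2 fun F hF => by
      obtain ⟨j, -, rfl⟩ := mem_image.1 (h7 hF)
      have h9 : j ≠ i := fun h => h8 (h ▸ hF)
      rw [map_add, ← add_assoc, h6 _ hF, map_smul, pairL_toR]
      simp [nI, D.dual, h9])
    simp only [map_add, map_smul, add_le_iff_nonpos_right, smul_eq_mul] at h9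
    have h10 := nonpos_of_mul_nonpos_right h9 (Nat.cast_pos.2 hN)
    simpa [ε_nI, pairL_toR] using h10

omit [Fintype D.I] [DecidableEq D.I] in
lemma mem_add (hN : 0 < N) (hP : IsCompact P) (hc : Convex ℝ P) (h0 : P.Nonempty)
    {Q : Set (Fin d → ℝ)} (hQ : IsCompact Q) (hQc : Convex ℝ Q)
    (h : ∀ v : P.extremePoints ℝ, ∃ w ∈ Q, ∀ i, ∀ y ∈ Q, pairL (D.n v i) w ≤ pairL (D.n v i) y)
    (x : Fin d → ℝ) : x ∈ P + Q ↔ ∀ F, 0 ≤ pairL F.1 x + (D.sup P F + D.sup Q F) := by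
  constructor
  · rintro ⟨y, hy, z, hz, rfl⟩ F
    obtain ⟨v, i, rfl⟩ := D.exists_nI F
    obtain ⟨w, h1, h2⟩ := h v
    rw [D.sup_eq v.2.1 (D.cone v i), D.sup_eq h1 (h2 i), nI_val]
    simp only [map_add]
    linarith [D.cone v i y hy, h2 i z hz]
  · intro h1
    by_contra h2
    obtain ⟨f, u, h3, h4⟩ := geometric_hahn_banach_point_closed (hc.add hQc) (hP.add hQ).isClosed h2
    obtain ⟨v, h5, h6⟩ := exists_ext_max hP h0 (-f)
    obtain ⟨w, h7, h8⟩ := h ⟨v, h5⟩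
    refine (h3.trans (h4 _ ⟨v, h5.1, w, h7, rfl⟩)).not_ge (D.le_of_edges ⟨v, h5⟩ f (fun i => ?_)
      fun i => ?_)
    · have h9 := h6 _ (D.long ⟨v, h5⟩ i)
      simp only [map_add, map_smul, add_le_iff_nonpos_right, smul_eq_mul] at h9
      simpa using nonpos_of_mul_nonpos_right h9 (Nat.cast_pos.2 hN)
    · have h9 := h1 (D.nI ⟨v, h5⟩ i)
      rw [D.sup_eq h5.1 (D.cone ⟨v, h5⟩ i), D.sup_eq h7 (h8 i)] at h9
      simp only [map_add, nI] at h9 ⊢
      linarith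

end VD

lemma hull_min {B : Finset (Fin d → ℤ)} {w : Fin d → ℝ} {φ : (Fin d → ℝ) →L[ℝ] ℝ}
    (h : ∀ y ∈ B, φ w ≤ φ (toR y)) : ∀ y ∈ convexHull ℝ (toR '' (B : Set (Fin d → ℤ))), φ w ≤ φ y := fun _ hy =>
  convexHull_min (t := {y | φ w ≤ φ y}) (by rintro _ ⟨y, hy, rfl⟩; exact h y hy)
    (convex_halfSpace_ge φ.toLinearMap.isLinear _) hy

lemma finite_lattice {Q : Set (Fin d → ℝ)} (hQ : IsCompact Q) : {x | toR x ∈ Q}.Finite := by
  obtain ⟨R, hR⟩ := hQ.isBounded.exists_norm_le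
  refine (Set.finite_Icc (fun _ => -⌈R⌉) fun _ => ⌈R⌉).subset fun x hx => ?_
  have h1 : ∀ i, |x i| ≤ ⌈R⌉ := fun i => by
    have := ((norm_le_pi_norm (toR x) i).trans (hR _ hx)).trans (Int.le_ceil R)
    rw [toR, Real.norm_eq_abs] at this
    exact_mod_cast this
  exact ⟨fun i => (abs_le.1 (h1 i)).1, fun i => (abs_le.1 (h1 i)).2⟩

theorem cayley_koszul (K : Type) [Field K] {S : Finset (Fin d → ℤ)} (h0 : S.Nonempty)
    (hs : SmoothLong (convexHull ℝ (toR '' (S : Set (Fin d → ℤ)))) ((d + 1) ^ 2 * (d + 2))) {J : Type} [Fintype J]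
    [DecidableEq J] (B : J → Finset (Fin d → ℤ))
    (hB : ∀ j, ∀ v ∈ (convexHull ℝ (toR '' (S : Set (Fin d → ℤ)))).extremePoints ℝ, ∃ w ∈ B j,
      ∀ φ : (Fin d → ℝ) →L[ℝ] ℝ, (∀ x ∈ convexHull ℝ (toR '' (S : Set (Fin d → ℤ))), φ v ≤ φ x) →
        ∀ y ∈ B j, φ (toR w) ≤ φ (toR y))
    {n : ℕ} (g : (Fin d → ℤ) × (J → ℤ) →+ (Fin n → ℤ))
    (hg : ∀ x y, g x = g y → dg _ J x = dg _ J y → x = y) :
    ToricKoszul K {z | ∃ j x, toR x ∈ convexHull ℝ (toR '' (S : Set (Fin d → ℤ))) + convexHull ℝ (toR '' (B j : Set (Fin d → ℤ))) ∧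
      z = g (x, Pi.single j 1)} := by
  classical
  have hfin : ∀ T : Finset (Fin d → ℤ), (toR '' (T : Set (Fin d → ℤ))).Finite :=
    fun T => T.finite_toSet.image _
  obtain ⟨D⟩ := exists_vd (hfin S) hs
  set P := convexHull ℝ (toR '' (S : Set (Fin d → ℤ))) with hP
  have hK : IsCompact P := (hfin S).isCompact_convexHull ℝ
  have h1 : P.Nonempty := (h0.to_set.image _).convexHull
  have : Finite (P.extremePoints ℝ) := ((hfin S).subset extremePoints_convexHull_subset).to_subtype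
  have : Fintype D.I := (Set.finite_range _).fintype
  have hN : 0 < (d + 1) ^ 2 * (d + 2) := by positivity
  obtain ⟨v, hv⟩ := hK.extremePoints_nonempty h1
  have h2 : ∀ j (v : P.extremePoints ℝ), ∃ w ∈ B j, ∀ i, ∀ y ∈ convexHull ℝ (toR '' (B j : Set (Fin d → ℤ))),
      pairL (D.n v i) (toR w) ≤ pairL (D.n v i) y := fun j v => by
    obtain ⟨w, h2, h3⟩ := hB j v v.2
    exact ⟨w, h2, fun i => hull_min (h3 _ (D.cone v i))⟩
  have hm : ∀ {T : Finset (Fin d → ℤ)} {w}, w ∈ T →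
      toR w ∈ convexHull ℝ (toR '' (T : Set (Fin d → ℤ))) :=
    fun h => subset_convexHull ℝ _ (Set.mem_image_of_mem _ h)
  have h3 : ∀ j F, ∃ t : ℤ, (t : ℝ) = D.sup P F + D.sup (convexHull ℝ (toR '' (B j : Set (Fin d → ℤ)))) F := by
    intro j F
    obtain ⟨v, i, rfl⟩ := D.exists_nI F
    obtain ⟨w, h3, h4⟩ := h2 j v
    obtain ⟨s, -, h5⟩ := extremePoints_convexHull_subset v.2
    rw [D.sup_eq v.2.1 (D.cone v i), D.sup_eq (hm h3) (h4 i), ← h5,
      pairL_toR, pairL_toR]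
    exact ⟨-(D.n v i ⬝ᵥ s) + -(D.n v i ⬝ᵥ w), by rw [Int.cast_add, Int.cast_neg, Int.cast_neg]⟩
  choose h hh using h3
  have h4 := Fan.main (K := K) (X := D.fan hN hK) d ∅ ⟨v, hv⟩ (empty_subset _) (by simp [VD.fan])
    J h fun j u _ F => by
      obtain ⟨w, h3, h4⟩ := h2 j u
      have h5 := D.Tv_sup u (hm h3) h4 F
      have h6 : 0 ≤ D.sup (convexHull ℝ (toR '' (B j : Set (Fin d → ℤ)))) F + pairL F.1 (toR w) := by
        obtain ⟨v, i, rfl⟩ := D.exists_nI F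
        obtain ⟨w', h6, h7⟩ := h2 j v
        rw [D.sup_eq (hm h6) (h7 i)]
        simpa [VD.nI_val] using h7 i _ (hm h3)
      rw [show cst (h j) = D.sup P + D.sup (convexHull ℝ (toR '' (B j : Set (Fin d → ℤ)))) from funext (hh j), map_add,
        ← map_smul]
      change Tv _ _ (_ • _ • _) F ≤ Tv _ _ _ F + Tv _ _ _ F
      rw [smul_smul, show (((D.fan hN hK).d : ℝ) + 1) ^ 2 * (d + 2) = ((d + 1) ^ 2 * (d + 2) : ℕ) by
        simp [VD.fan], mul_inv_cancel₀ (Nat.cast_pos.2 hN).ne', one_smul]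
      exact le_add_of_nonneg_right (h6.trans_eq h5.symm)
  let R : (D.I → ℤ) →+ (Fin d → ℤ) :=
    AddMonoidHom.mk' (fun ν => ∑ i, ν (D.nI ⟨v, hv⟩ i) • D.e ⟨v, hv⟩ i) fun x y => by
      simp [add_mul, sum_add_distrib]
  have h5 : ∀ x, R (D.emb x) = x := fun x => funext fun k => by
    have := congrFun (D.span ⟨v, hv⟩ (toR x)) k
    simp only [Finset.sum_apply, Pi.smul_apply, smul_eq_mul, pairL_toR, toR] at this
    simp only [R, AddMonoidHom.mk'_apply, Finset.sum_apply, Pi.smul_apply, smul_eq_mul]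
    exact_mod_cast this
  let f := (g.comp (R.prodMap (AddMonoidHom.id (J → ℤ)))).prod (dg _ J)
  have h6 : ∀ j x, toR x ∈ P + convexHull ℝ (toR '' (B j : Set (Fin d → ℤ))) ↔
      (D.emb x, Pi.single j 1) ∈ (D.fan hN hK).Sat ∅ h := fun j x => by
    rw [D.mem_add hN hK (convex_convexHull ℝ _) h1 ((hfin _).isCompact_convexHull ℝ)
      (convex_convexHull ℝ _) fun v => (h2 j v).elim fun w hw =>
        ⟨_, hm hw.1, hw.2⟩]
    have h6 : ∀ F, 0 ≤ pairL F.1 (toR x) + (D.sup P F + D.sup (convexHull ℝ (toR '' (B j : Set (Fin d → ℤ)))) F) ↔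
        0 ≤ sl h (D.emb x, Pi.single j 1) F := fun F => by
      rw [← hh, pairL_toR, ← Int.cast_add, Int.cast_nonneg_iff, sl_apply]
      simp [Pi.single_apply, VD.emb]
    simp only [h6]
    exact ⟨fun h => ⟨⟨x, rfl⟩, Pi.single_nonneg.2 zero_le_one, h, by simp⟩, fun h => h.2.2.1⟩
  refine Good.toric ((Set.finite_iUnion fun j => (finite_lattice (hK.add
    ((hfin (B j)).isCompact_convexHull ℝ))).image fun x => g (x, Pi.single j 1)).subset ?_) ?_
  · rintro _ ⟨j, x, h7, rfl⟩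
    exact Set.mem_iUnion.2 ⟨j, x, h7, rfl⟩
  convert Good.map (deg := AddMonoidHom.snd _ _) f (h4.closure.symm ▸ ?_) h4.2 using 1
  · ext ⟨z, t⟩
    constructor
    · rintro ⟨⟨j, x, h7, rfl⟩, rfl⟩
      exact ⟨_, ⟨(h6 j x).1 h7, by simp [dg_apply]⟩, by simp [f, h5, dg_apply]⟩
    · rintro ⟨⟨_, m⟩, ⟨h7, h8⟩, h9⟩
      obtain ⟨x, rfl⟩ := h7.1
      obtain ⟨j, rfl⟩ := exists_single h7.2.1 h8
      cases h9
      exact ⟨⟨j, x, (h6 j x).2 h7, by simp [h5]⟩, h8⟩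
  · rintro ⟨_, m⟩ ⟨⟨x, rfl⟩, -⟩ ⟨_, m'⟩ ⟨⟨x', rfl⟩, -⟩ h7
    have h8 := hg (x, m) (x', m') (by simpa [f, h5] using congrArg Prod.fst h7)
      (congrArg Prod.snd h7 :)
    cases h8
    rfl

end Pool.Agent.Lib.MP_b664fd_ag
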