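import Pool.Agent.Lib.MP_b664fd_ag.H10Core

/-! Peeling off facets of polytopes with long edges. -/

set_option linter.unusedSectionVars false

open Finset

namespace Pool.Agent.Lib.MP_b664fd_ag

variable {K : Type} [Field K] {I V J : Type} [Fintype I] [DecidableEq I] [Fintype J] [DecidableEq J]

/-- Slack at the vertex with tight set `σ` and edge directions `ε`. -/
def Tv (σ : Finset I) (ε : I → I → ℤ) : (I → ℝ) →ₗ[ℝ] (I → ℝ) where
  toFun h := fun F => h F - ∑ m ∈ σ, h m * ε m F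
  map_add' x y := funext fun F => by simp [add_mul, sum_add_distrib]; ring
  map_smul' t x := funext fun F => by simp [mul_sub, mul_sum, mul_assoc]

/-- A smooth complete fan in slack coordinates with a polytope whose edges have length one or more. -/
structure Fan (I V : Type) [Fintype I] [DecidableEq I] where
  N : AddSubgroup (I → ℤ)
  d : ℕ
  σ : V → Finset I
  ε : V → I → I → ℤ
  b : I → ℝ
  mem : ∀ v, ∀ m ∈ σ v, ε v m ∈ N
  dual : ∀ v, ∀ m ∈ σ v, ∀ F ∈ σ v, ε v m F = if m = F then 1 else 0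
  span : ∀ v, ∀ ν ∈ N, Tv (σ v) (ε v) (cst ν) = 0
  card : ∀ v, (σ v).card ≤ d
  one : ∀ v, ∀ F ∉ σ v, 1 ≤ Tv (σ v) (ε v) b F
  long : ∀ v F, ∀ m ∈ σ v, 0 ≤ Tv (σ v) (ε v) b F + ε v m F
  compl : ∀ τ v, τ ⊆ σ v → ∀ φ : I → ℝ, ∃ w, τ ⊆ σ w ∧ ∀ m ∈ σ w, m ∉ τ → 0 ≤ ∑ F, φ F * ε w m F

/-- Slack vector of a point of the Cayley monoid. -/
def sl (h : J → I → ℤ) : (I → ℤ) × (J → ℤ) →+ (I → ℤ) where
  toFun x := x.1 + ∑ j, x.2 j • h j
  map_zero' := by simp
  map_add' x y := by simp [add_mul, sum_add_distrib]; abel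

lemma sl_apply (h : J → I → ℤ) (x : (I → ℤ) × (J → ℤ)) (F : I) :
    sl h x F = x.1 F + ∑ j, x.2 j * h j F := by simp [sl]

lemma cst_sl (h : J → I → ℤ) (x : (I → ℤ) × (J → ℤ)) :
    cst (sl h x) = cst x.1 + ∑ j, (x.2 j : ℝ) • cst (h j) := funext fun F => by
  simp [cst, sl_apply]

namespace Fan

variable (X : Fan I V)

/-- Slack at a vertex. -/
abbrev T (v : V) : (I → ℝ) →ₗ[ℝ] (I → ℝ) := Tv (X.σ v) (X.ε v)

/-- Integral slack at a vertex. -/
def TZ (v : V) (h : I → ℤ) : I → ℤ := h - ∑ m ∈ X.σ v, h m • X.ε v m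

/-- The slacks dominate a multiple of those of the base polytope. -/
def Inv (l : ℝ) (τ : Finset I) (r : I → ℝ) : Prop := ∀ v, τ ⊆ X.σ v → l • X.T v X.b ≤ X.T v r

/-- The lattice points of the cone over the Cayley sum of the faces. -/
def Sat (τ : Finset I) (h : J → I → ℤ) : AddSubmonoid ((I → ℤ) × (J → ℤ)) where
  carrier := {x | x.1 ∈ X.N ∧ 0 ≤ x.2 ∧ 0 ≤ sl h x ∧ ∀ F ∈ τ, sl h x F = 0}
  zero_mem' := ⟨zero_mem _, le_rfl, by simp, by simp⟩
  add_mem' := fun h1 h2 => ⟨add_mem h1.1 h2.1, add_nonneg h1.2.1 h2.2.1,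
    by rw [map_add]; exact add_nonneg h1.2.2.1 h2.2.2.1,
    fun F hF => by simp [h1.2.2.2 F hF, h2.2.2.2 F hF]⟩

variable {X} {v w : V} {τ : Finset I} {l : ℝ} {r y : I → ℝ} {h : J → I → ℤ}

lemma T_apply (r : I → ℝ) (F : I) : X.T v r F = r F - ∑ m ∈ X.σ v, r m * X.ε v m F := rfl

lemma T_mem (r : I → ℝ) {F : I} (hF : F ∈ X.σ v) : X.T v r F = 0 := by
  rw [T_apply, sum_eq_single F (fun m hm h => by simp [X.dual v m hm F hF, h]) (by simp [hF])]
  simp [X.dual v F hF F hF]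

lemma cst_TZ (g : I → ℤ) : cst (X.TZ v g) = X.T v (cst g) :=
  funext fun F => by simp [T_apply, TZ, cst]

lemma TZ_sub (g : I → ℤ) : X.TZ v g - g ∈ X.N := by
  rw [TZ, sub_sub_cancel_left]
  exact neg_mem (sum_mem fun m hm => zsmul_mem (X.mem v m hm) _)

lemma T_T (r : I → ℝ) : X.T v (X.T w r) = X.T v r := by
  have : X.T w r = r - ∑ m ∈ X.σ w, r m • cst (X.ε w m) := funext fun F => by
    simp [T_apply, cst]
  rw [this, map_sub, map_sum, sum_eq_zero fun m hm => ?_, sub_zero]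
  rw [map_smul, X.span v _ (X.mem w m hm), smul_zero]

lemma b_nonneg : 0 ≤ X.T v X.b := fun F => by
  by_cases h : F ∈ X.σ v
  · exact (T_mem _ h).ge
  · exact zero_le_one.trans (X.one v F h)

lemma ub (hτ : τ ⊆ X.σ v) (φ : I → ℝ) : ∃ w, τ ⊆ X.σ w ∧ ∀ s : I → ℝ, 0 ≤ s →
    (∀ F ∈ τ, s F = 0) → ∑ F, φ F * X.T w s F ≤ ∑ F, φ F * s F := by
  obtain ⟨w, h1, h2⟩ := X.compl τ v hτ φ
  refine ⟨w, h1, fun s h3 h4 => ?_⟩
  simp only [T_apply, mul_sub, sum_sub_distrib, sub_le_self_iff, mul_sum]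
  rw [sum_comm]
  refine sum_nonneg fun m hm => ?_
  by_cases h5 : m ∈ τ
  · simp [h4 m h5]
  · simpa [mul_sum, mul_left_comm] using mul_nonneg (h3 m) (h2 m hm h5)

lemma ub' (hτ : τ ⊆ X.σ v) (t : ℝ) (F : I) : ∃ w, τ ⊆ X.σ w ∧ ∀ s : I → ℝ, 0 ≤ s →
    (∀ F ∈ τ, s F = 0) → t * X.T w s F ≤ t * s F := by
  simpa [Pi.single_apply] using ub hτ (Pi.single F t)

lemma pointed (hτ : τ ⊆ X.σ v) {s : I → ℝ} (h0 : 0 ≤ s) (h1 : ∀ F ∈ τ, s F = 0)
    (h2 : ∀ w, X.T w s = 0) : s = 0 := funext fun F => by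
  obtain ⟨w, -, h3⟩ := ub' hτ (-1) F
  have := h3 s h0 h1
  rw [h2] at this
  exact le_antisymm (by simpa using this) (h0 F)

lemma Inv.mono (h : X.Inv l τ r) {τ' : Finset I} (h1 : τ ⊆ τ') : X.Inv l τ' r :=
  fun v hv => h v (h1.trans hv)

lemma Inv.inward (h : X.Inv l τ r) {c : ℝ} (h1 : ∀ F, r F - c ≤ y F) (h2 : y ≤ r) :
    X.Inv (l - c * (X.d + 1)) τ y := fun v hv F => by
  by_cases hF : F ∈ X.σ v
  · simp [T_mem _ hF]
  have h3 := h v hv F
  have h4 := X.one v F hF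
  have hc : 0 ≤ c := by linarith [h1 F, h2 F]
  have h5 : ∑ m ∈ X.σ v, (y m - r m) * X.ε v m F ≤ ∑ m ∈ X.σ v, c * X.T v X.b F :=
    sum_le_sum fun m hm => by
      have := X.long v F m hm
      rcases le_total 0 (X.ε v m F : ℝ) with h6 | h6 <;> nlinarith [h1 m, h2 m]
  rw [sum_const, nsmul_eq_mul] at h5
  have h6 : ((X.σ v).card : ℝ) ≤ X.d := Nat.cast_le.2 (X.card v)
  have h7 : ((X.σ v).card : ℝ) * (c * X.T v X.b F) ≤ X.d * (c * X.T v X.b F) :=
    mul_le_mul_of_nonneg_right h6 (by positivity)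
  simp only [sub_mul, sum_sub_distrib] at h5
  simp only [Pi.smul_apply, smul_eq_mul] at h3 ⊢
  rw [T_apply r] at h3
  rw [T_apply y]
  nlinarith [h1 F]

lemma T_sl {x : (I → ℤ) × (J → ℤ)} (hx : x.1 ∈ X.N) :
    X.T v (cst (sl h x)) = ∑ j, (x.2 j : ℝ) • X.T v (cst (h j)) := by
  simp [cst_sl, X.span v _ hx]

lemma sat_zero (hτ : τ ⊆ X.σ v) (hl : 0 < l) (hh : ∀ j, X.Inv l τ (cst (h j))) {F : I}
    (hF : ∀ w, ¬insert F τ ⊆ X.σ w) : ∀ x ∈ X.Sat (insert F τ) h, x = 0 := by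
  rintro x ⟨h1, h2, h3, h4⟩
  have h5 : ∀ G ∈ τ, cst (sl h x) G = 0 := fun G hG => by simp [cst, h4 G (by simp [hG])]
  obtain ⟨w, h6, h7⟩ := ub' hτ 1 F
  have h8 := h7 _ (cst_nonneg.2 h3) h5
  have h9 : F ∉ X.σ w := fun h => hF w (insert_subset h h6)
  have h10 : ∀ j, 0 < X.T w (cst (h j)) F := fun j =>
    (mul_pos hl (one_pos.trans_le (X.one w F h9))).trans_le (hh j w h6 F)
  simp only [T_sl h1, one_mul, cst, h4 F (by simp), Int.cast_zero, Finset.sum_apply, Pi.smul_apply,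
    smul_eq_mul] at h8
  have h11 : ∀ j ∈ univ, 0 ≤ (x.2 j : ℝ) * X.T w (cst (h j)) F := fun j _ =>
    mul_nonneg (Int.cast_nonneg (h2 j)) (h10 j).le
  have h12 : x.2 = 0 := funext fun j => by
    simpa [(h10 j).ne'] using (sum_eq_zero_iff_of_nonneg h11).1
      (le_antisymm h8 (sum_nonneg h11)) j (mem_univ _)
  have h13 := pointed hτ (cst_nonneg.2 h3) h5 fun w => by simp [T_sl h1, h12]
  rw [cst_sl, h12] at h13
  exact Prod.ext (cst_inj (by simpa using h13.trans (funext fun _ => by simp [cst]))) h12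

lemma peel {i : J} {F : I} (n1 : Nice K (dg _ J) (X.Sat τ (Function.update h i (h i - Pi.single F 1))))
    (n2 : Nice K (dg _ (Option J))
      (X.Sat (insert F τ) fun o => o.elim (h i - Pi.single F 1) h)) (hF : F ∉ τ) :
    Nice K (dg _ J) (X.Sat τ h) := by
  let χ : (I → ℤ) × (J → ℤ) →+ ℤ :=
    AddMonoidHom.mk' (fun x => sl h x F - x.2 i) fun x y => by simp; ring
  let f : (I → ℤ) × (Option J → ℤ) →+ (I → ℤ) × (J → ℤ) :=
    AddMonoidHom.mk' (fun x => (x.1, (fun j => x.2 (some j)) + Pi.single i (x.2 none)))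
      fun x y => Prod.ext rfl (funext fun j => by simp [Pi.single_apply]; split_ifs <;> ring)
  have e1 : ∀ x, sl (Function.update h i (h i - Pi.single F 1)) x = sl h x - Pi.single F (x.2 i) := by
    intro x
    funext G
    rw [Pi.sub_apply, sl_apply, sl_apply, ← add_sum_erase _ _ (mem_univ i),
      ← add_sum_erase _ _ (mem_univ i), sum_congr rfl fun j hj => by
        rw [Function.update_of_ne (ne_of_mem_erase hj)]]
    simp [Pi.single_apply]
    split_ifs <;> ring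
  have e2 : ∀ x, sl (fun o : Option J => o.elim (h i - Pi.single F 1) h) x =
      sl h (f x) - Pi.single F (x.2 none) := fun x => funext fun G => by
    simp [sl_apply, f, Pi.single_apply, add_mul, sum_add_distrib]
    split_ifs <;> ring
  refine Nice.cut χ (fun x => ?_) (S₂ := X.Sat τ h ⊓ (AddSubmonoid.nonneg ℤ).comap (-χ))
    (fun x => Iff.rfl) n1 (n2.map f (fun x => by simp [f, dg_apply, sum_add_distrib, add_comm])
      (fun x hx y hy h1 => ?_) fun x => ⟨fun hx => ?_, ?_⟩)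
  · refine ⟨fun ⟨h1, h2, h3, h4⟩ => ⟨⟨h1, h2, fun G => ?_, fun G hG => ?_⟩, ?_⟩,
      fun ⟨⟨h1, h2, h3, h4⟩, h5⟩ => ⟨h1, h2, fun G => ?_, fun G hG => ?_⟩⟩
    · rw [e1, sub_nonneg] at h3
      exact (Pi.single_nonneg.2 (h2 i) G).trans (h3 G)
    · simpa [e1, Pi.single_eq_of_ne (ne_of_mem_of_not_mem hG hF)] using h4 G hG
    · simpa [e1, χ] using h3 F
    · by_cases h6 : G = F
      · simpa [e1, χ, h6] using h5
      · simpa [e1, h6] using h3 G
    · simpa [e1, Pi.single_eq_of_ne (ne_of_mem_of_not_mem hG hF)] using h4 G hG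
  · have h2 := hx.2.2.2 F (by simp)
    have h3 := hy.2.2.2 F (by simp)
    simp only [e2, Pi.sub_apply, Pi.single_eq_same, h1] at h2 h3
    have h4 : x.2 none = y.2 none := by omega
    refine Prod.ext (congrArg Prod.fst h1 :) (funext fun o => ?_)
    rcases o with _ | j
    · exact h4
    · simpa [f, h4] using congrFun (congrArg Prod.snd h1) j
  · obtain ⟨⟨h1, h2, h3, h4⟩, h5⟩ := hx
    let z : (I → ℤ) × (Option J → ℤ) :=
      (x.1, fun o => o.elim (sl h x F) (x.2 - Pi.single i (sl h x F)))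
    have h6 : f z = x := Prod.ext rfl (funext fun j => by simp [f, z])
    refine ⟨z, ⟨h1, ?_, fun G => ?_, fun G hG => ?_⟩, h6⟩
    · rintro (_ | j)
      · exact h3 F
      · by_cases h7 : j = i
        · simpa [z, h7, χ] using h5
        · simpa [z, h7] using h2 j
    · by_cases h7 : G = F
      · simp [e2, h6, h7, z]
      · simpa [e2, h6, h7] using h3 G
    · rcases mem_insert.1 hG with rfl | hG
      · simp [e2, h6, z]
      · simpa [e2, h6, Pi.single_eq_of_ne (ne_of_mem_of_not_mem hG hF)] using h4 G hG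
  · rintro ⟨z, ⟨h1, h2, h3, h4⟩, rfl⟩
    rw [e2, sub_nonneg] at h3
    refine ⟨⟨h1, add_nonneg (fun j => h2 _) (Pi.single_nonneg.2 (h2 _)),
      (Pi.single_nonneg.2 (h2 _)).trans h3, fun G hG => ?_⟩, ?_⟩
    · simpa [e2, Pi.single_eq_of_ne (ne_of_mem_of_not_mem hG hF)] using h4 G (by simp [hG])
    · have h5 := h4 F (by simp)
      have h6 := h2 (some i)
      simp only [e2, Pi.sub_apply, Pi.single_eq_same, sub_eq_zero, Pi.zero_apply] at h5 h6
      change 0 ≤ -(sl h (f z) F - (f z).2 i)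
      rw [h5]
      simpa [f] using h6

lemma shift {h' : J → I → ℤ} (h1 : ∀ j, h' j - h j ∈ X.N) (n : Nice K (dg _ J) (X.Sat τ h')) :
    Nice K (dg _ J) (X.Sat τ h) := by
  let f : (I → ℤ) × (J → ℤ) →+ (I → ℤ) × (J → ℤ) := (sl (h' - h)).prod (AddMonoidHom.snd _ _)
  have e1 : ∀ x, sl h (f x) = sl h' x := fun x => funext fun G => by
    simp [f, sl_apply, mul_sub]
    ring
  have e2 : ∀ x : (I → ℤ) × (J → ℤ), ∑ j, x.2 j • (h' - h) j ∈ X.N := fun x =>
    sum_mem fun j _ => zsmul_mem (h1 j) _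
  refine n.map f (fun x => rfl) (fun x _ y _ h2 => ?_) fun x => ⟨fun hx => ?_, ?_⟩
  · have h3 : x.2 = y.2 := (congrArg Prod.snd h2 :)
    have h4 : x.1 + ∑ j, x.2 j • (h' - h) j = y.1 + ∑ j, y.2 j • (h' - h) j := congrArg Prod.fst h2
    exact Prod.ext (by simpa [h3] using h4) h3
  · have h2 : f (x.1 - ∑ j, x.2 j • (h' - h) j, x.2) = x := Prod.ext (by simp [f, sl]) rfl
    refine ⟨(x.1 - ∑ j, x.2 j • (h' - h) j, x.2), ⟨sub_mem hx.1 (e2 x), hx.2.1, ?_⟩, h2⟩
    rw [← e1, h2]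
    exact hx.2.2
  · rintro ⟨z, hz, rfl⟩
    exact ⟨add_mem hz.1 (e2 z), hz.2.1, e1 z ▸ hz.2.2⟩

lemma interior (hτ : τ ⊆ X.σ v) {q : I → ℤ} (hl : X.d < l) (hq : X.Inv l τ (cst q)) {s : I → ℝ}
    {t : ℝ} (ht : 0 < t) (h0 : 0 ≤ s) (h1 : ∀ F ∈ τ, s F = 0)
    (h2 : ∀ w, X.T w s = t • X.T w (cst q)) :
    ∃ p, p - q ∈ X.N ∧ 0 ≤ p ∧ (∀ F, p F = 0 ↔ F ∈ zs s) ∧ (zs s).card ≤ X.d := by
  obtain ⟨w, h3, h4⟩ := ub hτ fun F => if F ∈ zs s then 1 else 0
  have hl0 : 0 < l := (Nat.cast_nonneg _).trans_lt hl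
  have h5 : ∀ F, 0 ≤ X.T w s F := fun F => by
    rw [h2]
    exact mul_nonneg ht.le ((mul_nonneg hl0.le (b_nonneg F)).trans (hq w h3 F))
  have h6 : zs s ⊆ X.σ w := fun F hF => by_contra fun h => by
    have h7 := h4 s h0 h1
    simp only [ite_mul, one_mul, zero_mul, sum_ite_mem, univ_inter] at h7
    rw [sum_eq_zero fun G hG => mem_zs.1 hG] at h7
    have h8 := (single_le_sum (fun G _ => h5 G) hF).trans h7
    rw [h2] at h8
    exact h8.not_gt (mul_pos ht ((mul_pos hl0 (one_pos.trans_le (X.one w F h))).trans_le (hq w h3 F)))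
  have h7 : ∀ F, (F ∈ zs s → (X.TZ w q + ∑ m ∈ X.σ w \ zs s, X.ε w m) F = 0) ∧
      (F ∉ zs s → 0 < (X.TZ w q + ∑ m ∈ X.σ w \ zs s, X.ε w m) F) := fun F => by
    have h8 : ((X.TZ w q F : ℤ) : ℝ) = X.T w (cst q) F := congrFun (cst_TZ q) F
    by_cases hF : F ∈ X.σ w
    · rw [T_mem _ hF, Int.cast_eq_zero] at h8
      rw [Pi.add_apply, h8, Finset.sum_apply,
        sum_congr rfl fun m hm => X.dual w m (mem_sdiff.1 hm).1 F hF]
      by_cases h : F ∈ zs s <;> simp [hF, h]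
    · refine ⟨fun h => absurd (h6 h) hF, fun _ => ?_⟩
      have h9 : ∑ m ∈ X.σ w \ zs s, -X.T w X.b F ≤ ∑ m ∈ X.σ w \ zs s, (X.ε w m F : ℝ) :=
        sum_le_sum fun m hm => by linarith [X.long w F m (mem_sdiff.1 hm).1]
      have h10 : ((X.σ w \ zs s).card : ℝ) ≤ X.d :=
        Nat.cast_le.2 ((card_le_card sdiff_subset).trans (X.card w))
      have h11 := hq w h3 F
      have h12 := X.one w F hF
      rw [sum_const, nsmul_eq_mul] at h9
      rw [← Int.cast_pos (R := ℝ), Pi.add_apply, Finset.sum_apply, Int.cast_add, h8, Int.cast_sum]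
      simp only [Pi.smul_apply, smul_eq_mul] at h11
      nlinarith
  refine ⟨_, ?_, fun F => ?_, fun F => ⟨fun h => by_contra fun h' => ((h7 F).2 h').ne' h, (h7 F).1⟩,
    (card_le_card h6).trans (X.card w)⟩
  · rw [add_sub_right_comm]
    exact add_mem (TZ_sub q) (sum_mem fun m hm => X.mem w m (mem_sdiff.1 hm).1)
  · by_cases h : F ∈ zs s
    · exact ((h7 F).1 h).ge
    · exact ((h7 F).2 h).le

theorem core (hτ : τ ⊆ X.σ v) {q : I → ℤ} (hl : X.d < l) (hq : X.Inv l τ (cst q)) {c : ℕ}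
    (hc : X.d ≤ c) (hc1 : 1 ≤ c) : Nice K (dg _ J) (X.Sat τ fun _ => (c : ℤ) • q) := by
  classical
  let L : AddSubgroup (Option I → ℤ) :=
    { carrier := {y | (fun F => y (some F)) - y none • q ∈ X.N ∧ ∀ F ∈ τ, y (some F) = 0}
      zero_mem' := ⟨by
        convert X.N.zero_mem using 1
        funext F
        simp, by simp⟩
      add_mem' := fun {a b} h1 h2 => ⟨by
        convert add_mem h1.1 h2.1 using 1
        funext F
        simp; ring, fun F hF => by simp [h1.2 F hF, h2.2 F hF]⟩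
      neg_mem' := fun {a} h1 => ⟨by
        convert neg_mem h1.1 using 1
        funext F
        simp; ring, fun F hF => by simp [h1.2 F hF]⟩ }
  let U : Submodule ℝ (Option I → ℝ) :=
    { carrier := {z | (∀ w, X.T w (fun F => z (some F)) = z none • X.T w (cst q)) ∧
        ∀ F ∈ τ, z (some F) = 0}
      zero_mem' := ⟨fun w => (X.T w).map_zero.trans (by simp), by simp⟩
      add_mem' := fun {a b} h1 h2 => ⟨fun w => by
        rw [Pi.add_apply, add_smul, ← h1.1, ← h2.1, ← map_add]; rfl,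
        fun F hF => by simp [h1.2 F hF, h2.2 F hF]⟩
      smul_mem' := fun t a h1 => ⟨fun w => by
        rw [Pi.smul_apply, smul_eq_mul, mul_smul, ← h1.1, ← map_smul]; rfl,
        fun F hF => by simp [h1.2 F hF]⟩ }
  have hU : ∀ y ∈ L, cst y ∈ U := fun y hy => ⟨fun w => by
    have := X.span w _ hy.1
    rwa [cst_sub, map_sub, sub_eq_zero, show cst (y none • q) = cst y none • cst q from
      funext fun F => by simp [cst], map_smul] at this, fun F hF => by simp [cst, hy.2 F hF]⟩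
  let Adm : Finset (Option I) → Prop := fun Z =>
    ∃ p ∈ L, 0 ≤ p ∧ p none = 1 ∧ (∀ i, p i = 0 ↔ i ∈ Z) ∧ Z.card ≤ X.d
  have hA : ∀ Z, Adm Z → ∃ p ∈ L, 0 ≤ p ∧ p none = 1 ∧ (∀ i, p i = 0 ↔ i ∈ Z) ∧ Z.card ≤ X.d :=
    fun Z h => h
  choose! p p1 p2 p3 p4 p5 using hA
  let B : LBary (Option I) :=
    { o := none, U := U, Adm := Adm, π := fun Z => cst (p Z), L := L, D := X.d
      mem := fun Z h => hU _ (p1 Z h)
      nn := fun Z h => cst_nonneg.2 (p2 Z h)
      zero := fun Z h i => by simpa [cst] using p4 Z h i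
      one := fun Z h => by simp [cst, p3 Z h]
      inU := hU
      lat := fun Z h => ⟨_, p1 Z h, rfl⟩
      card := p5
      adm := fun z hz h0 h1 => by
        have h2 : 0 < z none := (h0 none).lt_of_ne' fun h => h1 (by
          have := pointed hτ (s := fun F => z (some F)) (fun F => h0 _) hz.2 fun w => by
            simp [hz.1, h]
          funext o
          rcases o with _ | F
          · exact h
          · exact congrFun this F)
        obtain ⟨p, h3, h4, h5, h6⟩ := interior hτ hl hq h2 (fun F => h0 _) hz.2 hz.1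
        refine ⟨fun o => o.elim 1 p, ⟨by simpa using h3, fun F hF => (h5 F).2
          (mem_zs.2 (hz.2 F hF))⟩, ?_, rfl, ?_, le_trans ?_ (card_image_le.trans h6 :
            ((zs fun F => z (some F)).image some).card ≤ _)⟩
        · rintro (_ | F)
          · exact zero_le_one
          · exact h4 F
        · rintro (_ | F)
          · simp [mem_zs, h2.ne']
          · simpa [mem_zs] using h5 F
        · refine card_le_card ?_
          rintro (_ | F) h7
          · exact absurd (mem_zs.1 h7) h2.ne'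
          · exact mem_image_of_mem _ (mem_zs.2 (mem_zs.1 h7 :)) }
  let f : (Option I → ℤ) × (J → ℤ) →+ (I → ℤ) × (J → ℤ) :=
    AddMonoidHom.mk' (fun x => ((fun F => x.1 (some F)) - (c * ∑ j, x.2 j) • q, x.2))
      fun x y => Prod.ext (funext fun F => by simp [sum_add_distrib]; ring) rfl
  have e1 : ∀ x F, sl (fun _ : J => (c : ℤ) • q) (f x) F = x.1 (some F) := fun x F => by
    simp [sl_apply, f, ← sum_mul]; ring
  refine (LBary.nice (B := B) (J := J) K hc hc1 ?_).map f (fun _ => rfl) (fun x hx y hy h1 => ?_)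
    fun x => ⟨fun ⟨h1, h2, h3, h4⟩ => ?_, ?_⟩
  · rintro (_ | F)
    · exact ⟨c, fun y _ _ h => h.le⟩
    obtain ⟨w, -, h1⟩ := ub' hτ (-1) F
    refine ⟨c * X.TZ w q F, fun y h2 h3 h4 => ?_⟩
    have h5 := h1 (fun F => cst y (some F)) (fun F => cst_nonneg.2 h3 _) (hU y h2).2
    rw [(hU y h2).1, ← cst_TZ] at h5
    simp only [cst, show y none = c from h4, Pi.smul_apply, smul_eq_mul, neg_mul, one_mul,
      neg_le_neg_iff] at h5
    exact_mod_cast h5
  · have h2 : x.2 = y.2 := (congrArg Prod.snd h1 :)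
    refine Prod.ext (funext ?_) h2
    rintro (_ | F)
    · exact hx.2.2.2.trans (h2 ▸ hy.2.2.2.symm)
    · rw [← e1, h1, e1]
  · let z : (Option I → ℤ) × (J → ℤ) :=
      (fun o => o.elim (c * ∑ j, x.2 j) (sl (fun _ : J => (c : ℤ) • q) x), x.2)
    have h5 : f z = x := Prod.ext (funext fun F => by simp [f, z, sl_apply, ← sum_mul]; ring) rfl
    refine ⟨z, ⟨⟨(show (f z).1 ∈ X.N from h5.symm ▸ h1), h4⟩, ?_, h2, rfl⟩, h5⟩
    rintro (_ | F)
    · exact mul_nonneg (Nat.cast_nonneg c) (sum_nonneg fun j _ => h2 j)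
    · exact h3 F
  · rintro ⟨z, ⟨⟨h1, h2⟩, h3, h4, h5⟩, rfl⟩
    rw [show z.1 none = _ from h5] at h1
    exact ⟨h1, h4, fun F => (e1 z F).symm ▸ h3 _,
      fun F hF => (e1 z F).trans (h2 F hF)⟩

lemma step {g y : I → ℤ} {u r : I → ℝ} {c : ℝ} (hc : 1 ≤ c) (hu : X.Inv l τ u)
    (h1 : cst g ≤ u) (h2 : ∀ F, u F - c ≤ g F) (h3 : g ≤ y) (h4 : y ≠ g) (hr : X.Inv l τ r)
    (h5 : ∀ F, r F - c ≤ y F) (h6 : cst y ≤ r) (h7 : u ≤ r) : ∃ F, g F < y F ∧ ∃ r', X.Inv l τ r' ∧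
      (∀ G, r' G - c ≤ cst (y - Pi.single F 1) G) ∧ cst y ≤ r' ∧ u ≤ r' := by
  by_cases h8 : cst y ≤ u
  · obtain ⟨F, hF⟩ := (Pi.lt_def.1 (h3.lt_of_ne' h4)).2
    refine ⟨F, hF, u, hu, fun G => (h2 G).trans (Int.cast_le.2 ?_), h8, le_rfl⟩
    by_cases h : G = F
    · simp [h]; omega
    · simpa [h] using h3 G
  obtain ⟨F, h9, h10⟩ := exists_min_image (univ.filter fun F => u F < y F)
    (fun F => (r F - y F) / (r F - u F)) (by simpa [Pi.le_def, cst, Finset.Nonempty] using h8)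
  simp only [mem_filter, mem_univ, true_and] at h9 h10
  have h11 : ∀ G, u G < y G → 0 < r G - u G := fun G hG => sub_pos.2 (hG.trans_le (h6 G))
  set s := (r F - y F) / (r F - u F) with hs
  have h12 : 0 ≤ s := div_nonneg (sub_nonneg.2 (h6 F)) (h11 F h9).le
  have h13 : s ≤ 1 := (div_le_one (h11 F h9)).2 (by linarith)
  have h14 : s * (r F - u F) = r F - y F := div_mul_cancel₀ _ (h11 F h9).ne'
  refine ⟨F, Int.cast_lt.1 ((h1 F).trans_lt h9), (1 - s) • r + s • u, fun v hv G => ?_,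
    fun G => ?_, fun G => ?_, fun G => ?_⟩
  · have := hr v hv G
    have := hu v hv G
    simp only [map_add, map_smul, Pi.add_apply, Pi.smul_apply, smul_eq_mul] at *
    nlinarith
  · by_cases h : G = F
    · simp [h, cst]; linarith
    · simp [h, cst]; nlinarith [h5 G, h7 G]
  · by_cases h : u G < y G
    · have := (le_div_iff₀ (h11 G h)).1 (h10 G h)
      simp [cst]; linarith
    · simp [cst]; nlinarith [h7 G]
  · simp; nlinarith [h7 G]

theorem main (k : ℕ) : ∀ (τ : Finset I) (v : V), τ ⊆ X.σ v → X.d ≤ τ.card + k →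
    ∀ (J : Type) [Fintype J] [DecidableEq J] (h : J → I → ℤ),
    (∀ j, X.Inv ((X.d + 1) ^ 2 * (k + 2)) τ (cst (h j))) → Nice K (dg _ J) (X.Sat τ h) := by
  induction k using Nat.strong_induction_on with
  | _ k ih =>
  intro τ v hτ hk J _ _ h hh
  set l : ℝ := (X.d + 1) ^ 2 * (k + 2) with hl
  have hd : (0 : ℝ) < X.d + 1 := by positivity
  let u := l • X.T v X.b
  have hu : X.Inv l τ u := fun w _ => by rw [map_smul, T_T]
  let q : I → ℤ := fun F => ⌊u F / (X.d + 1)⌋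
  let g : I → ℤ := ((X.d + 1 : ℕ) : ℤ) • q
  have h1 : cst g ≤ u := fun F => by
    simpa [g, q, cst, mul_comm] using (le_div_iff₀ hd).1 (Int.floor_le (u F / (X.d + 1)))
  have h2 : ∀ F, u F - (X.d + 1) ≤ g F := fun F => by
    have := (div_lt_iff₀ hd).1 (Int.lt_floor_add_one (u F / (X.d + 1)))
    simp [g, q]
    linarith
  have h3 : ∀ F ∈ τ, g F = 0 := fun F hF => by simp [g, q, u, T_mem _ (hτ hF)]
  have h4 : ∀ (y : I → ℤ) r, X.Inv l τ r → (∀ F, r F - (X.d + 1) ≤ y F) → cst y ≤ r →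
      X.Inv ((X.d + 1) ^ 2 * (k + 1)) τ (cst y) := fun y r h5 h6 h7 => by
    have := h5.inward (y := cst y) h6 h7
    rwa [show l - (X.d + 1) * (X.d + 1) = (X.d + 1) ^ 2 * (k + 1) by rw [hl]; ring] at this
  suffices H : ∀ n, ∀ y : J → I → ℤ, ∑ j, ∑ F, (y j F - g F).toNat = n → (∀ j, g ≤ y j ∧
      (∀ F ∈ τ, y j F = 0) ∧ ∃ r, X.Inv l τ r ∧ (∀ F, r F - (X.d + 1) ≤ y j F) ∧ cst (y j) ≤ r ∧
        u ≤ r) → Nice K (dg _ J) (X.Sat τ y) by
    refine shift (h' := fun j => X.TZ v (h j)) (fun j => TZ_sub _) (H _ _ rfl fun j => ?_)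
    have h5 : u ≤ cst (X.TZ v (h j)) := cst_TZ (X := X) (h j) ▸ hh j v hτ
    refine ⟨fun F => Int.cast_le.1 ((h1.trans h5) F), fun F hF => ?_, _, fun w hw => ?_,
      fun F => by simp [cst, hd.le], le_rfl, h5⟩
    · exact Int.cast_eq_zero.1 ((congrFun (cst_TZ (h j)) F).trans (T_mem _ (hτ hF)))
    · rw [cst_TZ, T_T]
      exact hh j w hw
  intro n
  induction n using Nat.strong_induction_on with
  | _ n ih2 =>
  intro y hn hy
  by_cases h5 : ∀ j, y j = g
  · rw [funext h5]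
    refine core (l := (X.d + 1) * (k + 1)) hτ (by nlinarith [(Nat.cast_nonneg k : (0 : ℝ) ≤ k)])
      (fun w hw F => ?_) (Nat.le_succ _) (Nat.le_add_left _ _)
    have h6 := h4 g u hu h2 h1 w hw F
    rw [show cst g = ((X.d : ℝ) + 1) • cst q from funext fun F => by simp [g, cst], map_smul] at h6
    simp only [Pi.smul_apply, smul_eq_mul] at h6 ⊢
    exact le_of_mul_le_mul_left (by linarith) hd
  obtain ⟨i, h5⟩ := not_forall.1 h5
  obtain ⟨a1, a2, r, a3, a4, a5, a6⟩ := hy i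
  obtain ⟨F, b1, r', b2, b3, b4, b5⟩ := step (by simp) hu h1 h2 a1 h5 a3 a4 a5 a6
  have hF : F ∉ τ := fun h => by rw [a2 F h, h3 F h] at b1; exact lt_irrefl _ b1
  have b6 : cst (y i - Pi.single F 1) ≤ r' := le_trans (fun G => Int.cast_le.2
    (sub_le_self (y i) (Pi.single_nonneg.2 zero_le_one) G)) b4
  have b7 : ∀ o : Option J, X.Inv ((X.d + 1) ^ 2 * (k + 1)) τ
      (cst (o.elim (y i - Pi.single F 1) y)) := by
    rintro (_ | j)
    · exact h4 _ r' b2 b3 b6
    · obtain ⟨-, -, r, c1, c2, c3, -⟩ := hy j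
      exact h4 _ r c1 c2 c3
  refine peel (i := i) (F := F) (ih2 _ ?_ _ rfl fun j => ?_) ?_ hF
  · rw [← hn]
    refine sum_lt_sum (fun j _ => sum_le_sum fun G _ => ?_) ⟨i, mem_univ _,
      sum_lt_sum (fun G _ => ?_) ⟨F, mem_univ _, by simp; omega⟩⟩
    · by_cases h : j = i
      · simp only [h, Function.update_self, Pi.sub_apply, Pi.single_apply]
        split_ifs <;> omega
      · rw [Function.update_of_ne h]
    · simp only [Function.update_self, Pi.sub_apply, Pi.single_apply]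
      split_ifs <;> omega
  · by_cases h : j = i
    · rw [h, Function.update_self]
      refine ⟨fun G => ?_, fun G hG => ?_, r', b2, b3, b6, b5⟩
      · by_cases h : G = F
        · simp [h]; omega
        · simpa [h] using a1 G
      · simp [a2 G hG, Pi.single_eq_of_ne (ne_of_mem_of_not_mem hG hF)]
    · rw [Function.update_of_ne h]
      exact hy j
  by_cases h6 : ∃ w, insert F τ ⊆ X.σ w
  · obtain ⟨w, h6⟩ := h6
    have h7 := (card_le_card h6).trans (X.card w)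
    rw [card_insert_of_notMem hF] at h7
    obtain ⟨k, rfl⟩ : ∃ k', k = k' + 1 := ⟨k - 1, by omega⟩
    refine ih k (by omega) _ w h6 (by rw [card_insert_of_notMem hF]; omega) _ _ fun o => ?_
    convert (b7 o).mono (subset_insert F τ) using 2
    push_cast; ring
  · exact Nice.of_zero (sat_zero hτ (by positivity) b7 (not_exists.1 h6))

end Fan

end Pool.Agent.Lib.MP_b664fd_ag
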