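import Pool.Agent.Lib.MP_b664fd_ag.Sep

/-! Nestohedra of building sets whose members can be grown one element at a time. -/

open Finset

namespace Pool.Agent.Lib.MP_b664fd_ag

variable {n : ℕ} {B : Finset (Fin n) → Prop} {z : Finset (Fin n) → ℤ} {P : Set (Fin n → ℝ)}

open Classical in
/-- Maximal members contained in `W`. -/
noncomputable def comps (B : Finset (Fin n) → Prop) (W : Finset (Fin n)) :
    Finset (Finset (Fin n)) := univ.filter fun C => Maximal (fun D => B D ∧ D ⊆ W) C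

lemma mem_comps {W C : Finset (Fin n)} : C ∈ comps B W ↔ Maximal (fun D => B D ∧ D ⊆ W) C := by
  simp [comps]

lemma comps_eq {W C D : Finset (Fin n)} (hC : C ∈ comps B W) (hD : D ∈ comps B W)
    (h : B (C ∪ D)) : C = D := by
  rw [mem_comps] at hC hD
  have h1 : B (C ∪ D) ∧ C ∪ D ⊆ W := ⟨h, union_subset hC.1.2 hD.1.2⟩
  exact (subset_union_left.trans (hD.2 h1 subset_union_right)).antisymm
    (subset_union_right.trans (hC.2 h1 subset_union_left))

lemma comps_cover (hs : ∀ i, B {i}) {W : Finset (Fin n)} {i : Fin n} (hi : i ∈ W) :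
    ∃ C ∈ comps B W, i ∈ C := by
  obtain ⟨C, h1, h2⟩ := Finite.exists_le_maximal (p := fun D => B D ∧ D ⊆ W)
    ⟨hs i, singleton_subset_iff.2 hi⟩
  exact ⟨C, mem_comps.2 h2, h1 (mem_singleton_self i)⟩

lemma comps_sum (hs : ∀ i, B {i}) (hu : ∀ S T, B S → B T → ¬Disjoint S T → B (S ∪ T))
    (W : Finset (Fin n)) (x : Fin n → ℝ) : ∑ i ∈ W, x i = ∑ C ∈ comps B W, ∑ i ∈ C, x i := by
  rw [← sum_biUnion (t := fun C => C) fun C hC D hD h => not_not.1 fun h1 => h (comps_eq hC hD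
    (hu C D (mem_comps.1 hC).1.1 (mem_comps.1 hD).1.1 h1))]
  congr 1
  ext i
  rw [mem_biUnion]
  exact ⟨comps_cover hs, fun ⟨C, h1, h2⟩ => (mem_comps.1 h1).1.2 h2⟩

lemma comps_self {T : Finset (Fin n)} (hT : B T) : comps B T = {T} := by
  ext C
  rw [mem_comps, mem_singleton]
  exact ⟨fun h => h.1.2.antisymm (h.2 ⟨hT, subset_rfl⟩ h.1.2),
    fun h => h ▸ ⟨⟨h ▸ hT, subset_rfl⟩, fun D h1 _ => h1.2⟩⟩

lemma nest_gap (hs : ∀ i, B {i}) (hu : ∀ S T, B S → B T → ¬Disjoint S T → B (S ∪ T))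
    (hg : ∀ S T, B S → B T → ¬Disjoint S T → ¬S ⊆ T → ¬T ⊆ S → ∃ v ∈ T, v ∉ S ∧ B (insert v S))
    (hP : ∀ x ∈ P, ∀ T, B T → (z T : ℝ) ≤ ∑ i ∈ T, x i)
    (hF : ∀ W T T', W ⊆ T → T ⊆ T' → B T → B T' → ∃ x ∈ P, (∀ C ∈ comps B W, ∑ i ∈ C, x i = z C) ∧
      ∑ i ∈ T, x i = z T ∧ ∑ i ∈ T', x i = z T')
    (hN : ∀ x ∈ P, ∀ S T, B S → B T → ∑ i ∈ S, x i = z S → ∑ i ∈ T, x i = z T →
      S ⊆ T ∨ T ⊆ S ∨ ¬B (S ∪ T)) {T : Finset (Fin n)} (hT : B T) (S : Finset (Fin n))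
    (hS : B S) (h1 : ¬Disjoint S T) (h2 : ¬S ⊆ T) :
    z T + z S + (T \ S).card ≤ ∑ C ∈ comps B (S ∩ T), z C + z (S ∪ T) := by
  induction hk : (T \ S).card generalizing S with
  | zero =>
    have h3 := sdiff_eq_empty_iff_subset.1 (card_eq_zero.1 hk)
    rw [inter_eq_right.2 h3, union_eq_left.2 h3, comps_self hT]
    simp
  | succ k ih =>
    obtain ⟨v, h3, h4, h5⟩ := hg S T hS hT h1 h2 fun h => by
      simp [sdiff_eq_empty_iff_subset.2 h] at hk
    have h6 := ih (insert v S) h5 (fun h => h1 (h.mono_left (subset_insert _ _)))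
      (fun h => h2 ((subset_insert _ _).trans h)) (by
        rw [sdiff_insert, card_erase_of_mem (mem_sdiff.2 ⟨h3, h4⟩), hk]
        rfl)
    rw [insert_inter_of_mem h3, insert_union, insert_eq_of_mem (mem_union_right _ h3)] at h6
    obtain ⟨x, hx, h7, h8, h9⟩ := hF (S ∩ T) S (insert v S) inter_subset_left (subset_insert _ _)
      hS h5
    obtain ⟨C, h10, h11⟩ := comps_cover hs (mem_insert_self v (S ∩ T))
    have h12 := (mem_comps.1 h10).1
    have h13 : ∑ C ∈ comps B (insert v (S ∩ T)), (z C : ℝ) <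
        ∑ C ∈ comps B (insert v (S ∩ T)), ∑ i ∈ C, x i := by
      refine sum_lt_sum (fun D hD => hP x hx D (mem_comps.1 hD).1.1)
        ⟨C, h10, (hP x hx C h12.1).lt_of_ne fun h => ?_⟩
      rcases hN x hx C S h12.1 hS h.symm h8 with h | h | h
      · exact h4 (h h11)
      · exact h2 fun i hi => (mem_insert.1 (h12.2 (h hi))).elim (fun h => h ▸ h3)
          fun h => (mem_inter.1 h).2
      · refine h ?_
        rw [← insert_eq_of_mem h11, insert_union_comm]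
        exact hu _ _ h12.1 h5 (not_disjoint_iff.2 ⟨v, h11, mem_insert_self _ _⟩)
    rw [← comps_sum hs hu, sum_insert (fun h => h4 (mem_inter.1 h).1), comps_sum hs hu,
      sum_congr rfl h7] at h13
    rw [sum_insert h4, h8] at h9
    have h14 : ∑ C ∈ comps B (insert v (S ∩ T)), z C + z S <
        ∑ C ∈ comps B (S ∩ T), z C + z (insert v S) := by
      refine Int.cast_lt (R := ℝ) |>.1 ?_
      push_cast
      linarith
    push_cast
    omega

/-- The negative of an indicator. -/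
def nind (T : Finset (Fin n)) : Fin n → ℤ := fun i => if i ∈ T then -1 else 0

lemma ip_nind (T : Finset (Fin n)) (x : Fin n → ℝ) : ip (nind T) x = -∑ i ∈ T, x i := by
  simp [ip, nind]

theorem nest_koszul (K : Type) [Field K] (hs : ∀ i, B {i})
    (hu : ∀ S T, B S → B T → ¬Disjoint S T → B (S ∪ T))
    (hg : ∀ S T, B S → B T → ¬Disjoint S T → ¬S ⊆ T → ¬T ⊆ S → ∃ v ∈ T, v ∉ S ∧ B (insert v S))
    (hP : ∀ x, x ∈ P ↔ ∑ i, x i = z univ ∧ ∀ T, B T → (z T : ℝ) ≤ ∑ i ∈ T, x i)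
    (hF : ∀ W T T', W ⊆ T → T ⊆ T' → B T → B T' → ∃ x ∈ P, (∀ C ∈ comps B W, ∑ i ∈ C, x i = z C) ∧
      ∑ i ∈ T, x i = z T ∧ ∑ i ∈ T', x i = z T')
    (hN : ∀ x ∈ P, ∀ S T, B S → B T → ∑ i ∈ S, x i = z S → ∑ i ∈ T, x i = z T →
      S ⊆ T ∨ T ⊆ S ∨ ¬B (S ∪ T)) (lo hi : Fin n → ℤ) :
    ToricKoszul K {x | (fun i => (x i : ℝ)) ∈ P ∧ ∀ i, lo i ≤ x i ∧ x i ≤ hi i} := by
  let α : Option {T // B T ∨ T = univ} → Fin n → ℤ := fun k => k.elim 1 fun T => nind T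
  let ρ : Option {T // B T ∨ T = univ} → ℤ := fun k => k.elim (z univ) fun T => -z T
  have h1 : ∀ x, x ∈ PR α ρ ↔ x ∈ P := fun x => by
    have h1 : ip 1 x = ∑ i, x i := by simp [ip]
    rw [hP, PR, Set.mem_ofPred_eq, Option.forall]
    simp only [α, ρ, Option.elim, ip_nind, h1, Int.cast_neg, neg_le_neg_iff, Subtype.forall]
    exact ⟨fun h => ⟨h.1.antisymm (h.2 _ (Or.inr rfl)), fun T hT => h.2 T (Or.inl hT)⟩,
      fun h => ⟨h.1.le, fun T hT => hT.elim (h.2 T) fun hT => hT ▸ h.1.ge⟩⟩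
  have h2 : ∀ x, x ∈ PZ α ρ ↔ (fun i => (x i : ℝ)) ∈ P := fun x => by
    simp only [← h1, PR, PZ, Set.mem_ofPred_eq, ip_cast, Int.cast_le]
  have hv : ∀ k i, α k i = 0 ∨ α k i = 1 ∨ α k i = -1 := fun k i => by
    cases k with
    | none => simp [α]
    | some T =>
      simp only [α, Option.elim, nind]
      split_ifs <;> simp
  simp only [← h2]
  refine koszul_of_sep K hv (sep_of_gap hv fun k l h => ?_) lo hi
  have h3 : ∀ T : Finset (Fin n), ∀ i, nind T i ≠ 0 → (1 : Fin n → ℤ) i = -1 * nind T i :=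
    fun T i hi => by
      simp only [nind] at hi ⊢
      split_ifs at hi ⊢ <;> simp_all
  have h4 : ∀ S T : Finset (Fin n), S ⊆ T → ∀ i, nind S i ≠ 0 → nind T i = 1 * nind S i :=
    fun S T h i hi => by
      have : i ∈ S := by simpa [nind] using hi
      simp [nind, this, h this]
  rcases k with _ | ⟨S, hS⟩ <;> rcases l with _ | ⟨T, hT⟩
  · exact (h (Or.inl ⟨1, Or.inl rfl, Or.inl fun i _ => (one_mul _).symm⟩)).elim
  · exact (h (Or.inl ⟨-1, Or.inr rfl, Or.inr (h3 T)⟩)).elim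
  · exact (h (Or.inl ⟨-1, Or.inr rfl, Or.inl (h3 S)⟩)).elim
  have h5 : ¬S ⊆ T := fun h5 => h (Or.inl ⟨1, Or.inl rfl, Or.inl (h4 S T h5)⟩)
  have h6 : ¬T ⊆ S := fun h5 => h (Or.inl ⟨1, Or.inl rfl, Or.inr (h4 T S h5)⟩)
  have h7 : ¬Disjoint S T := fun h7 => h (Or.inr fun i => by
    by_cases h8 : i ∈ S
    · exact Or.inr (if_neg (disjoint_left.1 h7 h8))
    · exact Or.inl (if_neg h8))
  have h8 : B S := hS.resolve_right fun h8 => h6 (h8 ▸ subset_univ _)
  have h9 : B T := hT.resolve_right fun h9 => h5 (h9 ▸ subset_univ _)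
  have h10 := nest_gap hs hu hg (fun x hx => ((hP x).1 hx).2) hF hN h9 S h8 h7 h5
  have e1 : nind T - dif (nind S) (nind T) = nind (S ∩ T) := funext fun i => by
    by_cases h1 : i ∈ S <;> by_cases h2 : i ∈ T <;> simp [nind, dif, h1, h2]
  have e2 : nind S + dif (nind S) (nind T) = nind (S ∪ T) := funext fun i => by
    by_cases h1 : i ∈ S <;> by_cases h2 : i ∈ T <;> simp [nind, dif, h1, h2]
  have e3 : sup (dif (nind S) (nind T)) = T \ S := by
    ext i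
    by_cases h1 : i ∈ S <;> by_cases h2 : i ∈ T <;> simp [mem_sup, nind, dif, h1, h2]
  refine Or.inl ⟨-∑ C ∈ comps B (S ∩ T), z C, -z (S ∪ T), fun x hx => ?_, fun x hx => ?_, ?_⟩ <;>
    simp only [α, ρ, Option.elim, e1, e2, e3, ip_nind, Int.cast_neg, neg_le_neg_iff]
  · rw [comps_sum hs hu, Int.cast_sum]
    exact sum_le_sum fun C hC => ((hP x).1 ((h1 x).1 hx)).2 C (mem_comps.1 hC).1.1
  · exact ((hP x).1 ((h1 x).1 hx)).2 _ (hu S T h8 h9 h7)
  · omega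

end Pool.Agent.Lib.MP_b664fd_ag
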