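import Mathlib

/-! Nested sets of a building set. -/

namespace Pool.Agent.Lib.MP_b664fd_ag

/-- `N` is nested with respect to `B`: its members are pairwise comparable or disjoint, and no
union of two or more pairwise disjoint members of `N` lies in `B`. -/
def Nested {n : ℕ} (B : Set (Finset (Fin n))) (N : Finset (Finset (Fin n))) : Prop :=
  (∀ S ∈ N, ∀ T ∈ N, S ⊆ T ∨ T ⊆ S ∨ Disjoint S T) ∧
    ∀ M ⊆ N, 2 ≤ M.card → (∀ S ∈ M, ∀ T ∈ M, S ≠ T → Disjoint S T) → M.biUnion id ∉ B

end Pool.Agent.Lib.MP_b664fd_ag
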