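import Pool.Agent.Lib.MP_b664fd_ag.Cx

/-! Tensor products of based complexes. -/

open Finsupp TensorProduct

namespace Pool.Agent.Lib.MP_b664fd_ag

variable {K : Type} [Field K] {ι κ : Type}

/-- Outer product of two chains. -/
noncomputable def out (u : ι →₀ K) (v : κ →₀ K) : ι × κ →₀ K :=
  finsuppTensorFinsupp' K ι κ (u ⊗ₜ v)

/-- Tensor product of two operators. -/
noncomputable def tens (f : (ι →₀ K) →ₗ[K] (ι →₀ K)) (g : (κ →₀ K) →ₗ[K] (κ →₀ K)) :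
    (ι × κ →₀ K) →ₗ[K] (ι × κ →₀ K) :=
  (finsuppTensorFinsupp' K ι κ).toLinearMap ∘ₗ TensorProduct.map f g ∘ₗ
    (finsuppTensorFinsupp' K ι κ).symm.toLinearMap

/-- Differential of the tensor product complex. -/
noncomputable def tdiff (b ε : (ι →₀ K) →ₗ[K] (ι →₀ K)) (b' : (κ →₀ K) →ₗ[K] (κ →₀ K)) :
    (ι × κ →₀ K) →ₗ[K] (ι × κ →₀ K) := tens b LinearMap.id + tens ε b'

lemma tdiff_apply (b ε : (ι →₀ K) →ₗ[K] (ι →₀ K)) (b' : (κ →₀ K) →ₗ[K] (κ →₀ K))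
    (z : ι × κ →₀ K) : tdiff b ε b' z = tens b LinearMap.id z + tens ε b' z := rfl

lemma out_apply (u : ι →₀ K) (v : κ →₀ K) (p : ι × κ) : out u v p = u p.1 * v p.2 :=
  finsuppTensorFinsupp'_apply_apply K ι κ u v p.1 p.2

lemma tens_single (f : (ι →₀ K) →ₗ[K] (ι →₀ K)) (g : (κ →₀ K) →ₗ[K] (κ →₀ K)) (p : ι × κ) :
    tens f g (single p 1) = out (f (single p.1 1)) (g (single p.2 1)) := by
  simp [tens, out, finsuppTensorFinsupp'_symm_single_eq_single_one_tmul]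

lemma tens_tens (f f' : (ι →₀ K) →ₗ[K] (ι →₀ K)) (g g' : (κ →₀ K) →ₗ[K] (κ →₀ K))
    (z : ι × κ →₀ K) : tens f g (tens f' g' z) = tens (f ∘ₗ f') (g ∘ₗ g') z := by
  simp [tens, TensorProduct.map_comp]

lemma out_mem {X : Set ι} {Y : Set κ} {u : ι →₀ K} {v : κ →₀ K} (hu : u ∈ Sp K X)
    (hv : v ∈ Sp K Y) : out u v ∈ Sp K (X ×ˢ Y) := sp_iff.2 fun p hp => by
  rw [out_apply] at hp
  exact ⟨sp_iff.1 hu _ (left_ne_zero_of_mul hp), sp_iff.1 hv _ (right_ne_zero_of_mul hp)⟩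

lemma out_single_left (x : ι) (v : κ →₀ K) : out (single x 1) v = lmapDomain K K (Prod.mk x) v := by
  induction v using Finsupp.induction_linear with
  | zero => simp [out]
  | add v w h1 h2 => rw [map_add, ← h1, ← h2, out, tmul_add, map_add, out, out]
  | single y c => simp [out]

lemma out_single_right (u : ι →₀ K) (y : κ) :
    out u (single y 1) = lmapDomain K K (fun x => (x, y)) u := by
  induction u using Finsupp.induction_linear with
  | zero => simp [out]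
  | add v w h1 h2 => rw [map_add, ← h1, ← h2, out, add_tmul, map_add, out, out]
  | single y c => simp [out]

/-- A row of a chain on a product. -/
noncomputable def row (x : ι) : (ι × κ →₀ K) →ₗ[K] (κ →₀ K) :=
  lcomapDomain (Prod.mk x) (Prod.mk_right_injective x)

lemma row_apply (x : ι) (z : ι × κ →₀ K) (y : κ) : row x z y = z (x, y) := rfl

lemma row_tens (x : ι) (g : (κ →₀ K) →ₗ[K] (κ →₀ K)) (z : ι × κ →₀ K) :
    row x (tens LinearMap.id g z) = g (row x z) := by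
  classical
  refine map_eq_of_single (X := Set.univ) (row x ∘ₗ tens LinearMap.id g) (g ∘ₗ row x)
    (fun p _ => ?_) (sp_iff.2 fun _ _ => trivial)
  have e1 : row x (single p (1 : K)) = if p.1 = x then single p.2 1 else 0 := by
    ext y
    rw [row_apply]
    split_ifs with h
    · simp [single_apply, Prod.ext_iff, h]
    · simp [Prod.ext_iff, h]
  ext y
  simp only [LinearMap.comp_apply, tens_single, row_apply, out_apply, LinearMap.id_apply, e1,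
    single_apply]
  split_ifs <;> simp

lemma Ex.exists_linear {Y D : Set κ} {b : (κ →₀ K) →ₗ[K] (κ →₀ K)} (h : Ex Y D b) :
    ∃ s : (κ →₀ K) →ₗ[K] (κ →₀ K), (∀ u, s u ∈ Sp K Y) ∧
      ∀ u ∈ Sp K Y, b u = 0 → u - b (s u) ∈ Sp K D := by
  let Φ : Sp K Y →ₗ[K] (κ →₀ K) ⧸ Sp K D := (Sp K D).mkQ ∘ₗ b ∘ₗ (Sp K Y).subtype
  obtain ⟨σ, hσ⟩ := LinearMap.exists_rightInverse_of_surjective Φ.rangeRestrict
    Φ.range_rangeRestrict
  obtain ⟨τ, hτ⟩ := LinearMap.exists_extend (K := K) (V' := Sp K Y) σ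
  refine ⟨(Sp K Y).subtype ∘ₗ τ ∘ₗ (Sp K D).mkQ, fun u => (τ _).2, fun u hu hu' => ?_⟩
  obtain ⟨y, h1, h2⟩ := h u hu hu'
  have e1 : (Sp K D).mkQ u ∈ LinearMap.range Φ :=
    ⟨⟨y, h1⟩, ((Submodule.Quotient.eq _).2 h2).symm⟩
  have e2 : τ ((Sp K D).mkQ u) = σ ⟨_, e1⟩ := LinearMap.congr_fun hτ ⟨_, e1⟩
  have e3 : Φ (σ ⟨_, e1⟩) = (Sp K D).mkQ u :=
    congrArg Subtype.val (LinearMap.congr_fun hσ ⟨_, e1⟩)
  rw [← e2] at e3
  exact (Submodule.Quotient.eq _).1 e3.symm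

theorem Ex.prod {X D : Set ι} {Y D' : Set κ} {b ε : (ι →₀ K) →ₗ[K] (ι →₀ K)}
    {b' : (κ →₀ K) →ₗ[K] (κ →₀ K)} (ψ : κ → ℕ) (h : Ex X D b) (h' : Ex Y D' b')
    (hX : ∀ w ∈ X, b (single w 1) ∈ Sp K (X ∩ Dᶜ))
    (hY : ∀ w ∈ Y, b' (single w 1) ∈ Sp K (Y ∩ {v | ψ v < ψ w}))
    (hε : ∀ w, ε (single w 1) ∈ Sp K {w}) (hbb : b ∘ₗ b = 0) (hbb' : b' ∘ₗ b' = 0)
    (hεε : ε ∘ₗ ε = LinearMap.id) (hbε : b ∘ₗ ε = -(ε ∘ₗ b)) :
    Ex (X ×ˢ Y) (D ×ˢ D') (tdiff b ε b') := by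
  have t0 : ∀ (g : (κ →₀ K) →ₗ[K] (κ →₀ K)) z, tens (0 : (ι →₀ K) →ₗ[K] (ι →₀ K)) g z = 0 :=
    fun g z => by simp [tens]
  have t1 : ∀ (f : (ι →₀ K) →ₗ[K] (ι →₀ K)) z, tens f (0 : (κ →₀ K) →ₗ[K] (κ →₀ K)) z = 0 :=
    fun g z => by simp [tens]
  have t2 : ∀ (f : (ι →₀ K) →ₗ[K] (ι →₀ K)) (g : (κ →₀ K) →ₗ[K] (κ →₀ K)) z,
      tens (-f) g z = -tens f g z := fun f g z => by
    refine map_eq_of_single (X := Set.univ) (tens (-f) g) (-tens f g) (fun p _ => ?_)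
      (sp_iff.2 fun _ _ => trivial)
    ext q
    simp [tens_single, out_apply]
  have hB : ∀ z, (tdiff b ε b') ((tdiff b ε b') z) = 0 := by
    intro z
    simp only [tdiff_apply, map_add, tens_tens, hbb, hbb', hbε, t0, t1, t2,
      LinearMap.comp_id, LinearMap.id_comp]
    abel
  have m1 : ∀ p ∈ X ×ˢ Y, tens b LinearMap.id (single p 1) ∈ Sp K ((X ∩ Dᶜ) ×ˢ {p.2}) :=
    fun p hp => by rw [tens_single]; exact out_mem (hX _ hp.1) (sp_single (Set.mem_singleton p.2) (1 : K))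
  have m2 : ∀ p ∈ X ×ˢ Y, tens ε b' (single p 1) ∈ Sp K ({p.1} ×ˢ (Y ∩ {v | ψ v < ψ p.2})) :=
    fun p hp => by rw [tens_single]; exact out_mem (hε _) (hY _ hp.2)
  have m3 : ∀ p ∈ X ×ˢ Y, (tdiff b ε b') (single p 1) ∈ Sp K (X ×ˢ Y) :=
    fun p hp => add_mem (sp_to (m1 p hp) fun v hv => ⟨hv.1.1, hv.2 ▸ hp.2⟩)
      (sp_to (m2 p hp) fun v hv => ⟨hv.1 ▸ hp.1, hv.2.1⟩)
  have m4 : ∀ u ∈ Sp K (X ×ˢ Y), tens b LinearMap.id u ∈ Sp K {p : ι × κ | p.1 ∉ D} := fun u hu =>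
    map_mem_of_single _ _ (fun p hp => sp_to (m1 p hp) fun v hv => hv.1.2) hu
  have e0 : Ex (X ×ˢ Y) {p : ι × κ | p.1 ∈ D} (tens b LinearMap.id) := by
    refine Ex.pieces Prod.snd (fun p hp => sp_to (m1 p hp) fun v hv => hv.2) fun y => ?_
    by_cases hy : y ∈ Y
    · convert h.map (D' := {p : ι × κ | p.1 ∈ D}) (b' := tens b LinearMap.id) (fun x => (x, y))
        (fun _ _ _ _ h => congrArg Prod.fst h)
        (fun w hw => sp_mono Set.inter_subset_left (hX w hw))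
        (fun w _ => by rw [tens_single, LinearMap.id_apply, out_single_right]) fun _ _ h => h
      ext p
      exact ⟨fun hp => ⟨p.1, hp.1.1, Prod.ext rfl hp.2.symm⟩,
        by rintro ⟨x, hx, rfl⟩; exact ⟨⟨hx, hy⟩, rfl⟩⟩
    · exact Ex.of_subset fun p hp => absurd (hp.2 ▸ hp.1.2) hy
  intro z hz hz'
  obtain ⟨x, hx, hx'⟩ := filt_core (b₀ := tens b LinearMap.id) (D := {p : ι × κ | p.1 ∈ D})
    (G := {p : ι × κ | p.1 ∈ D}) (fun p => ψ p.2) m3 hB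
    (fun p hp => sp_to (m1 p hp) fun v hv => congrArg ψ hv.2)
    (fun p hp => by
      rw [LinearMap.sub_apply, tdiff_apply, add_sub_cancel_left]
      exact sp_to (m2 p hp) fun v hv => hv.2.2)
    (fun p hp => by
      rw [LinearMap.sub_apply, tdiff_apply, add_sub_cancel_left]
      exact sp_to (m2 p hp.1) fun v hv => show v.1 ∈ D from hv.1 ▸ hp.2)
    (fun u hu hu' => e0 u hu (sp_eq_zero hu' (m4 u hu) fun _ h1 h2 => h2 h1)) z hz
    (hz' ▸ zero_mem _)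
  obtain ⟨s, hs, hs'⟩ := h'.exists_linear
  set u := z - (tdiff b ε b') x with hu
  have u1 : u ∈ Sp K (X ×ˢ Y) := sub_mem hz (map_mem_of_single _ _ m3 hx)
  have u2 : tens b LinearMap.id u + tens ε b' u = 0 := by
    rw [← tdiff_apply, hu, map_sub, hz', hB, sub_zero]
  have u3 : tens ε b' u ∈ Sp K {p : ι × κ | p.1 ∈ D} := map_mem_of_single _ _
    (fun p hp => sp_to (m2 p hp.1) fun v hv => show v.1 ∈ D from hv.1 ▸ hp.2) (sp_inter u1 hx')
  have u4 : tens b LinearMap.id u = 0 :=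
    sp_eq_zero (m4 u u1) (by rw [eq_neg_of_add_eq_zero_left u2]; exact neg_mem u3) fun _ h => h
  have u5 : tens LinearMap.id b' u = 0 := by
    rw [u4, zero_add] at u2
    have := congrArg (tens ε LinearMap.id) u2
    rwa [tens_tens, hεε, LinearMap.id_comp, map_zero] at this
  have u6 : (tdiff b ε b') (tens ε s u) = tens LinearMap.id (b' ∘ₗ s) u := by
    have := congrArg (tens ε s) u4
    rw [tens_tens, LinearMap.comp_id, map_zero] at this
    rw [tdiff_apply, tens_tens, tens_tens, hbε, t2, LinearMap.id_comp, this, hεε, neg_zero,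
      zero_add]
  refine ⟨x + tens ε s u, add_mem hx (map_mem_of_single _ _ (fun p hp => ?_) u1), ?_⟩
  · rw [tens_single]
    exact out_mem (sp_to (hε _) fun v hv => hv ▸ hp.1) (hs _)
  rw [map_add, ← sub_sub, ← hu, u6]
  refine sp_iff.2 fun p hp => ?_
  have u7 : (row p.1 u - b' (s (row p.1 u))) p.2 ≠ 0 := by
    rwa [← LinearMap.comp_apply, ← row_tens]
  refine ⟨by_contra fun h1 => u7 ?_, sp_iff.1 (hs' _ (sp_iff.2 fun y hy => (sp_iff.1 u1 _ hy).2)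
    (by rw [← row_tens, u5, map_zero])) _ u7⟩
  have u8 : row p.1 u = 0 := by
    ext y
    by_contra h2
    exact h1 (sp_iff.1 hx' (p.1, y) h2)
  simp [u8]

end Pool.Agent.Lib.MP_b664fd_ag
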