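import Pool.Agent.Lib.MP_b664fd_ag.Free
import Pool.Agent.Lib.MP_b664fd_ag.Defs

/-! From diagonal exactness of the bar complex to the linear resolution. -/

open Finsupp

namespace Pool.Agent.Lib.MP_b664fd_ag

variable {K : Type} [Field K] {M : Type} [AddCommMonoid M] {deg : M →+ ℤ} {A : Set M}

/-- Tails of the words with a given first letter. -/
noncomputable def tl (m : M) : (List M →₀ K) →ₗ[K] (List M →₀ K) :=
  lcomapDomain (List.cons m) List.cons_injective

/-- Put a linear combination of letters in front. -/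
noncomputable def cat : (M →₀ K) →ₗ[K] (List M →₀ K) →ₗ[K] (List M →₀ K) :=
  linearCombination K fun m => cons m

/-- The differential on tails. -/
noncomputable def tD : (List M →₀ K) →ₗ[K] (List M →₀ K) :=
  linearCombination K fun w => match w with
    | [] => 0
    | m :: r => -cons m (bd 1 r)

/-- Cycles among the words of length `n` in `A`. -/
noncomputable def Kn (K : Type) [Field K] (A : Set M) (n : ℕ) : Submodule K (List M →₀ K) :=
  Sp K {w | w.length = n ∧ ∀ a ∈ w, a ∈ A} ⊓ LinearMap.ker (Dd 1)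

/-- Words of the augmented bar complex. -/
def Tw (deg : M →+ ℤ) (A : Set M) : Set (List M) :=
  {w | ∃ m r, w = m :: r ∧ m ∈ AddSubmonoid.closure A ∧
    ∀ a ∈ r, a ∈ AddSubmonoid.closure A ∧ 1 ≤ deg a}

omit [AddCommMonoid M] in
lemma tl_apply (m : M) (z : List M →₀ K) (w : List M) : tl m z w = z (m :: w) := rfl

omit [AddCommMonoid M] in
lemma tl_cons (m : M) (z : List M →₀ K) : tl m (cons m z) = z := by
  ext w
  exact mapDomain_apply List.cons_injective z w

omit [AddCommMonoid M] in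
lemma cons_mem (m : M) {X : Set (List M)} {z : List M →₀ K} (hz : z ∈ Sp K X) :
    cons m z ∈ Sp K {w | ∃ r ∈ X, w = m :: r} :=
  sp_to (sp_map _ hz) fun _ ⟨r, h1, h2⟩ => ⟨r, h1, h2.symm⟩

omit [AddCommMonoid M] in
lemma tl_eq_zero {m : M} {z : List M →₀ K} (hz : z ∈ Sp K {w | w.head? ≠ some m}) : tl m z = 0 := by
  ext w
  by_contra h
  exact sp_iff.1 hz _ h rfl

omit [AddCommMonoid M] in
lemma tl_cons_ne {m m' : M} (h : m' ≠ m) (z : List M →₀ K) : tl m (cons m' z) = 0 :=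
  tl_eq_zero (sp_to (cons_mem m' (X := Set.univ) (sp_iff.2 fun _ _ => trivial)) (by
    rintro _ ⟨r, -, rfl⟩
    simpa using h))

omit [AddCommMonoid M] in
lemma ext_tl {z z' : List M →₀ K} (h0 : z [] = z' []) (h : ∀ m, tl m z = tl m z') : z = z' := by
  ext w
  cases w with
  | nil => exact h0
  | cons m w => exact DFunLike.congr_fun (h m) w

omit [AddCommMonoid M] in
lemma cat_single (m : M) (z : List M →₀ K) : cat (single m (1 : K)) z = cons m z := by simp [cat]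

omit [AddCommMonoid M] in
lemma tl_cat (m : M) (f : M →₀ K) (z : List M →₀ K) : tl m (cat f z) = f m • z := by
  classical
  refine lin_ext (tl m ∘ₗ cat.flip z) ((lapply m).smulRight z) (fun a => ?_) f
  simp only [LinearMap.comp_apply, LinearMap.flip_apply, cat_single, LinearMap.smulRight_apply,
    lapply_apply, single_apply]
  split_ifs with h
  · rw [h, tl_cons, one_smul]
  · rw [tl_cons_ne h, zero_smul]

omit [AddCommMonoid M] in
lemma cat_mem {S : Set M} {X : Set (List M)} {f : M →₀ K} {z : List M →₀ K} (hf : f ∈ Sp K S)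
    (hz : z ∈ Sp K X) : cat f z ∈ Sp K {w | ∃ m ∈ S, ∃ r ∈ X, w = m :: r} :=
  map_mem_of_single (cat.flip z) _ (fun m hm => by
    rw [LinearMap.flip_apply, cat_single]
    exact sp_to (cons_mem m hz) fun w hw => ⟨m, hm, hw⟩) hf

omit [AddCommMonoid M] in
lemma sum_cons_tl [Fintype A] {z : List M →₀ K} (hz : z ∈ Sp K {w | ∃ a ∈ A, w.head? = some a}) :
    ∑ a : A, cons a.1 (tl a.1 z) = z := by
  refine Eq.trans (by simp) (map_eq_of_single (∑ a : A, cons a.1 ∘ₗ tl a.1) LinearMap.id ?_ hz)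
  rintro (_ | ⟨b, r⟩) ⟨a, h1, h2⟩
  · simp at h2
  obtain rfl : b = a := by simpa using h2
  rw [LinearMap.sum_apply, Finset.sum_eq_single ⟨b, h1⟩, LinearMap.comp_apply, single_cons, tl_cons,
    LinearMap.id_apply]
  · intro c _ hc
    rw [LinearMap.comp_apply, single_cons, tl_cons_ne fun h => hc (Subtype.ext h.symm), map_zero]
  · simp

lemma mrg_mem (m : M) {X : Set (List M)} {z : List M →₀ K} (hz : z ∈ Sp K X) :
    mrg 1 m z ∈ Sp K {w | ∃ a r, a :: r ∈ X ∧ w = (m + a) :: r} :=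
  map_mem_of_single _ _ (fun w hw => by
    cases w with
    | nil => simp [mrg]
    | cons a r =>
      have : mrg (1 : M → M → K) m (single (a :: r) 1) = single ((m + a) :: r) 1 := by simp [mrg]
      rw [this]
      exact sp_single (by exact ⟨a, r, hw, rfl⟩) 1) hz

lemma mrg_zero {z : List M →₀ K} (hz : z ∈ Sp K {w | w ≠ []}) : mrg 1 0 z = z :=
  map_eq_of_single _ LinearMap.id (fun w hw => by
    cases w with
    | nil => exact absurd rfl hw
    | cons a r => simp [mrg]) hz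

lemma tD_cons (m : M) (z : List M →₀ K) : tD (cons m z) = -cons m (Dd 1 z) :=
  lin_ext (tD ∘ₗ cons m) (-(cons (K := K) m ∘ₗ Dd 1)) (fun w => by simp [tD]) z

lemma tl_tD (m : M) (z : List M →₀ K) : tl m (tD z) = -Dd 1 (tl m z) :=
  lin_ext (tl m ∘ₗ tD) (-(Dd (1 : M → M → K) ∘ₗ tl m)) (fun w => by
    cases w with
    | nil => simp [tD, tl_eq_zero (m := m) (sp_single (X := {w | w.head? ≠ some m}) (w := [])
        (by simp) (1 : K))]
    | cons a r =>
      rw [LinearMap.comp_apply, single_cons, tD_cons, map_neg, LinearMap.neg_apply,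
        LinearMap.comp_apply]
      by_cases h : a = m
      · rw [h, tl_cons, tl_cons]
      · rw [tl_cons_ne h, tl_cons_ne h, map_zero]) z

lemma Kn_finite (hA : A.Finite) (n : ℕ) : Module.Finite K (Kn K A n) := by
  have h1 : {w : List M | w.length = n ∧ ∀ a ∈ w, a ∈ A}.Finite := by
    have := hA.to_subtype
    refine ((List.finite_length_eq A n).image (List.map Subtype.val)).subset fun w hw => ?_
    lift w to List A using hw.2
    exact ⟨w, by simpa using hw.1, rfl⟩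
  have := h1.to_subtype
  have h2 : Module.Finite K (Sp K {w : List M | w.length = n ∧ ∀ a ∈ w, a ∈ A}) :=
    Module.Finite.equiv (supportedEquivFinsupp _).symm
  exact Submodule.finiteDimensional_of_le inf_le_left

lemma Kn_zero : Kn K A 0 = Submodule.span K {single [] 1} := by
  have : {w : List M | w.length = 0 ∧ ∀ a ∈ w, a ∈ A} = {[]} := by
    ext w
    cases w <;> simp
  rw [Kn, this, Sp, supported_eq_span_single, Set.image_singleton, inf_eq_left, Submodule.span_le]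
  rintro _ rfl
  simp

lemma Kn_head {n : ℕ} {z : List M →₀ K} (hz : z ∈ Kn K A (n + 1)) :
    z ∈ Sp K {w | ∃ a ∈ A, w.head? = some a} := sp_to hz.1 fun w hw => by
  cases w with
  | nil => simp at hw
  | cons a r => exact ⟨a, hw.2 a (by simp), rfl⟩

lemma tl_Kn [Fintype A] (hA : ∀ a ∈ A, deg a = 1) {n : ℕ} {z : List M →₀ K}
    (hz : z ∈ Kn K A (n + 1)) (a : A) : tl a.1 z ∈ Kn K A n := by
  have h1 : ∀ b : M, tl b z ∈ Sp K {w | w.length = n ∧ ∀ a ∈ w, a ∈ A} := fun b =>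
    sp_iff.2 fun w hw => by
      have := sp_iff.1 hz.1 _ hw
      exact ⟨by simpa using this.1, fun c hc => this.2 c (List.mem_cons_of_mem _ hc)⟩
  refine ⟨h1 a, ?_⟩
  have h2 : Dd 1 z = 0 := hz.2
  rw [← sum_cons_tl (Kn_head hz), map_sum] at h2
  have h3 := congrArg (tl a.1) h2
  rw [map_sum, Finset.sum_eq_single a, Dd_cons, map_sub, tl_cons, map_zero] at h3
  · rwa [tl_eq_zero, zero_sub, neg_eq_zero] at h3
    refine sp_to (mrg_mem _ (h1 a)) ?_
    rintro _ ⟨c, r, h4, rfl⟩ h5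
    have := congrArg deg (Option.some.inj h5)
    rw [map_add, hA c (h4.2 c (by simp))] at this
    omega
  · intro b _ hb
    rw [Dd_cons, map_sub, tl_cons_ne fun h => hb (Subtype.ext h), sub_zero]
    refine tl_eq_zero (sp_to (mrg_mem _ (h1 b)) ?_)
    rintro _ ⟨c, r, h4, rfl⟩ h5
    have := congrArg deg (Option.some.inj h5)
    rw [map_add, hA c (h4.2 c (by simp)), hA a a.2, hA b b.2] at this
    omega
  · simp

lemma Dd_cat [Fintype A] {n : ℕ} {z : List M →₀ K} (hz : z ∈ Kn K A (n + 1)) (f : M →₀ K) :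
    Dd 1 (cat f z) = ∑ a : A, cat (lmapDomain K K (· + a.1) f) (tl a.1 z) := by
  refine lin_ext (Dd 1 ∘ₗ cat.flip z) (∑ a : A, cat.flip (tl a.1 z) ∘ₗ lmapDomain K K (· + a.1))
    (fun m => ?_) f |>.trans (by simp)
  have h2 : Dd 1 z = 0 := hz.2
  rw [LinearMap.comp_apply, LinearMap.flip_apply, cat_single, Dd_cons, h2, map_zero, sub_zero]
  conv_lhs => rw [← sum_cons_tl (Kn_head hz), map_sum]
  rw [LinearMap.sum_apply]
  refine Finset.sum_congr rfl fun a _ => ?_
  have : lmapDomain K K (· + a.1) (single m (1 : K)) = single (m + a.1) 1 := by simp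
  rw [mrg_cons, LinearMap.comp_apply, this, LinearMap.flip_apply, cat_single]
  exact one_smul _ _

lemma closure_deg (hA : ∀ a ∈ A, deg a = 1) {m : M} (hm : m ∈ AddSubmonoid.closure A) :
    (deg m < 1 → m = 0) ∧ (deg m = 1 → m ∈ A) := by
  obtain ⟨s, rfl⟩ := mem_closure_iff.1 hm
  rw [deg_tot hA, cardZ_apply]
  constructor
  · intro h
    rw [Multiset.card_eq_zero.1 (show Multiset.card s = 0 by omega), map_zero]
  · intro h
    obtain ⟨a, rfl⟩ := Multiset.card_eq_one.1 (show Multiset.card s = 1 by omega)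
    simp [tot_apply]

lemma deg_eq_one : ∀ {w : List M}, (∀ m ∈ w, 1 ≤ deg m) → w ∈ Dg deg 0 → ∀ m ∈ w, deg m = 1
  | [], _, _ => by simp
  | a :: w, h1, h2 => by
    obtain ⟨h3, h4⟩ := List.forall_mem_cons.1 h1
    have h5 := length_le_deg h4
    simp only [Dg, Set.mem_ofPred_eq, List.sum_cons, map_add, List.length_cons] at h2
    exact List.forall_mem_cons.2 ⟨by omega, deg_eq_one h4 (show _ = _ by omega)⟩

lemma mem_Dg (hA : ∀ a ∈ A, deg a = 1) : ∀ {w : List M}, (∀ m ∈ w, m ∈ A) → w ∈ Dg deg 0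
  | [], _ => by simp [Dg]
  | a :: w, h1 => by
    obtain ⟨h3, h4⟩ := List.forall_mem_cons.1 h1
    have h5 := mem_Dg hA h4
    have h6 := hA a h3
    simp only [Dg, Set.mem_ofPred_eq, List.sum_cons, map_add, List.length_cons] at h5 ⊢
    omega

lemma exists_aug (hA : ∀ a ∈ A, deg a = 1) {z : List M →₀ K} (hz : z ∈ Sp K (Tw deg A))
    (hz' : z ∈ Sp K {w | 2 ≤ w.length ∨ ∀ a ∈ w, 1 ≤ deg a}) (h : Dd 1 z = 0) :
    ∃ y ∈ Sp K (Tw deg A), Dd 1 y = z := by
  let S : Set (List M) := {w | ∀ a ∈ w, 1 ≤ deg a}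
  have h1 : pr S z ∈ Sp K (Wd deg (AddSubmonoid.closure A) fun _ => True) :=
    sp_to (pr_mem S hz) (by
      rintro _ ⟨⟨m, r, rfl, h1, h2⟩, h3⟩
      exact ⟨List.forall_mem_cons.2 ⟨⟨h1, h3 m (by simp)⟩, h2⟩, m, r, rfl, trivial⟩)
  have h2 : pr Sᶜ z ∈ Sp K {w | ∃ r ∈ S, r ≠ [] ∧ w = 0 :: r} :=
    sp_to (pr_mem Sᶜ (sp_inter hz hz')) (by
      rintro _ ⟨⟨⟨m, r, rfl, h1, h2⟩, h4⟩, h3⟩
      refine ⟨r, fun a ha => (h2 a ha).2, ?_, ?_⟩
      · rintro rfl
        exact h3 (h4.resolve_left (by simp))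
      · rw [(closure_deg hA h1).1 (not_le.1 fun h5 =>
          h3 (List.forall_mem_cons.2 ⟨h5, fun a ha => (h2 a ha).2⟩))])
  have h3 : cons 0 (tl 0 (pr Sᶜ z)) = pr Sᶜ z :=
    map_eq_of_single (cons 0 ∘ₗ tl 0) LinearMap.id (by
      rintro _ ⟨r, -, -, rfl⟩
      rw [LinearMap.comp_apply, single_cons, tl_cons, LinearMap.id_apply]) h2
  have h4 : tl 0 (pr Sᶜ z) ∈ Sp K (S ∩ {w | w ≠ []}) := sp_iff.2 fun w hw => by
    obtain ⟨r, h5, h6, h7⟩ := sp_iff.1 h2 _ hw
    cases h7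
    exact ⟨h5, h6⟩
  have h5 : Dd 1 (pr S z) + tl 0 (pr Sᶜ z) = cons 0 (Dd 1 (tl 0 (pr Sᶜ z))) := by
    rw [← pr_add_compl S z, map_add, ← h3, Dd_cons, mrg_zero (sp_mono Set.inter_subset_right h4),
      ← add_sub_assoc, sub_eq_zero] at h
    exact h
  have h6 : Dd 1 (pr S z) + tl 0 (pr Sᶜ z) = 0 := by
    refine sp_eq_zero (X := S) (add_mem (sp_to (map_mem_of_single _ _
      (Wd_closed fun _ _ _ _ _ _ => trivial) h1) fun w hw a ha => (hw.1 a ha).2)
      (sp_mono Set.inter_subset_left h4))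
      (h5 ▸ cons_mem 0 (X := Set.univ) (sp_iff.2 fun _ _ => trivial)) ?_
    rintro _ h7 ⟨r, -, rfl⟩
    simpa using h7 0 (by simp)
  refine ⟨cons 0 (pr S z), sp_to (cons_mem 0 h1) ?_, ?_⟩
  · rintro _ ⟨r, h7, rfl⟩
    exact ⟨0, r, rfl, zero_mem _, h7.1⟩
  · rw [Dd_cons, mrg_zero (sp_to h1 (by rintro _ ⟨-, a, r, rfl, -⟩; simp)),
      eq_neg_of_add_eq_zero_left h6, map_neg, h3, sub_neg_eq_add, pr_add_compl]

lemma zigzag (hA : ∀ a ∈ A, deg a = 1) (hG : Good K deg A) {n : ℕ} {y : List M →₀ K}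
    (hy : y ∈ Sp K (Tw deg A))
    (hz : Dd 1 y ∈ Sp K {w | w.length = n + 1 ∧ w.tail ∈ Dg deg 0}) :
    ∃ x ∈ Sp K (Tw deg A), Dd 1 x = Dd 1 y ∧ ∀ m, tl m x ∈ Kn K A (n + 1) := by
  have hW := Wd_closed (K := K) (deg := deg) (μ := 1) (Λ := AddSubmonoid.closure A)
    (p := fun m => 0 < deg m) fun a _ b hb h1 _ => by
      have := nonneg_closure (g := deg) (fun a ha => by rw [hA a ha]; omega) hb
      rw [map_add]
      omega
  have e1 : ∀ (m : M) r, (Dd (1 : M → M → K) - tD (K := K) (M := M)) (single (m :: r) 1) =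
      mrg 1 m (single r 1) := fun m r => by
    rw [LinearMap.sub_apply, single_cons, Dd_cons, tD_cons, sub_neg_eq_add, sub_add_cancel]
  have e2 : ∀ w ∈ Tw deg A, tD (single w (1 : K)) ∈ Sp K {v | v ∈ Tw deg A ∧ v.head? = w.head? ∧
      v.tail.sum = w.tail.sum ∧ v.tail ∉ Dg deg 0} := by
    rintro _ ⟨m, r, rfl, h1, h2⟩
    rw [single_cons, tD_cons]
    cases r with
    | nil => simp
    | cons a r =>
      refine neg_mem (sp_to (cons_mem m (sp_inter (sp_inter (hW _ ⟨h2, a, r, rfl,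
        (h2 a (by simp)).2⟩) (Dd_sum _ _)) (not_Dg _ fun a ha => (h2 a ha).2))) ?_)
      rintro _ ⟨t, ⟨⟨h3, h4⟩, h5⟩, rfl⟩
      exact ⟨⟨m, t, rfl, h1, h3.1⟩, rfl, h4.1, h5⟩
  have e3 : ∀ w ∈ Tw deg A, (Dd (1 : M → M → K) - tD (K := K) (M := M)) (single w 1) ∈
      Sp K {v | v ∈ Tw deg A ∧
      (deg v.tail.sum).toNat < (deg w.tail.sum).toNat ∧
      (w.tail ∈ Dg deg 0 → v.tail ∈ Dg deg 0)} := by
    rintro _ ⟨m, r, rfl, h1, h2⟩
    rw [e1]
    refine sp_to (mrg_mem m (sp_single (Set.mem_singleton r) 1)) ?_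
    rintro _ ⟨a, t, rfl, rfl⟩
    obtain ⟨h3, h4⟩ := List.forall_mem_cons.1 h2
    have h5 := length_le_deg fun a ha => (h4 a ha).2
    refine ⟨⟨_, _, rfl, add_mem h1 h3.1, h4⟩, ?_, ?_⟩ <;>
      simp only [List.tail_cons, List.sum_cons, map_add, Dg, Set.mem_ofPred_eq,
        List.length_cons] <;> omega
  have e4 : ∀ w ∈ Tw deg A, Dd 1 (single w (1 : K)) ∈ Sp K (Tw deg A) := fun w hw => by
    have := add_mem (sp_to (e3 w hw) fun v hv => hv.1) (sp_to (e2 w hw) fun v hv => hv.1)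
    rwa [LinearMap.sub_apply, sub_add_cancel] at this
  have e5 : ∀ u ∈ Sp K (Tw deg A), tD u ∈ Sp K {w : List M | w.tail ∈ Dg deg 0} → tD u = 0 :=
    fun u hu hu' => sp_eq_zero hu' (map_mem_of_single _ (Sp K {w : List M | w.tail ∉ Dg deg 0})
      (fun w hw => sp_to (e2 w hw) fun v hv => hv.2.2.2) hu) fun _ h1 h2 => h2 h1
  have e6 : Ex (Tw deg A) {w | w.tail ∈ Dg deg 0} (tD (K := K)) := by
    refine Ex.pieces List.head? (fun w hw => sp_to (e2 w hw) fun v hv => hv.2.1) fun c => ?_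
    by_cases hc : ∃ m ∈ AddSubmonoid.closure A, c = some m
    swap
    · refine Ex.of_subset ?_
      rintro _ ⟨⟨m, r, rfl, h1, -⟩, h2⟩
      exact absurd ⟨m, h1, h2.symm⟩ hc
    obtain ⟨m, hm, rfl⟩ := hc
    convert ((hG deg fun a ha => by rw [hA a ha]; omega).neg.insert (w := []) (by simp [Dg])
      (by simp)).map (D' := {w : List M | w.tail ∈ Dg deg 0}) (b' := tD) (List.cons m)
      List.cons_injective.injOn (by
        rintro w (rfl | hw)
        · simp
        · exact neg_mem (sp_mono (Set.subset_insert _ _) (hW w hw)))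
      (fun w _ => by rw [single_cons, tD_cons, LinearMap.neg_apply, map_neg]) fun _ _ h => h
    ext w
    constructor
    · rintro ⟨⟨a, r, rfl, -, h2⟩, h3⟩
      obtain rfl : a = m := by simpa using h3
      refine ⟨r, ?_, rfl⟩
      cases r with
      | nil => exact Or.inl rfl
      | cons b r => exact Or.inr ⟨h2, b, r, rfl, (h2 b (by simp)).2⟩
    · rintro ⟨r, rfl | h1, rfl⟩
      · exact ⟨⟨m, [], rfl, hm, by simp⟩, rfl⟩
      · exact ⟨⟨m, r, rfl, hm, h1.1⟩, rfl⟩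
  have e7 : ∀ z : List M →₀ K, Dd 1 (Dd 1 z) = 0 := Dd_Dd _ fun _ _ _ => rfl
  have e8 : ∀ w ∈ Tw deg A ∩ {w | w.tail ∈ Dg deg 0},
      (Dd (1 : M → M → K) - tD (K := K) (M := M)) (single w 1) ∈
      Sp K {w | w.tail ∈ Dg deg 0} := fun w hw => sp_to (e3 w hw.1) fun v hv => hv.2.2 hw.2
  obtain ⟨x, h1, h2⟩ := filt_core (b₀ := tD) (D := {w | w.tail ∈ Dg deg 0})
    (G := {w | w.tail ∈ Dg deg 0}) (fun w => (deg w.tail.sum).toNat) e4 e7
    (fun w hw => sp_to (e2 w hw) fun v hv => by simp only [Set.mem_ofPred_eq, hv.2.2.1])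
    (fun w hw => sp_to (e3 w hw) fun v hv => hv.2.1) e8
    (fun u hu hu' => e6 u hu (e5 u hu hu')) y hy (sp_to hz fun v hv => hv.2)
  have h3 := pr_mem {w | w.length = n + 2} (sp_inter (sub_mem hy (map_mem_of_single _ _ e4 h1)) h2)
  have h4 : Dd 1 (pr {w | w.length = n + 2} (y - Dd 1 x)) = Dd 1 y := by
    rw [← pr_comm (X := Set.univ) (S' := {w | w.length = n + 1}) _ (fun w _ => Dd_mem _
      fun l a b r h4 _ => by simp [h4]; omega) (sp_iff.2 fun _ _ => trivial), map_sub, e7, sub_zero,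
      pr_eq_self (S := {w : List M | w.length = n + 1}) (sp_to hz fun v hv => hv.1)]
  generalize pr {w | w.length = n + 2} (y - Dd 1 x) = u at h3 h4
  have h5 := sp_to h3 fun v hv => hv.1.1
  refine ⟨u, h5, h4, fun m => ⟨sp_iff.2 fun w hw => ?_, ?_⟩⟩
  · obtain ⟨⟨⟨a, r, h6, -, h7⟩, h8⟩, h9⟩ := sp_iff.1 h3 _ hw
    cases h6
    exact ⟨by simpa using h9, fun a ha => (closure_deg hA (h7 a ha).1).2
      (deg_eq_one (fun a ha => (h7 a ha).2) h8 a ha)⟩
  · have h6 : tD u = 0 := e5 u h5 (by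
      have h7 := sub_mem (h4 ▸ sp_to hz fun v hv => hv.2)
        (map_mem_of_single _ _ e8 (sp_mono Set.inter_subset_left h3))
      rwa [LinearMap.sub_apply, sub_sub_cancel] at h7)
    have h7 := tl_tD m u
    rw [h6, map_zero] at h7
    exact neg_eq_zero.1 h7.symm

theorem Good.resolution {R : Type} [CommRing R] [Algebra K R] (hA : ∀ a ∈ A, deg a = 1)
    (hfin : A.Finite) (hG : Good K deg A) (ψ : R →ₗ[K] (M →₀ K)) (hψ : Function.Injective ψ)
    (x : A → R) (hmul : ∀ a r, ψ (x a * r) = lmapDomain K K (· + a.1) (ψ r))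
    (hrange : ∀ f, f ∈ Sp K (AddSubmonoid.closure A : Set M) ↔ ∃ r, ψ r = f) :
    HasLinearResolution K R (Submodule.span K (Set.range x)) := by
  have := hfin.fintype
  have := fun n => Kn_finite (K := K) hfin n
  have := fun n => Module.Free.of_divisionRing K (Kn K A n)
  let β := fun n => Module.finBasis K (Kn K A n)
  let Θ : ∀ n, (Fin (Module.finrank K (Kn K A n)) → R) → (List M →₀ K) := fun n v =>
    ∑ j, cat (ψ (v j)) (β n j)
  let d : ∀ n, Matrix (Fin (Module.finrank K (Kn K A n))) (Fin (Module.finrank K (Kn K A (n + 1))))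
    R := fun n i j => ∑ a : A, (β n).repr ⟨_, tl_Kn hA (β (n + 1) j).2 a⟩ i • x a
  have t1 : ∀ n v m, tl m (Θ n v) = ((∑ j, ψ (v j) m • β n j : Kn K A n) : List M →₀ K) :=
    fun n v m => by simp only [Θ, map_sum, tl_cat, Submodule.coe_sum, Submodule.coe_smul]
  have t2 : ∀ n v, Θ n v ∈ Sp K {w | ∃ m ∈ AddSubmonoid.closure A,
      ∃ r ∈ {w : List M | w.length = n ∧ ∀ a ∈ w, a ∈ A}, w = m :: r} := fun n v =>
    Submodule.sum_mem _ fun j _ => cat_mem ((hrange _).2 ⟨_, rfl⟩) (β n j).2.1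
  have t3 : ∀ n, Function.Injective (Θ n) := fun n v v' h => funext fun j => hψ (by
    ext m
    have h1 := congrArg (tl m) h
    rw [t1, t1, Subtype.coe_inj, ← (β n).equivFun_symm_apply, ← (β n).equivFun_symm_apply] at h1
    exact congrFun ((β n).equivFun.symm.injective h1) j)
  have t4 : ∀ n, ∀ z ∈ Sp K (Tw deg A), (∀ m, tl m z ∈ Kn K A n) → ∃ v, Θ n v = z := by
    intro n z hz h
    have h1 : ∀ m (j : Fin (Module.finrank K (Kn K A n))), (β n).repr ⟨_, h m⟩ j ≠ 0 →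
        ∃ w, z (m :: w) ≠ 0 := fun m j h1 => by
      by_contra h2
      push Not at h2
      have h3 : (⟨_, h m⟩ : Kn K A n) = 0 := Subtype.ext (Finsupp.ext h2)
      simp [h3] at h1
    classical
    choose v hv using fun j : Fin (Module.finrank K (Kn K A n)) =>
      (hrange (onFinset (z.support.image (List.headD · 0)) (fun m => (β n).repr ⟨_, h m⟩ j)
        fun m hm => let ⟨w, hw⟩ := h1 m j hm
          Finset.mem_image.2 ⟨m :: w, mem_support_iff.2 hw, rfl⟩)).1 (sp_iff.2 fun m hm => by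
        obtain ⟨w, hw⟩ := h1 m j hm
        obtain ⟨_, _, h2, h3, -⟩ := sp_iff.1 hz _ hw
        cases h2
        exact h3)
    refine ⟨v, ext_tl ?_ fun m => ?_⟩
    · have h2 : Θ n v [] = 0 := by_contra fun h2 => by simpa using sp_iff.1 (t2 n v) _ h2
      have h3 : z [] = 0 := by_contra fun h3 => by simpa [Tw] using sp_iff.1 hz _ h3
      rw [h2, h3]
    · simp only [t1, hv, onFinset_apply, Module.Basis.sum_repr]
  have t5 : ∀ n v, Θ n ((d n).mulVec v) = Dd 1 (Θ (n + 1) v) := fun n v => by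
    simp only [Θ, map_sum, Matrix.mulVec, dotProduct, d, Finset.sum_mul, smul_mul_assoc, map_smul,
      hmul, LinearMap.sum_apply, LinearMap.smul_apply]
    rw [Finset.sum_comm]
    refine Finset.sum_congr rfl fun j _ => ?_
    rw [Dd_cat (β (n + 1) j).2, Finset.sum_comm]
    refine Finset.sum_congr rfl fun a _ => ?_
    have h1 := congrArg Subtype.val ((β n).sum_repr ⟨_, tl_Kn hA (β (n + 1) j).2 a⟩)
    simp only [Submodule.coe_sum, Submodule.coe_smul] at h1
    conv_rhs => rw [← h1, map_sum]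
    simp only [map_smul]
  have t6 : ∀ n v, Θ n v ∈ Sp K (Tw deg A) := fun n v => sp_to (t2 n v) (by
    rintro _ ⟨m, h1, r, h2, rfl⟩
    exact ⟨m, r, rfl, h1, fun a ha =>
      ⟨AddSubmonoid.subset_closure (h2.2 a ha), (hA a (h2.2 a ha)).ge⟩⟩)
  have t7 : ∀ n v, Θ n v ∈ Sp K {w | 2 ≤ w.length ∨ ∀ a ∈ w, 1 ≤ deg a} → Dd 1 (Θ n v) = 0 →
      ∃ u, (d n).mulVec u = v := fun n v h1 h2 => by
    obtain ⟨y, h3, h4⟩ := exists_aug hA (t6 n v) h1 h2
    obtain ⟨y', h5, h6, h7⟩ := zigzag hA hG (n := n) h3 (h4 ▸ sp_to (t2 n v) (by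
      rintro _ ⟨m, -, r, h2, rfl⟩
      exact ⟨by simpa using h2.1, mem_Dg hA h2.2⟩))
    obtain ⟨u, rfl⟩ := t4 _ y' h5 h7
    exact ⟨u, t3 n (by rw [t5, h6, h4])⟩
  have t8 : ∀ n i j, d n i j ∈ Submodule.span K (Set.range x) := fun n i j =>
    Submodule.sum_mem _ fun a _ => Submodule.smul_mem _ _ (Submodule.subset_span ⟨a, rfl⟩)
  refine ⟨fun n => Module.finrank K (Kn K A n), d, ?_, t8, fun v => ⟨?_, fun hv => ?_⟩,
    fun n v => ⟨fun hv => t7 (n + 1) v (sp_to (t2 _ v) ?_) ?_, ?_⟩⟩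
  · change Module.finrank K (Kn K A 0) = 1
    rw [Kn_zero]
    exact finrank_span_singleton (by simp)
  · rintro ⟨u, rfl⟩ j
    rw [Matrix.mulVec, dotProduct]
    exact Ideal.sum_mem _ fun k _ => Ideal.mul_mem_right _ _ (Ideal.subset_span (t8 0 j k))
  · have h1 : ∀ j, ψ (v j) ∈ Sp K {m | 1 ≤ deg m} := fun j => by
      have h2 := hv j
      rw [Ideal.span, Submodule.span_span_of_tower] at h2
      obtain ⟨c, h3⟩ := (Submodule.mem_span_range_iff_exists_fun R).1 h2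
      rw [← h3, map_sum]
      refine Submodule.sum_mem _ fun a _ => ?_
      rw [smul_eq_mul, mul_comm, hmul]
      refine sp_to (sp_map _ ((hrange _).2 ⟨_, rfl⟩)) ?_
      rintro _ ⟨m, h4, rfl⟩
      have := nonneg_closure (g := deg) (fun a ha => by rw [hA a ha]; omega) h4
      rw [Set.mem_ofPred_eq, map_add, hA a a.2]
      omega
    have h2 : Θ 0 v ∈ Sp K {w | ∃ m ∈ {m | 1 ≤ deg m},
        ∃ r ∈ {w : List M | w.length = 0 ∧ ∀ a ∈ w, a ∈ A}, w = m :: r} :=
      Submodule.sum_mem _ fun j _ => cat_mem (h1 j) (β 0 j).2.1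
    refine t7 0 v (sp_to h2 ?_) (map_eq_of_single _ 0 ?_ h2) <;>
      rintro _ ⟨m, h3, r, ⟨h4, -⟩, rfl⟩ <;> obtain rfl := List.length_eq_zero_iff.1 h4
    · exact Or.inr (by simpa using h3)
    · simp
  · rintro _ ⟨m, -, r, h2, rfl⟩
    exact Or.inl (by simp [h2.1])
  · rw [← t5, show (d n).mulVec v = 0 from hv]
    simp [Θ]
  · rintro ⟨u, rfl⟩
    refine t3 n ?_
    rw [t5, t5, Dd_Dd _ fun _ _ _ => rfl]
    simp [Θ]

end Pool.Agent.Lib.MP_b664fd_ag
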