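import Pool.Agent.Lib.MP_b664fd_ag.Cell

/-! Polytopes cut out by signed sets whose unit cells are alcoved. -/

open Finset

namespace Pool.Agent.Lib.MP_b664fd_ag

variable {n : ℕ} {κ : Type} {α : κ → Fin n → ℤ} {ρ : κ → ℤ} {c : Fin n → ℤ} {U : Finset (Fin n)}

/-- The pairing. -/
def ip (a : Fin n → ℤ) (x : Fin n → ℝ) : ℝ := ∑ i, (a i : ℝ) * x i

/-- Real points. -/
def PR (α : κ → Fin n → ℤ) (ρ : κ → ℤ) : Set (Fin n → ℝ) := {x | ∀ k, ip (α k) x ≤ ρ k}

/-- Lattice points. -/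
def PZ (α : κ → Fin n → ℤ) (ρ : κ → ℤ) : Set (Fin n → ℤ) := {x | ∀ k, ∑ i, α k i * x i ≤ ρ k}

/-- Points of the unit cell at `c` that are interior in the directions of `U`. -/
def Gen (α : κ → Fin n → ℤ) (ρ : κ → ℤ) (c : Fin n → ℤ) (U : Finset (Fin n)) (q : Fin n → ℝ) :
    Prop := q ∈ PR α ρ ∧ (∀ i, (c i : ℝ) ≤ q i ∧ q i ≤ c i + 1) ∧
      ∀ i ∈ U, (c i : ℝ) < q i ∧ q i < c i + 1

/-- Restriction of a signed set. -/
def res (U : Finset (Fin n)) (a : Fin n → ℤ) : Fin n → ℤ := fun i => if i ∈ U then a i else 0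

/-- The inequalities that matter in a cell are compatible. -/
def Sep (α : κ → Fin n → ℤ) (ρ : κ → ℤ) : Prop :=
  ∀ c U k l q q', Gen α ρ c U q → Gen α ρ c U q' → ip (α k) q = ρ k → ip (α l) q' = ρ l →
    Cpt (res U (α k)) (res U (α l))

lemma ip_comb (a : Fin n → ℤ) (x y : Fin n → ℝ) (s t : ℝ) :
    ip a (fun i => s * x i + t * y i) = s * ip a x + t * ip a y := by
  simp only [ip, mul_sum, ← sum_add_distrib]
  exact sum_congr rfl fun i _ => by ring

lemma ip_cast (a x : Fin n → ℤ) : ip a (fun i => (x i : ℝ)) = (∑ i, a i * x i : ℤ) := by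
  simp [ip]

lemma exit_pt [Finite κ] {p y : Fin n → ℝ} (hp : Gen α ρ c U p)
    (hy : ∀ i, (c i : ℝ) ≤ y i ∧ y i ≤ c i + 1)
    (h : ∀ k q, Gen α ρ c U q → ip (α k) q = ρ k → ip (α k) y ≤ ρ k) : y ∈ PR α ρ := by
  by_contra h0
  obtain ⟨k, h1, h2⟩ := Set.exists_min_image {k | (ρ k : ℝ) < ip (α k) y}
    (fun k => (ρ k - ip (α k) p) / (ip (α k) y - ip (α k) p)) (Set.toFinite _)
    (by simpa [PR, Set.Nonempty] using h0)
  set t := (ρ k - ip (α k) p) / (ip (α k) y - ip (α k) p) with ht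
  have h3 : (ρ k : ℝ) < ip (α k) y := h1
  have h4 := hp.1 k
  have h5 : 0 ≤ t := div_nonneg (by linarith) (by linarith)
  have h6 : t < 1 := (div_lt_one (by linarith)).2 (by linarith)
  have h7 : t * (ip (α k) y - ip (α k) p) = ρ k - ip (α k) p := div_mul_cancel₀ _ (by linarith)
  refine h3.not_ge (h k (fun i => (1 - t) * p i + t * y i) ⟨fun l => ?_, fun i => ?_,
    fun i hi => ?_⟩ (by rw [ip_comb]; linarith))
  · rw [ip_comb]
    have h8 := hp.1 l
    by_cases h9 : (ρ l : ℝ) < ip (α l) y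
    · have := (le_div_iff₀ (by linarith)).1 (h2 l h9)
      linarith
    · nlinarith
  · have := hp.2.1 i
    have := hy i
    constructor <;> nlinarith
  · have := hp.2.2 i hi
    have := hy i
    constructor <;> nlinarith

lemma generic_pt {m : Fin n → ℝ} (hm : Gen α ρ c ∅ m)
    (h : ∀ i ∈ U, ∃ q, Gen α ρ c {i} q) : ∃ p, Gen α ρ c U p := by
  induction U using Finset.induction_on with
  | empty => exact ⟨m, hm⟩
  | insert i U _ ih =>
    obtain ⟨p, hp⟩ := ih fun j hj => h j (mem_insert_of_mem hj)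
    obtain ⟨q, hq⟩ := h i (mem_insert_self _ _)
    refine ⟨fun j => 1 / 2 * p j + 1 / 2 * q j, fun k => ?_, fun j => ?_, fun j hj => ?_⟩
    · rw [ip_comb]
      linarith [hp.1 k, hq.1 k]
    · constructor <;> linarith [(hp.2.1 j).1, (hp.2.1 j).2, (hq.2.1 j).1, (hq.2.1 j).2]
    · rcases mem_insert.1 hj with rfl | hj
      · have := hq.2.2 j (mem_singleton_self _)
        constructor <;> linarith [(hp.2.1 j).1, (hp.2.1 j).2, this.1, this.2]
      · have := hp.2.2 j hj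
        constructor <;> linarith [(hq.2.1 j).1, (hq.2.1 j).2, this.1, this.2]

lemma cell [Finite κ] (hv : ∀ k i, α k i = 0 ∨ α k i = 1 ∨ α k i = -1) (hs : Sep α ρ)
    (c : Fin n → ℤ) : ∃ z : Fin n × Bool → (Fin n → ℤ) →+ ℤ,
      (∀ x y, (∀ j, z j x = z j y) → x = y) ∧ ∀ u ∈ PZ α ρ, ∀ v ∈ PZ α ρ,
        (∀ i, 2 * c i ≤ u i + v i ∧ u i + v i ≤ 2 * c i + 2) → ∃ u' ∈ PZ α ρ, ∃ v' ∈ PZ α ρ,
          u' + v' = u + v ∧ (∀ i, u' i ≤ v' i + 1 ∧ v' i ≤ u' i + 1) ∧
            ∀ j, z j v' ≤ z j u' ∧ z j u' ≤ z j v' + 1 := by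
  classical
  have := Fintype.ofFinite κ
  let U : Finset (Fin n) := univ.filter fun i => ∃ q, Gen α ρ c {i} q
  obtain ⟨z, h1, h2⟩ := round ((univ.filter fun k => ∃ q, Gen α ρ c U q ∧ ip (α k) q = ρ k).image
    fun k => res U (α k)) (by
      simp only [mem_image]
      rintro _ ⟨k, -, rfl⟩ i
      have := hv k i
      simp only [res]
      split_ifs <;> omega) (by
      simp only [mem_image, mem_filter]
      rintro _ ⟨k, ⟨-, q, h1, h2⟩, rfl⟩ _ ⟨l, ⟨-, q', h3, h4⟩, rfl⟩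
      exact hs c U k l q q' h1 h3 h2 h4)
  refine ⟨z, h1, fun u hu v hv' h3 => ?_⟩
  obtain ⟨d, h4, h5, h6⟩ := h2 (u + v)
  simp only [Pi.add_apply] at h4
  have h7 : ∀ V : Finset (Fin n), (∀ i ∈ V, d i ≠ 0) →
      Gen α ρ c V fun i => 1 / 2 * (u i : ℝ) + 1 / 2 * (v i : ℝ) := fun V hV => by
    refine ⟨fun k => ?_, fun i => ?_, fun i hi => ?_⟩
    · rw [ip_comb, ip_cast, ip_cast]
      have h7 : ((∑ i, α k i * u i : ℤ) : ℝ) ≤ ρ k := Int.cast_le.2 (hu k)
      have h8 : ((∑ i, α k i * v i : ℤ) : ℝ) ≤ ρ k := Int.cast_le.2 (hv' k)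
      linarith
    · have h7 : (2 * c i : ℝ) ≤ u i + v i := by exact_mod_cast (h3 i).1
      have h8 : (u i + v i : ℝ) ≤ 2 * c i + 2 := by exact_mod_cast (h3 i).2
      constructor <;> linarith
    · have h7 : u i + v i = 2 * c i + 1 := by
        have := h3 i
        have := h4 i
        have := hV i hi
        omega
      have h8 : (u i + v i : ℝ) = 2 * c i + 1 := by exact_mod_cast h7
      constructor <;> linarith
  obtain ⟨p, hp⟩ := generic_pt (U := U) (h7 ∅ (by simp)) fun i hi => (mem_filter.1 hi).2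
  have h8 : ∀ (y : Fin n → ℤ) (e : ℤ), (e = 1 ∨ e = -1) → (∀ i, 2 * y i = u i + v i + e * d i) →
      y ∈ PZ α ρ := fun y e he hy k => by
    refine Int.cast_le (R := ℝ) |>.1 ((ip_cast _ _).symm.trans_le (exit_pt hp (fun i => ?_)
      (fun l q h8 h9 => ?_) k))
    · have h8 : c i ≤ y i ∧ y i ≤ c i + 1 := by
        have := h3 i
        have := h4 i
        have := hy i
        rcases he with rfl | rfl <;> omega
      exact_mod_cast h8
    · have h10 := h6 _ (mem_image_of_mem _ (mem_filter.2 ⟨mem_univ l, q, h8, h9⟩))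
      have h11 : 2 * ∑ i, α l i * y i = ∑ i, α l i * u i + ∑ i, α l i * v i +
          e * ∑ i, res U (α l) i * d i := by
        simp only [mul_sum, ← sum_add_distrib]
        refine sum_congr rfl fun i _ => ?_
        rw [mul_left_comm, hy]
        by_cases h : d i = 0
        · rw [h]
          ring
        · rw [res, if_pos (mem_filter.2 ⟨mem_univ i, _, h7 {i} (by simpa using h)⟩)]
          ring
      have h12 := hu l
      have h13 := hv' l
      rw [ip_cast, Int.cast_le]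
      rcases he with rfl | rfl <;> omega
  have h9 : (fun i => (u i + v i + d i) / 2) = (fun i => (u i + v i - d i) / 2) + d :=
    funext fun i => by have := h4 i; simp only [Pi.add_apply]; omega
  refine ⟨fun i => (u i + v i + d i) / 2, h8 _ 1 (Or.inl rfl) fun i => ?_,
    fun i => (u i + v i - d i) / 2, h8 _ (-1) (Or.inr rfl) fun i => ?_, funext fun i => ?_,
    fun i => ?_, fun j => ?_⟩
  · have := h4 i
    omega
  · have := h4 i
    omega
  · have := h4 i
    simp only [Pi.add_apply]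
    omega
  · have := h4 i
    simp only
    omega
  · have := h5 j
    rw [h9, map_add]
    omega

theorem koszul_of_sep (K : Type) [Field K] [Finite κ]
    (hv : ∀ k i, α k i = 0 ∨ α k i = 1 ∨ α k i = -1) (hs : Sep α ρ) (lo hi : Fin n → ℤ) :
    ToricKoszul K {x | x ∈ PZ α ρ ∧ ∀ i, lo i ≤ x i ∧ x i ≤ hi i} := by
  have hfin : ∀ lo hi : Fin n → ℤ, {x | x ∈ PZ α ρ ∧ ∀ i, lo i ≤ x i ∧ x i ≤ hi i}.Finite :=
    fun lo hi => (Set.finite_Icc lo hi).subset fun x hx => ⟨fun i => (hx.2 i).1, fun i => (hx.2 i).2⟩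
  refine Good.toric (hfin lo hi) (Good.rec_cut (fun B => ∃ lo hi : Fin n → ℤ,
    B = lift {x | x ∈ PZ α ρ ∧ ∀ i, lo i ≤ x i ∧ x i ≤ hi i}) ?_ (lift_finite (hfin lo hi))
    ⟨lo, hi, rfl⟩)
  rintro _ ⟨lo, hi, rfl⟩
  set B := lift {x | x ∈ PZ α ρ ∧ ∀ i, lo i ≤ x i ∧ x i ≤ hi i} with hB
  have h0 : ∀ a ∈ B, AddMonoidHom.snd _ _ a = 1 := fun a ha => ha.2
  have h1 : ∀ u ∈ B, ∀ v ∈ B, ∀ u' ∈ PZ α ρ, ∀ v' ∈ PZ α ρ, u' + v' = u.1 + v.1 →
      (∀ i, u' i ≤ v' i + 1 ∧ v' i ≤ u' i + 1) → (u', 1) ∈ B ∧ (v', 1) ∈ B ∧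
        (u', 1) + (v', 1) = u + v := fun u hu v hv u' h1 v' h2 h3 h4 => by
    refine ⟨⟨⟨h1, fun i => ?_⟩, rfl⟩, ⟨⟨h2, fun i => ?_⟩, rfl⟩,
      Prod.ext h3 (by rw [Prod.snd_add, Prod.snd_add, hu.2, hv.2])⟩ <;>
    · have h5 : u' i + v' i = u.1 i + v.1 i := congrFun h3 i
      have := h4 i
      have := hu.1.2 i
      have := hv.1.2 i
      simp only
      omega
  by_cases h2 : ∃ i, ∃ u ∈ B, ∃ v ∈ B, v.1 i + 1 < u.1 i
  · obtain ⟨i, u, hu, v, hv', h2⟩ := h2
    let g : (Fin n → ℤ) × ℤ →+ ℤ := shf (AddMonoidHom.snd _ _)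
      ((Pi.evalAddMonoidHom (fun _ => ℤ) i).comp (AddMonoidHom.fst _ ℤ)) (v.1 i + 1)
    have h3 : ∀ a ∈ B, g a = a.1 i - (v.1 i + 1) := fun a ha => shf_apply h0 _ _ ha
    have h4 : ∀ a : (Fin n → ℤ) × ℤ, a.2 = 1 → g a = a.1 i - (v.1 i + 1) := fun a ha =>
      shf_apply (A := {a : (Fin n → ℤ) × ℤ | a.2 = 1}) (deg := AddMonoidHom.snd _ _)
        (fun b (h : b.2 = 1) => h) _ _ ha
    refine Or.inr ⟨g, fun a ha b hb h5 h6 => ?_, ⟨u, hu, by rw [h3 u hu]; omega⟩,
      ⟨v, hv', by rw [h3 v hv']; omega⟩, ⟨Function.update lo i (max (lo i) (v.1 i + 1)), hi, ?_⟩,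
      ⟨lo, Function.update hi i (min (hi i) (v.1 i + 1)), ?_⟩⟩
    · obtain ⟨z, -, h7⟩ := cell hv hs fun j => (a.1 j + b.1 j) / 2
      obtain ⟨a', h8, b', h9, h10, h11, -⟩ := h7 _ ha.1.1 _ hb.1.1 fun j => by omega
      obtain ⟨h12, h13, h14⟩ := h1 a ha b hb a' h8 b' h9 h10 h11
      refine ⟨_, h12, _, h13, h14, ?_⟩
      have h15 : a' i + b' i = a.1 i + b.1 i := congrFun h10 i
      have := h11 i
      rw [h3 a ha] at h5
      rw [h3 b hb] at h6
      rw [h3 a ha, h3 b hb, h3 _ h12, h3 _ h13]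
      simp only
      omega
    · ext a
      refine ⟨fun ha => ⟨⟨ha.1.1.1, fun j => ?_⟩, ha.1.2⟩, fun ha => ⟨⟨⟨ha.1.1, fun j => ?_⟩,
        ha.2⟩, ?_⟩⟩
      · have h5 : 0 ≤ g a := ha.2
        have h6 := ha.1.1.2 j
        rw [h3 a ha.1] at h5
        rcases eq_or_ne j i with rfl | h
        · rw [Function.update_self]
          omega
        · rwa [Function.update_of_ne h]
      · have h6 := ha.1.2 j
        rcases eq_or_ne j i with rfl | h
        · rw [Function.update_self] at h6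
          omega
        · rwa [Function.update_of_ne h] at h6
      · have h6 := ha.1.2 i
        rw [Function.update_self] at h6
        change 0 ≤ g a
        rw [h4 a ha.2]
        omega
    · ext a
      refine ⟨fun ha => ⟨⟨ha.1.1.1, fun j => ?_⟩, ha.1.2⟩, fun ha => ⟨⟨⟨ha.1.1, fun j => ?_⟩,
        ha.2⟩, ?_⟩⟩
      · have h5 : 0 ≤ -g a := ha.2
        have h6 := ha.1.1.2 j
        rw [h3 a ha.1] at h5
        rcases eq_or_ne j i with rfl | h
        · rw [Function.update_self]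
          omega
        · rwa [Function.update_of_ne h]
      · have h6 := ha.1.2 j
        rcases eq_or_ne j i with rfl | h
        · rw [Function.update_self] at h6
          omega
        · rwa [Function.update_of_ne h] at h6
      · have h6 := ha.1.2 i
        rw [Function.update_self] at h6
        change 0 ≤ -g a
        rw [h4 a ha.2]
        omega
  · push Not at h2
    have h3 : ∃ c : Fin n → ℤ, ∀ a ∈ B, ∀ i, c i ≤ a.1 i ∧ a.1 i ≤ c i + 1 := by
      rcases B.eq_empty_or_nonempty with h | h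
      · exact ⟨0, by simp [h]⟩
      choose f h3 h4 using fun i => Set.exists_min_image B (fun a => a.1 i)
        (lift_finite (hfin lo hi)) h
      exact ⟨fun i => (f i).1 i, fun a ha i => ⟨h4 i a ha, h2 i a ha _ (h3 i)⟩⟩
    obtain ⟨c, h3⟩ := h3
    obtain ⟨z, h4, h5⟩ := cell hv hs c
    refine Or.inl (Good.sorts (fun j => (z j).comp (AddMonoidHom.fst _ ℤ)) h0
      (fun u hu v hv h => Prod.ext (h4 _ _ h) (hu.2.trans hv.2.symm)) (lift_finite (hfin lo hi))
      fun a ha b hb => ?_)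
    obtain ⟨a', h8, b', h9, h10, h11, h12⟩ := h5 _ ha.1.1 _ hb.1.1 fun j => by
      have := h3 a ha j
      have := h3 b hb j
      omega
    obtain ⟨h13, h14, h15⟩ := h1 a ha b hb a' h8 b' h9 h10 h11
    exact ⟨_, h13, _, h14, h15, h12⟩

/-- The part of `b` that is not in `a`. -/
def dif (a b : Fin n → ℤ) : Fin n → ℤ := fun i => if b i = a i then 0 else b i

/-- The defect of modularity is at least the size of the difference minus one. -/
def Gap (α : κ → Fin n → ℤ) (ρ : κ → ℤ) (k l : κ) : Prop :=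
  ∃ m M : ℤ, (∀ x ∈ PR α ρ, ip (α l - dif (α k) (α l)) x ≤ m) ∧
    (∀ x ∈ PR α ρ, ip (α k + dif (α k) (α l)) x ≤ M) ∧
      m + M + (sup (dif (α k) (α l))).card ≤ ρ k + ρ l + 1

lemma ip_add (a b : Fin n → ℤ) (x : Fin n → ℝ) : ip (a + b) x = ip a x + ip b x := by
  simp [ip, add_mul, sum_add_distrib]

lemma ip_sub (a b : Fin n → ℤ) (x : Fin n → ℝ) : ip (a - b) x = ip a x - ip b x := by
  simp [ip, sub_mul]

lemma Gap.false (hv : ∀ k i, α k i = 0 ∨ α k i = 1 ∨ α k i = -1) {k l : κ} (h : Gap α ρ k l)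
    {q q' : Fin n → ℝ} (h1 : Gen α ρ c U q) (h2 : Gen α ρ c U q') (h3 : ip (α k) q = ρ k)
    (h4 : ip (α l) q' = ρ l) {j : Fin n} (hj : j ∈ U) (h5 : dif (α k) (α l) j ≠ 0) : False := by
  obtain ⟨m, M, h6, h7, h8⟩ := h
  have h9 := h6 q' h2.1
  have h10 := h7 q h1.1
  rw [ip_sub] at h9
  rw [ip_add] at h10
  have hγ : ∀ i, dif (α k) (α l) i = 0 ∨ dif (α k) (α l) i = 1 ∨ dif (α k) (α l) i = -1 :=
    fun i => by
      have := hv l i
      simp only [dif]
      split_ifs <;> omega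
  generalize dif (α k) (α l) = γ at *
  have h11 : ip γ q' < (∑ i, (γ i * c i + if γ i = 1 then 1 else 0) : ℤ) := by
    rw [Int.cast_sum]
    refine sum_lt_sum (fun i _ => ?_) ⟨j, mem_univ _, ?_⟩
    · have := h2.2.1 i
      rcases hγ i with h | h | h <;> simp [h] <;> linarith
    · have := h2.2.2 j hj
      rcases hγ j with h | h | h <;> simp [h] at h5 ⊢ <;> linarith
  have h12 : (∑ i, (γ i * c i - if γ i = -1 then 1 else 0) : ℤ) < ip γ q := by
    rw [Int.cast_sum]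
    refine sum_lt_sum (fun i _ => ?_) ⟨j, mem_univ _, ?_⟩
    · have := h1.2.1 i
      rcases hγ i with h | h | h <;> simp [h] <;> linarith
    · have := h1.2.2 j hj
      rcases hγ j with h | h | h <;> simp [h] at h5 ⊢ <;> linarith
  have h13 : ∑ i, (γ i * c i + if γ i = 1 then 1 else 0) =
      ∑ i, (γ i * c i - if γ i = -1 then 1 else 0) + (sup γ).card := by
    rw [sup, card_filter, Nat.cast_sum, ← sum_add_distrib]
    refine sum_congr rfl fun i _ => ?_
    rcases hγ i with h | h | h <;> simp [h]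
  have h14 : ρ l < m + ∑ i, (γ i * c i + if γ i = 1 then 1 else 0) := by
    refine Int.cast_lt (R := ℝ) |>.1 ?_
    rw [Int.cast_add]
    linarith
  have h15 : ρ k + ∑ i, (γ i * c i - if γ i = -1 then 1 else 0) < M := by
    refine Int.cast_lt (R := ℝ) |>.1 ?_
    rw [Int.cast_add]
    linarith
  omega

lemma sep_of_gap (hv : ∀ k i, α k i = 0 ∨ α k i = 1 ∨ α k i = -1)
    (h : ∀ k l, ¬Cpt (α k) (α l) → Gap α ρ k l ∨ Gap α ρ l k) : Sep α ρ := by
  intro c U k l q q' h1 h2 h3 h4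
  by_contra h5
  have h6 : ∀ a b : Fin n → ℤ, (∀ j ∈ U, dif a b j = 0) → ∀ i, res U b i ≠ 0 →
      res U a i = 1 * res U b i := fun a b h6 i hi => by
    by_cases h8 : i ∈ U
    · have h7 := h6 i h8
      simp only [res, dif, if_pos h8] at h7 hi ⊢
      split_ifs at h7 <;> omega
    · exact (hi (if_neg h8)).elim
  have h8 : ∀ (s : ℤ) (a b : Fin n → ℤ), (∀ i, a i ≠ 0 → b i = s * a i) → ∀ i, res U a i ≠ 0 →
      res U b i = s * res U a i := fun s a b h9 i hi => by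
    by_cases h8 : i ∈ U
    · simp only [res, if_pos h8] at hi ⊢
      exact h9 i hi
    · exact (hi (if_neg h8)).elim
  refine (h k l fun h7 => h5 ?_).elim (fun h7 => h5 (Or.inl ⟨1, Or.inl rfl, Or.inr (h6 _ _
    fun j hj => not_not.1 (h7.false hv h1 h2 h3 h4 hj))⟩)) fun h7 => h5 (Or.inl ⟨1, Or.inl rfl,
      Or.inl (h6 _ _ fun j hj => not_not.1 (h7.false hv h2 h1 h4 h3 hj))⟩)
  refine h7.imp (fun ⟨s, h9, h10⟩ => ⟨s, h9, h10.imp (h8 s _ _) (h8 s _ _)⟩) fun h9 i => ?_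
  have := h9 i
  simp only [res]
  split_ifs <;> omega

end Pool.Agent.Lib.MP_b664fd_ag
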