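import Pool.Agent.Lib.MP_b664fd_ag.Sep

/-! Strictly bisubmodular functions. -/

open Finset

namespace Pool.Agent.Lib.MP_b664fd_ag

variable {n : ℕ} {ρ : (Fin n → SignType) → ℤ}

/-- Common part of two signed sets. -/
def smeet (a b : Fin n → SignType) : Fin n → SignType := fun i => if b i = a i then b i else 0

/-- Union of two signed sets without the conflicts. -/
def sjoin (a b : Fin n → SignType) : Fin n → SignType := fun i =>
  if b i = a i ∨ b i = 0 then a i else if a i = 0 then b i else 0

lemma typeB_gap (bs : ∀ a b m j : Fin n → SignType, (∀ i, m i = 0 ∨ m i = j i) →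
      (∀ i, (a i : ℤ) + b i = m i + j i) → ρ m + ρ j ≤ ρ a + ρ b ∧ ((∃ i, a i ≠ 0 ∧ a i ≠ b i) →
        (∃ i, b i ≠ 0 ∧ b i ≠ a i) → ρ m + ρ j < ρ a + ρ b))
    (a b : Fin n → SignType) (h : ∃ i, a i ≠ 0 ∧ a i ≠ b i) :
    ρ (smeet a b) + ρ (sjoin a b) + (univ.filter fun i => b i ≠ a i ∧ b i ≠ 0).card ≤
      ρ a + ρ b := by
  induction hk : (univ.filter fun i => b i ≠ a i ∧ b i ≠ 0).card generalizing b with
  | zero =>
    have h1 : ∀ i, ¬(b i ≠ a i ∧ b i ≠ 0) := fun i hi =>
      filter_eq_empty_iff.1 (card_eq_zero.1 hk) (mem_univ i) hi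
    have h2 : smeet a b = b := funext fun i => by
      have := h1 i
      simp only [smeet]
      split_ifs <;> tauto
    have h3 : sjoin a b = a := funext fun i => if_pos (by have := h1 i; tauto)
    rw [h2, h3]
    omega
  | succ k ih =>
    have h1 : ∀ i, b i ≠ a i ∧ b i ≠ 0 → ρ (smeet a b) + ρ (sjoin a (Function.update b i 0)) + k ≤
        ρ a + ρ (Function.update b i 0) := fun i hi => by
      have h2 : smeet a (Function.update b i 0) = smeet a b := funext fun j => by
        rcases eq_or_ne j i with rfl | h2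
        · simp [smeet, hi.1]
        · simp [smeet, h2]
      rw [← h2]
      refine ih _ (h.imp fun j hj => ⟨hj.1, ?_⟩) ?_
      · rcases eq_or_ne j i with rfl | h2
        · simpa using hj.1
        · simpa [h2] using hj.2
      · have h3 : (univ.filter fun j => Function.update b i 0 j ≠ a j ∧
            Function.update b i 0 j ≠ 0) = (univ.filter fun i => b i ≠ a i ∧ b i ≠ 0).erase i := by
          ext j
          rcases eq_or_ne j i with rfl | h2
          · simp
          · simp [h2]
        rw [h3, card_erase_of_mem (by simpa using hi), hk]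
        rfl
    by_cases h2 : ∃ i, (b i ≠ a i ∧ b i ≠ 0) ∧ a i ≠ 0
    · obtain ⟨i, h2, h3⟩ := h2
      have h4 := h1 i h2
      let S : SignType → Fin n → SignType := fun s j =>
        if j = i then s else if b j = 0 then a j else b j
      have h5 := (bs b (S 0) (Function.update b i 0) (S (b i)) (fun j => ?_) fun j => ?_).1
      have h6 := (bs (sjoin a (Function.update b i 0)) (S 0) (sjoin a b) (S (a i)) (fun j => ?_)
        fun j => ?_).1
      have h7 := (bs (S (b i)) (S (a i)) (S 0) (S 0) (fun j => Or.inr rfl) fun j => ?_).2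
        ⟨i, by simpa [S] using ⟨h2.2, h2.1⟩⟩ ⟨i, by simpa [S] using ⟨h3, h2.1.symm⟩⟩
      · push_cast
        omega
      all_goals
        rcases eq_or_ne j i with rfl | h8
        · simp only [S, sjoin, if_true, Function.update_self]
          revert h2 h3
          generalize a j = s
          generalize b j = t
          revert s t
          decide
        · simp only [S, sjoin, if_neg h8, Function.update_of_ne h8]
          try generalize a j = s
          try generalize b j = t
          try revert s t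
          try decide
    · push Not at h2
      obtain ⟨i, hi⟩ := card_pos.1 (hk.symm ▸ Nat.succ_pos k :
        0 < (univ.filter fun i => b i ≠ a i ∧ b i ≠ 0).card)
      have h3 := (mem_filter.1 hi).2
      have h4 := h1 i h3
      have h5 := h2 i h3
      obtain ⟨l, h6⟩ := h
      have h7 : b l = 0 := not_not.1 fun h7 => h6.1 (h2 l ⟨h6.2.symm, h7⟩)
      have h8 : l ≠ i := fun h8 => h3.2 (h8 ▸ h7)
      have h9 := (bs b (sjoin a (Function.update b i 0)) (Function.update b i 0) (sjoin a b)
        (fun j => ?_) fun j => ?_).2 ⟨i, h3.2, by simpa [sjoin, h5] using h3.2⟩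
        ⟨l, by simpa [sjoin, h8, h7] using h6.1⟩
      · push_cast
        omega
      all_goals
        have h10 := h2 j
        rcases eq_or_ne j i with rfl | h8
        · simp [sjoin, h5, h3.2]
        · simp only [sjoin, Function.update_of_ne h8]
          try revert h10
          try generalize a j = s
          try generalize b j = t
          try revert s t
          try decide

theorem typeB_koszul (K : Type) [Field K] {P : Set (Fin n → ℝ)}
    (hP : ∀ x, x ∈ P ↔ ∀ a : Fin n → SignType, ∑ i, (a i : ℝ) * x i ≤ ρ a)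
    (hF : ∀ a b : Fin n → SignType, (∀ i, a i = 0 ∨ a i = b i) → ∃ x ∈ P,
      ∑ i, (a i : ℝ) * x i = ρ a ∧ ∑ i, (b i : ℝ) * x i = ρ b)
    (hN : ∀ x ∈ P, ∀ a b : Fin n → SignType, ∑ i, (a i : ℝ) * x i = ρ a →
      ∑ i, (b i : ℝ) * x i = ρ b → (∀ i, a i = 0 ∨ a i = b i) ∨ ∀ i, b i = 0 ∨ b i = a i)
    (lo hi : Fin n → ℤ) :
    ToricKoszul K {x | (fun i => (x i : ℝ)) ∈ P ∧ ∀ i, lo i ≤ x i ∧ x i ≤ hi i} := by
  let α : (Fin n → SignType) → Fin n → ℤ := fun a i => a i
  have h0 : ∀ a x, ip (α a) x = ∑ i, (a i : ℝ) * x i := fun a x => by simp [ip, α]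
  have h1 : ∀ x, x ∈ PR α ρ ↔ x ∈ P := fun x => by simp only [hP, PR, Set.mem_ofPred_eq, h0]
  have h2 : ∀ x, x ∈ PZ α ρ ↔ (fun i => (x i : ℝ)) ∈ P := fun x => by
    simp only [← h1, PR, PZ, Set.mem_ofPred_eq, ip_cast, Int.cast_le]
  have hv : ∀ k i, α k i = 0 ∨ α k i = 1 ∨ α k i = -1 := fun k i => by
    simp only [α]
    generalize k i = s
    revert s
    decide
  simp only [← h2]
  refine koszul_of_sep K hv (sep_of_gap hv fun a b h => Or.inl ?_) lo hi
  have h3 := typeB_gap (ρ := ρ) (fun a b m j h3 h4 => ?_) a b (by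
    by_contra h3
    push Not at h3
    exact h (Or.inl ⟨1, Or.inl rfl, Or.inl fun i hi => by
      rw [one_mul]
      exact congrArg (fun s : SignType => (s : ℤ)) (h3 i fun h4 => hi (by simp [α, h4])).symm⟩))
  · have e1 : α b - dif (α a) (α b) = α (smeet a b) := funext fun i => by
      simp only [α, dif, smeet, Pi.sub_apply]
      generalize a i = s
      generalize b i = t
      revert s t
      decide
    have e2 : α a + dif (α a) (α b) = α (sjoin a b) := funext fun i => by
      simp only [α, dif, sjoin, Pi.add_apply]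
      generalize a i = s
      generalize b i = t
      revert s t
      decide
    have e3 : sup (dif (α a) (α b)) = univ.filter fun i => b i ≠ a i ∧ b i ≠ 0 := by
      refine filter_congr fun i _ => ?_
      simp only [α, dif]
      generalize a i = s
      generalize b i = t
      revert s t
      decide
    exact ⟨ρ (smeet a b), ρ (sjoin a b), fun x hx => e1 ▸ hx _, fun x hx => e2 ▸ hx _, by
      rw [e3]
      omega⟩
  obtain ⟨x, hx, h5, h6⟩ := hF m j h3
  have h7 := (hP x).1 hx a
  have h8 := (hP x).1 hx b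
  have h9 : ∑ i, (a i : ℝ) * x i + ∑ i, (b i : ℝ) * x i =
      ∑ i, (m i : ℝ) * x i + ∑ i, (j i : ℝ) * x i := by
    simp only [← sum_add_distrib, ← add_mul]
    refine sum_congr rfl fun i _ => congrArg (· * x i) ?_
    simpa using congrArg (Int.cast : ℤ → ℝ) (h4 i)
  have h10 : ρ m + ρ j ≤ ρ a + ρ b := by
    refine Int.cast_le (R := ℝ) |>.1 ?_
    push_cast
    linarith
  refine ⟨h10, fun ⟨i, h11⟩ ⟨l, h12⟩ => h10.lt_of_ne fun h13 => ?_⟩
  have h14 : (ρ m + ρ j : ℝ) = ρ a + ρ b := by exact_mod_cast h13
  exact (hN x hx a b (by linarith) (by linarith)).elim (fun h => (h i).elim h11.1 h11.2)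
    fun h => (h l).elim h12.1 h12.2

end Pool.Agent.Lib.MP_b664fd_ag
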